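import Pool.Agent.P.MP_6f117a_ag.E.Iface

/-! Step ABS of the proof of the existence of sections. -/

namespace Pool.Agent.P.MP_6f117a_ag.EX

open Module MvPolynomial

universe u

theorem abs_ind {ι : Type} [Fintype ι] [DecidableEq ι] (Q : (ι → ℕ) → Prop) (h0 : Q 0)
    (hs : ∀ t i, Q t → Q (t + Pi.single i 1)) (t : ι → ℕ) : Q t := by
  obtain ⟨N, hN⟩ : ∃ N, ∑ i, t i = N := ⟨_, rfl⟩
  induction N generalizing t with
  | zero =>
    rw [show t = 0 from funext fun i => Finset.sum_eq_zero_iff.1 hN i (Finset.mem_univ i)]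
    exact h0
  | succ N ih =>
    obtain ⟨i, -, hi⟩ := Finset.exists_ne_zero_of_sum_ne_zero (hN.trans_ne N.succ_ne_zero)
    have e : t = (t - Pi.single i 1) + Pi.single i 1 := by
      funext j
      rcases eq_or_ne j i with rfl | h
      · simp only [Pi.add_apply, Pi.sub_apply, Pi.single_eq_same]; omega
      · simp [h]
    rw [e]
    refine hs _ _ (ih _ ?_)
    rw [e] at hN
    simp only [Pi.add_apply, Finset.sum_add_distrib, Finset.sum_pi_single', Finset.mem_univ,
      if_true] at hN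
    omega

theorem abs_core {ι A : Type} [Fintype ι] [DecidableEq ι] [Fintype A] [LinearOrder A]
    (P : (A → ι → ℤ) → ℤ → Prop) (h : (ι → ℕ) → ℤ) (dd : A → ι → ℤ) (dp : A → ι → ℕ) (n₀ β : ℕ)
    (E : A → ℤ) (mono : ∀ τ m m', P τ m → m' ≤ m → P τ m')
    (step : ∀ (τ τ' : A → ι → ℤ) (a : A) (i : ι) (n' : ι → ℕ) (m : ℤ),
      τ' a = τ a - Pi.single i 1 → (∀ a', a' ≠ a → τ' a' = τ a') → (∀ a', a < a' → τ a' ≤ τ' a) →
      (∀ j, dd a j + τ a j ≤ n' j) → (∀ j, n₀ ≤ n' j) → P τ m →
      P τ' (m + h (n' - Pi.single i 1) - h n'))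
    (hE : ∀ a i, h (dp a) ≤ h (dp a - Pi.single i 1) + E a)
    (hd : ∀ a i, n₀ ≤ dp a i ∧ dd a i ≤ dp a i) (hβ : ∀ a i, dp a i - dd a i ≤ β)
    (T : Finset A) (m : ℤ) (hm : P (fun a _ => if a ∈ T then β else 0) m) :
    P 0 (m + ∑ a ∈ T, (h (dp a) - h (fun i => (dd a i + β).toNat) -
      (∑ i, (dp a i - dd a i).toNat : ℕ) * E a)) := by
  have one : ∀ (τ : A → ι → ℤ) (a : A), (∀ a', a < a' → τ a' = 0) →
      ∀ (s : ι → ℤ) (i : ι) (n' : ι → ℕ) (m : ℤ), 0 ≤ s →
      (∀ j, dd a j + (s + Pi.single i 1 : ι → ℤ) j ≤ n' j) → (∀ j, n₀ ≤ n' j) →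
      P (Function.update τ a (s + Pi.single i 1)) m →
      P (Function.update τ a s) (m + h (n' - Pi.single i 1) - h n') := by
    intro τ a h1 s i n' m h2 h3 h4
    refine step _ _ a i n' m (by simp) (fun a' h5 => by simp [h5]) (fun a' h5 => ?_)
      (by simpa using h3) h4
    rw [Function.update_of_ne h5.ne', Function.update_self, h1 a' h5]
    exact h2
  have A1 : ∀ (τ : A → ι → ℤ) (a : A), (∀ a', a < a' → τ a' = 0) → ∀ (t : ι → ℕ) (m : ℤ),
      P (Function.update τ a fun i => dp a i - dd a i + t i) m →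
      P (Function.update τ a fun i => dp a i - dd a i) (m + h (dp a) - h (dp a + t)) := by
    intro τ a h1 t
    induction t using abs_ind with
    | h0 => intro m h2; simpa using h2
    | hs t i ih =>
      intro m h2
      have e : (fun j => (dp a j : ℤ) - dd a j + ((t + Pi.single i 1 : ι → ℕ) j : ℕ)) =
          (fun j => (dp a j : ℤ) - dd a j + t j) + Pi.single i 1 := by
        funext j
        rcases eq_or_ne j i with rfl | h3
        · simp [add_assoc]
        · simp [h3]
      rw [e] at h2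
      have h3 := ih _ (one τ a h1 _ i (dp a + (t + Pi.single i 1)) m
        (fun j => by have := (hd a j).2; simp only [Pi.zero_apply]; omega)
        (fun j => by rw [← e]; simp only [Pi.add_apply]; push_cast; omega)
        (fun j => (hd a j).1.trans (Nat.le_add_right _ _)) h2)
      rw [← add_assoc, add_tsub_cancel_right] at h3
      rw [← add_assoc]
      exact mono _ _ _ h3 (by omega)
  have A2 : ∀ (τ : A → ι → ℤ) (a : A), (∀ a', a < a' → τ a' = 0) → ∀ (t : ι → ℕ) (m : ℤ),
      (∀ j, dd a j + t j ≤ dp a j) → P (Function.update τ a fun i => t i) m →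
      P (Function.update τ a 0) (m - (∑ i, t i : ℕ) * E a) := by
    intro τ a h1 t
    induction t using abs_ind with
    | h0 => intro m _ h2; exact mono _ _ _ h2 (by simp)
    | hs t i ih =>
      intro m h2 h3
      have e : (fun j => (((t + Pi.single i 1 : ι → ℕ) j : ℕ) : ℤ)) =
          (fun j => (t j : ℤ)) + Pi.single i 1 := by
        funext j
        rcases eq_or_ne j i with rfl | h3
        · simp
        · simp [h3]
      rw [e] at h3
      have h4 := ih _ (fun j => by
          have := h2 j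
          simp only [Pi.add_apply] at this
          omega)
        (one τ a h1 _ i (dp a) m (fun j => Int.natCast_nonneg _)
          (fun j => by rw [← e]; exact h2 j) (fun j => (hd a j).1) h3)
      refine mono _ _ _ h4 ?_
      simp only [Pi.add_apply, Finset.sum_add_distrib, Finset.sum_pi_single', Finset.mem_univ,
        if_true]
      rw [Nat.cast_add, add_mul, Nat.cast_one, one_mul]
      linarith [hE a i]
  induction T using Finset.induction_on_max generalizing m with
  | empty => exact mono _ _ _ (by simpa [Pi.zero_def] using hm) (by simp)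
  | insert a T h1 ih =>
    have ha : a ∉ T := fun h2 => lt_irrefl _ (h1 a h2)
    have h2 : ∀ a', a < a' → (fun (a : A) (_ : ι) => if a ∈ T then (β : ℤ) else 0) a' = 0 :=
      fun a' h2 => funext fun _ => if_neg fun h3 => lt_asymm h2 (h1 a' h3)
    have e1 : (fun (a' : A) (_ : ι) => if a' ∈ insert a T then (β : ℤ) else 0) =
        Function.update (fun (a : A) (_ : ι) => if a ∈ T then (β : ℤ) else 0) a
          fun i => dp a i - dd a i + ((β - (dp a i - dd a i)).toNat : ℕ) := by
      funext a' i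
      rcases eq_or_ne a' a with rfl | h3
      · have := hβ a' i
        simp only [Finset.mem_insert_self, if_true, Function.update_self]
        omega
      · simp [h3]
    have e2 : (fun i => (dp a i : ℤ) - dd a i) = fun i => (((dp a i - dd a i).toNat : ℕ) : ℤ) := by
      funext i
      have := (hd a i).2
      omega
    have e3 : Function.update (fun (a : A) (_ : ι) => if a ∈ T then (β : ℤ) else 0) a 0 =
        fun (a : A) (_ : ι) => if a ∈ T then (β : ℤ) else 0 := by
      rw [Function.update_eq_self_iff]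
      funext i
      simp [ha]
    have e4 : (dp a + fun i => (β - (dp a i - dd a i)).toNat) = fun i => (dd a i + β).toNat := by
      funext i
      have := hβ a i
      simp only [Pi.add_apply]
      omega
    rw [e1] at hm
    have h3 := A1 _ a h2 _ m hm
    rw [e2, e4] at h3
    have h4 := A2 _ a h2 _ _ (fun j => by have := (hd a j).2; omega) h3
    rw [e3] at h4
    refine mono _ _ _ (ih _ h4) (le_of_eq ?_)
    rw [Finset.sum_insert ha]
    ring

theorem pABS (k K : Type u) [Field k] [Field K] [Algebra k K]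
    (hREG : E_REG k K) (hDELTA : E_DELTA k K) (hLIFT : E_LIFT k K) (hSTEP : E_STEP k K) :
    E_ABS k K := by
  intro hk ι κ _ _ _ g hg d C₀ hd hC
  choose a₀ ha₀ using hg
  have hf : Sec k g fun i => g i (a₀ i) := fun i => ⟨Submodule.subset_span ⟨_, rfl⟩, ha₀ i⟩
  obtain ⟨u, hu, hr⟩ := hREG hk ι κ g _ hf
  obtain ⟨n₁, h1⟩ := hDELTA ι κ g _ u hf hu hr d C₀ hd hC
  obtain ⟨n₂, h2⟩ := hSTEP ι κ g _ u hf hu hr
  refine ⟨max n₁ n₂, fun V _ _ _ _ A _ _ π e dd dp ht hdp hlt => ?_⟩
  obtain ⟨β₀, h3⟩ := hLIFT ι κ g _ hf V A π e dd ht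
  obtain ⟨β₁, h4⟩ := Finite.exists_le fun p : A × ι => (dp p.1 p.2 - dd p.1 p.2).toNat
  obtain ⟨U₀, h5, h6, h7⟩ := h3 (max β₀ β₁) (le_max_left _ _)
  obtain ⟨U, h8, h9, h10⟩ := abs_core
    (fun τ m => ∃ U ≤ Gam k g (fun i => g i (a₀ i)) e τ, FiniteDimensional k U ∧ m ≤ finrank k U)
    (fun n => finrank k (BB k g n)) dd dp n₂ (max β₀ β₁)
    (fun a => (C₀ * 2 ^ d * (∑ i, dp a i + 1) ^ (d - 1) : ℕ))
    (fun _ _ _ ⟨U, a, b, c⟩ h => ⟨U, a, b, h.trans c⟩)
    (fun τ τ' a i n' m b1 b2 b3 b4 b5 ⟨U, c1, c2, c3⟩ => ⟨U ⊓ Gam k g _ e τ', inf_le_right,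
      inferInstance, by
        have := h2 V A π e dd ht τ τ' a i n' b1 b2 b3 b4 b5 U c1 c2
        omega⟩)
    (fun a i => by exact_mod_cast h1 i (dp a) fun j => le_of_max_le_left (hdp a j).1)
    (fun a i => ⟨le_of_max_le_right (hdp a i).1, (hdp a i).2⟩)
    (fun a i => by
      have := h4 (a, i)
      have := le_max_right β₀ β₁
      simp only at *
      omega)
    Finset.univ (finrank k U₀) ⟨U₀, by simpa using h5, h6, le_rfl⟩
  have h11 : 0 < finrank k U := by
    rw [Finset.sum_sub_distrib, Finset.sum_sub_distrib] at h10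
    have e1 : ∑ a, ((∑ i, (dp a i - dd a i).toNat : ℕ) : ℤ) *
        ((C₀ * 2 ^ d * (∑ i, dp a i + 1) ^ (d - 1) : ℕ) : ℤ) = ((∑ a, C₀ * 2 ^ d *
          (∑ i, (dp a i - dd a i).toNat) * (∑ i, dp a i + 1) ^ (d - 1) : ℕ) : ℤ) := by
      rw [Nat.cast_sum]
      refine Finset.sum_congr rfl fun a _ => ?_
      rw [← Nat.cast_mul]
      congr 1
      ring
    rw [e1, ← Nat.cast_sum, ← Nat.cast_sum] at h10
    omega
  have h12 : U ≠ ⊥ := by
    rintro rfl
    simp at h11
  obtain ⟨s, hs, s0⟩ := (Submodule.ne_bot_iff U).1 h12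
  refine ⟨s, s0, fun α hα => ?_⟩
  obtain ⟨c, c1, c2⟩ := h8 hs α hα
  refine ⟨c, fun a => ?_, c2⟩
  have := c1 a
  rwa [Pi.zero_apply, mz_zero, mul_one, mem_LB_zero] at this

end Pool.Agent.P.MP_6f117a_ag.EX
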