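import Pool.Agent.P.MP_6f117a_ag.E.Iface

/-! Step DELTA of the proof of the existence of sections. -/

namespace Pool.Agent.P.MP_6f117a_ag.EX

open Module MvPolynomial

universe u

/-- The slices of the Hilbert function are monotone in large degrees. -/
theorem delta_mono {k K : Type u} [Field k] [Field K] [Algebra k K]
    (hTORS : E_TORS k K) (hSLICE : E_SLICE k K) {ι κ : Type} [Fintype ι] [DecidableEq ι]
    [Fintype κ] {g : ι → κ → K} {f u : ι → K} (hf : Sec k g f) (hu : Sec k g u)
    (hr : FReg k g f u) : ∃ n₀ : ℕ, ∀ (i : ι) (n n' : ι → ℕ), (∀ j, n₀ ≤ n j) → (∀ j, n j ≤ n' j) →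
      finrank k (BB k g n) + finrank k (BB k g (n' - Pi.single i 1)) ≤
        finrank k (BB k g (n - Pi.single i 1)) + finrank k (BB k g n') := by
  obtain ⟨n₁, h₁⟩ := hSLICE ι κ g f u hf hu hr
  have hfi : ∀ i, f i ∈ BB k g (Pi.single i 1) := fun i => by
    rw [BB_single, pow_one]; exact (hf i).1
  choose n₂ h₂ using fun i => hTORS ι κ g (Pi.single i 1) 0 (f i) 0 (hfi i) (zero_mem _)
  refine ⟨n₁ + ∑ i, n₂ i, fun i n n' hn hn' => ?_⟩
  have hi : ∀ j, n₂ i ≤ n j := fun j =>
    ((Finset.single_le_sum (f := n₂) (fun _ _ => Nat.zero_le _) (Finset.mem_univ i)).trans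
      (Nat.le_add_left _ _)).trans (hn j)
  set S : Submodule k K := (BB k g (n - Pi.single i 1)).map (LinearMap.mulLeft k (f i)) with hS
  have h3 := h₁ i (fun j => (n j : ℤ)) n' (fun j => by exact_mod_cast hn' j)
    (fun j => ((Nat.le_add_right _ _).trans (hn j)).trans (hn' j)) (BB k g n)
    (fun _ => (BB k g n).subtype) (S.comap (BB k g n).subtype)
    (fun α hα s => BB_le_LB hα n s.2)
    (fun s α β _ _ => ⟨0, by simp⟩) (fun s hs => by
      obtain ⟨y, hy, z, -, e⟩ := h₂ i n hi s s.2 fun α hα => ⟨s / f i, by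
        have e : (fun j => (n j : ℤ) - ((Pi.single i 1 : ι → ℕ) j : ℤ)) =
            (fun j => (n j : ℤ)) - Pi.single i 1 := by
          funext j
          rcases eq_or_ne j i with rfl | hj
          · simp
          · simp [hj]
        rw [e]
        exact hs α hα, 0, zero_mem _, by rw [mul_div_cancel₀ _ (hf i).2, mul_zero, add_zero]⟩
      exact ⟨y, hy, by simpa using e.symm⟩)
  have h4 : finrank k (S.comap (BB k g n).subtype) ≤ finrank k (BB k g (n - Pi.single i 1)) := by
    rw [← Submodule.finrank_map_subtype_eq]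
    exact (Submodule.finrank_mono (Submodule.map_comap_le _ _)).trans
      (Submodule.finrank_map_le _ _)
  omega

theorem pDELTA (k K : Type u) [Field k] [Field K] [Algebra k K]
    (hTORS : E_TORS k K) (hSLICE : E_SLICE k K) :
    E_DELTA k K := by
  intro ι κ _ _ _ g f u hf hu hr d C₀ hd hH
  obtain ⟨n₀, h₀⟩ := delta_mono hTORS hSLICE hf hu hr
  refine ⟨n₀, fun i n hn => ?_⟩
  have h1 : ∀ t : ℕ, t * finrank k (BB k g n) + finrank k (BB k g n) ≤
      t * finrank k (BB k g (n - Pi.single i 1)) + finrank k (BB k g (n + Pi.single i t)) := by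
    intro t
    induction t with
    | zero => rw [Pi.single_zero, add_zero n]; omega
    | succ t ih =>
      have h2 := h₀ i n (n + Pi.single i (t + 1)) hn fun j => Nat.le_add_right _ _
      have e : n + Pi.single i (t + 1) - Pi.single i 1 = n + Pi.single i t := by
        funext j
        rcases eq_or_ne j i with rfl | hj
        · simp
        · simp [hj]
      rw [e] at h2
      rw [Nat.succ_mul, Nat.succ_mul]
      omega
  obtain ⟨d, rfl⟩ := Nat.exists_eq_add_of_le' hd
  set t := ∑ j, n j + 1 with ht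
  have h3 := hH (n + Pi.single i t)
  have e : ∑ j, (n + Pi.single i t : ι → ℕ) j + 1 = 2 * t := by
    simp only [Pi.add_apply, Finset.sum_add_distrib, Finset.sum_pi_single', Finset.mem_univ,
      if_true]
    omega
  rw [e] at h3
  refine Nat.le_of_mul_le_mul_left ?_ (show 0 < t by omega)
  have e2 : C₀ * (2 * t) ^ (d + 1) = t * (C₀ * 2 ^ (d + 1) * t ^ (d + 1 - 1)) := by
    rw [Nat.add_sub_cancel, mul_pow, pow_succ t]; ring
  have := h1 t
  rw [mul_add, ← e2]
  omega

end Pool.Agent.P.MP_6f117a_ag.EX
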