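import Pool.Agent.P.MP_6f117a_ag.E.Iface

/-! Step DIML of the proof of the existence of sections. -/

namespace Pool.Agent.P.MP_6f117a_ag.EX

open Module MvPolynomial

universe u

theorem diml_prod {k K J : Type*} [Field k] [Field K] [Algebra k K] (S : Submodule k K)
    (x : J → K) (hx : ∀ j, x j ∈ S) (a : J → ℕ) (s : Finset J) :
    ∏ j ∈ s, x j ^ a j ∈ S ^ ∑ j ∈ s, a j := by
  classical
  induction s using Finset.induction_on with
  | empty => simp
  | insert i s hi ih =>
    rw [Finset.prod_insert hi, Finset.sum_insert hi, pow_add]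
    exact Submodule.mul_mem_mul (Submodule.pow_mem_pow _ (hx i) _) ih

theorem diml_indep {k K : Type*} [Field k] [Field K] [Algebra k K] {d : ℕ} {x : Fin d → K}
    (hx : AlgebraicIndependent k x) {c : K} (hc : c ≠ 0) (t : ℕ) :
    LinearIndependent k fun a : Fin d → Fin t => c * ∏ j, x j ^ (a j : ℕ) := by
  have h1 := (basisMonomials (Fin d) k).linearIndependent.map' (aeval x).toLinearMap
    (LinearMap.ker_eq_bot.2 hx)
  have h2 := (h1.comp (fun a : Fin d → Fin t =>
    (Finsupp.equivFunOnFinite.symm fun j => (a j : ℕ) : Fin d →₀ ℕ)) fun a b h => by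
      funext j
      exact Fin.ext (congrFun (Finsupp.equivFunOnFinite.symm.injective h) j)).map'
    (LinearMap.mulLeft k c) (LinearMap.ker_eq_bot.2 (mul_right_injective₀ hc))
  have e : (fun a : Fin d → Fin t => c * ∏ j, x j ^ (a j : ℕ)) = LinearMap.mulLeft k c ∘
      ((aeval x).toLinearMap ∘ basisMonomials (Fin d) k) ∘ fun a : Fin d → Fin t =>
        (Finsupp.equivFunOnFinite.symm fun j => (a j : ℕ) : Fin d →₀ ℕ) := by
    funext a
    simp [aeval_monomial, Finsupp.prod_fintype]
  rw [e]
  exact h2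

theorem diml_card {k K A : Type*} [Field k] [Field K] [Algebra k K] [Fintype A]
    (S : Submodule k K) [FiniteDimensional k S] (v : A → K) (hv : ∀ a, v a ∈ S)
    (h : LinearIndependent k v) : Fintype.card A ≤ finrank k S :=
  LinearIndependent.fintype_card_le_finrank (b := fun a => (⟨v a, hv a⟩ : S))
    (LinearIndependent.of_comp S.subtype (by exact h))

theorem pDIML (k K : Type u) [Field k] [Field K] [Algebra k K] :
    E_DIML k K := by
  classical
  intro ι κ _ _ g hg d h i hh h0 hind n
  choose α hα using hg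
  have hS : ∀ j, h j ∈ Submodule.span k (Set.range (g i)) := fun j => by
    obtain ⟨a, ha⟩ := hh j
    exact Submodule.subset_span ⟨a, ha.symm⟩
  obtain ⟨w, hw, hw0⟩ : ∃ w ∈ BB k g (n - Pi.single i (n i)), w ≠ 0 :=
    ⟨_, gz_mem_BB α _, gz_ne hα _⟩
  have hn : n - Pi.single i (n i) + Pi.single i (n i) = n := by
    funext j
    by_cases hj : j = i
    · subst hj
      simp
    · simp [hj]
  have hmem : ∀ a : Fin d → Fin (n i / d + 1),
      w * h 0 ^ n i * ∏ j, (h j.succ / h 0) ^ (a j : ℕ) ∈ BB k g n := fun a => by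
    have h1 : ∑ j, (a j : ℕ) ≤ n i := by
      refine le_trans (Finset.sum_le_card_nsmul _ _ (n i / d) fun j _ =>
        Nat.le_of_lt_succ (a j).2) ?_
      simpa using Nat.mul_div_le (n i) d
    obtain ⟨r, hr⟩ := Nat.exists_eq_add_of_le h1
    have h2 := Submodule.mul_mem_mul (diml_prod _ (fun j : Fin d => h j.succ) (fun j => hS _)
      (fun j => (a j : ℕ)) Finset.univ) (Submodule.pow_mem_pow _ (hS 0) r)
    rw [← pow_add, ← hr, ← BB_single] at h2
    have h3 := BB_mul hw h2
    rw [hn] at h3
    have e : w * h 0 ^ n i * ∏ j, (h j.succ / h 0) ^ (a j : ℕ) =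
        w * ((∏ j, h j.succ ^ (a j : ℕ)) * h 0 ^ r) := by
      have e1 : h 0 ^ n i = h 0 ^ (∑ j, (a j : ℕ)) * h 0 ^ r := by rw [← pow_add, ← hr]
      simp only [div_pow, Finset.prod_div_distrib, Finset.prod_pow_eq_pow_sum]
      rw [e1]
      field_simp
    rwa [e]
  have hli := diml_indep hind (mul_ne_zero hw0 (pow_ne_zero (n i) h0)) (n i / d + 1)
  have hle := diml_card _ _ hmem hli
  simp only [Fintype.card_pi, Fintype.card_fin, Finset.prod_const, Finset.card_univ] at hle
  refine le_trans ?_ (Nat.mul_le_mul_left _ hle)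
  rw [← mul_pow]
  rcases Nat.eq_zero_or_pos d with rfl | hd
  · simp
  · exact Nat.pow_le_pow_left (Nat.lt_mul_div_succ _ hd).le _

end Pool.Agent.P.MP_6f117a_ag.EX
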