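import Pool.Agent.P.MP_6f117a_ag.E.Iface

/-! Step DIMU of the proof of the existence of sections. -/

namespace Pool.Agent.P.MP_6f117a_ag.EX

open Module MvPolynomial

universe u

section

variable {k K : Type u} [Field k] [Field K] [Algebra k K] {d δ c c' c₀ : ℕ} {x : Fin d → K}
  {w s : K}

theorem dimu_le (x : Fin d → K) (w : K) (δ c : ℕ) : PW k x w δ c ≤ Submodule.span k (Set.range
    fun p : Fin δ × (Fin d → Fin (c + 1)) => (∏ i, x i ^ (p.2 i : ℕ)) * w ^ (p.1 : ℕ)) := by
  refine Submodule.span_mono ?_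
  rintro _ ⟨a, j, h1, h2, rfl⟩
  exact ⟨(⟨j, h2⟩, fun i => ⟨a i, Nat.lt_succ_of_le ((Finset.single_le_sum
    (fun _ _ => Nat.zero_le _) (Finset.mem_univ i)).trans h1)⟩), rfl⟩

theorem dimu_mon (a : Fin d → ℕ) (ha : ∑ i, a i + c ≤ c') (hs : s ∈ PW k x w δ c) :
    (∏ i, x i ^ a i) * s ∈ PW k x w δ c' := by
  induction hs using Submodule.span_induction with
  | mem s hs =>
    obtain ⟨b, j, h1, h2, rfl⟩ := hs
    refine Submodule.subset_span ⟨a + b, j, ?_, h2, ?_⟩
    · simp only [Pi.add_apply, Finset.sum_add_distrib]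
      omega
    · simp only [Pi.add_apply, pow_add, Finset.prod_mul_distrib, mul_assoc]
  | zero => simp
  | add _ _ _ _ h1 h2 => rw [mul_add]; exact add_mem h1 h2
  | smul r s _ h1 => rw [mul_smul_comm]; exact Submodule.smul_mem _ _ h1

theorem dimu_w (hw : w ^ δ ∈ PW k x w δ c₀) (hs : s ∈ PW k x w δ c) :
    w * s ∈ PW k x w δ (c + c₀) := by
  induction hs using Submodule.span_induction with
  | mem s hs =>
    obtain ⟨b, j, h1, h2, rfl⟩ := hs
    rw [mul_left_comm, ← pow_succ']
    rcases (Nat.succ_le_of_lt h2).lt_or_eq with h | h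
    · exact Submodule.subset_span ⟨b, j + 1, by omega, h, rfl⟩
    · rw [show j + 1 = δ from h]
      exact dimu_mon b (by omega) hw
  | zero => simp
  | add _ _ _ _ h1 h2 => rw [mul_add]; exact add_mem h1 h2
  | smul r s _ h1 => rw [mul_smul_comm]; exact Submodule.smul_mem _ _ h1

theorem dimu_pow (hw : w ^ δ ∈ PW k x w δ c₀) (hs : s ∈ PW k x w δ c) (j : ℕ) :
    w ^ j * s ∈ PW k x w δ (c + j * c₀) := by
  induction j with
  | zero => simpa using hs
  | succ j ih =>
    rw [pow_succ', mul_assoc, Nat.succ_mul, ← add_assoc]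
    exact dimu_w hw ih

theorem dimu_mul (hw : w ^ δ ∈ PW k x w δ c₀) {t : K} (ht : t ∈ PW k x w δ c')
    (hs : s ∈ PW k x w δ c) : t * s ∈ PW k x w δ (c + (c' + δ * c₀)) := by
  induction ht using Submodule.span_induction with
  | mem t ht =>
    obtain ⟨b, j, h1, h2, rfl⟩ := ht
    have := Nat.mul_le_mul_right c₀ h2.le
    rw [mul_assoc]
    exact dimu_mon b (by omega) (dimu_pow hw hs j)
  | zero => simp
  | add _ _ _ _ h1 h2 => rw [add_mul]; exact add_mem h1 h2
  | smul r s _ h1 => rw [smul_mul_assoc]; exact Submodule.smul_mem _ _ h1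

end

theorem pDIMU (k K : Type u) [Field k] [Field K] [Algebra k K] :
    E_DIMU k K := by
  intro d δ c c₀ x w Δ G hΔ hδ hw hG t
  have h1 : ∀ t : ℕ, ∀ s ∈ G ^ t, Δ ^ t * s ∈ PW k x w δ (t * (c + δ * c₀)) := by
    intro t
    induction t with
    | zero =>
      intro s hs
      rw [pow_zero, Submodule.one_eq_span, Submodule.mem_span_singleton] at hs
      obtain ⟨r, rfl⟩ := hs
      rw [pow_zero, one_mul]
      exact Submodule.smul_mem _ _ (Submodule.subset_span ⟨0, 0, by simp, hδ, by simp⟩)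
    | succ t ih =>
      intro s hs
      rw [pow_succ] at hs
      refine Submodule.mul_induction_on hs (fun a ha b hb => ?_) fun a b ha hb => ?_
      · rw [pow_succ, mul_mul_mul_comm, mul_comm (Δ ^ t * a), Nat.succ_mul]
        exact dimu_mul hw (hG b hb) (ih a ha)
      · rw [mul_add (Δ ^ (t + 1))]
        exact add_mem ha hb
  have := FiniteDimensional.span_of_finite k (Set.finite_range
    fun p : Fin δ × (Fin d → Fin (t * (c + δ * c₀) + 1)) =>
      (∏ i, x i ^ (p.2 i : ℕ)) * w ^ (p.1 : ℕ))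
  have h2 := LinearMap.finrank_le_finrank_of_injective
    (f := (LinearMap.mulLeft k (Δ ^ t)).restrict fun s hs => dimu_le x w δ _ (h1 t s hs))
    fun a b h => Subtype.ext (mul_left_cancel₀ (pow_ne_zero t hΔ) (congrArg Subtype.val h))
  refine h2.trans ((finrank_range_le_card _).trans ?_)
  rw [Fintype.card_prod, Fintype.card_fun, Fintype.card_fin, Fintype.card_fin, Fintype.card_fin,
    mul_assoc, ← mul_pow]
  exact Nat.mul_le_mul_left _ (Nat.pow_le_pow_left (by nlinarith) _)

end Pool.Agent.P.MP_6f117a_ag.EX
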