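import Pool.Agent.P.MP_6f117a_ag.E.Iface

/-! Step EXIST of the proof of the existence of sections. -/

namespace Pool.Agent.P.MP_6f117a_ag.EX

open Module MvPolynomial

universe u

theorem exist_num (p r μ e n₀ : ℕ) {n d : ℕ} (a : Fin n × Fin (d + 1) →₀ ℕ) :
    ∑ i, ((max (ddE p r μ e a i).toNat n₀ : ℕ) - ddE p r μ e a i).toNat ≤
      flu p r μ e ((d + 3) * n₀) a ∧
    ∑ i, max (ddE p r μ e a i).toNat n₀ ≤ μ + flu p r μ e ((d + 3) * n₀) a := by
  have h1 : ∑ i, (ddE p r μ e a (.inl i)).natAbs ≤ 2 * ∑ i, ((Am p a i : ℤ) - r * μ).natAbs := by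
    have h2 := Fin.sum_univ_castSucc fun i => ((Am p a i : ℤ) - r * μ).natAbs
    have h3 : ∑ i, (ddE p r μ e a (.inl i)).natAbs ≤ ∑ i, (((Am p a i : ℤ) - r * μ).natAbs +
        Fin.cases (motive := fun _ => ℕ) 0 (fun j => ((Am p a j.castSucc : ℤ) - r * μ).natAbs) i) :=
      Finset.sum_le_sum fun i _ => by
        induction i using Fin.cases <;> simp only [ddE, Fin.cases_zero, Fin.cases_succ] <;> omega
    rw [Finset.sum_add_distrib, Fin.sum_univ_succ (Fin.cases _ _)] at h3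
    simp only [Fin.cases_zero, Fin.cases_succ] at h3
    omega
  have h2 := Int.natAbs_sum_le Finset.univ fun i => (Am p a i : ℤ) - r * μ
  have h3 : ∑ i, ((max (ddE p r μ e a (.inl i)).toNat n₀ : ℕ) - ddE p r μ e a (.inl i)).toNat ≤
      ∑ i, ((ddE p r μ e a (.inl i)).natAbs + n₀) := Finset.sum_le_sum fun i _ => by omega
  have h4 : ∑ i, max (ddE p r μ e a (.inl i)).toNat n₀ ≤
      ∑ i, ((ddE p r μ e a (.inl i)).natAbs + n₀) := Finset.sum_le_sum fun i _ => by omega
  rw [Finset.sum_add_distrib, Finset.sum_const, Finset.card_univ, Fintype.card_fin,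
    smul_eq_mul] at h3 h4
  have h5 : (d + 3) * n₀ = (d + 1) * n₀ + 2 * n₀ := by ring
  have h6 : ddE p r μ e a (.inr false) = -e - ∑ i, ((Am p a i : ℤ) - r * μ) := rfl
  have h7 : ddE p r μ e a (.inr true) = μ := rfl
  simp only [Fintype.sum_sum_type, Fintype.sum_bool, flu, h6, h7]
  omega

theorem exist_BB {k K : Type u} [Field k] [Field K] [Algebra k K] {ι κ : Type} [Fintype ι]
    [Fintype κ] (g : ι → κ → K) (n : ι → ℕ) : finrank k (BB k g n) ≤ finrank k
      (Submodule.span k (Set.range (Function.uncurry g)) ^ (∑ i, n i) : Submodule k K) := by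
  have := Module.Finite.iff_fg.2
    ((Submodule.fg_span (R := k) (Set.finite_range (Function.uncurry g))).pow (∑ i, n i))
  refine Submodule.finrank_mono ?_
  rw [← Finset.prod_pow_eq_pow_sum]
  exact Finset.prod_le_prod' fun i _ => pow_le_pow_left' (Submodule.span_mono
    (by rintro _ ⟨a, rfl⟩; exact ⟨(i, a), rfl⟩)) _

theorem pEXIST (hABS : ∀ (k K : Type u) [Field k] [Field K] [Algebra k K], E_ABS k K)
    (hDIML : ∀ (k K : Type u) [Field k] [Field K] [Algebra k K], E_DIML k K)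
    (hTRI : ∀ (k K : Type u) [Field k] [Field K] [Algebra k K], E_TRI k K)
    (hNUM2 : E_NUM2) :
    E_EXIST.{u} := by
  intro d r C₀ hd hr
  obtain ⟨n, q, q0, hN⟩ := hNUM2 d r (C₀ * 2 ^ d) hd hr
  refine ⟨n, q, q0, fun k K _ _ _ hk p hp _ B _ _ E => ?_⟩
  obtain ⟨a₀, h0⟩ := E.idc
  obtain ⟨c₀, h1⟩ := E.y_ne
  have ne : ∀ i, ∃ a, gs E.J E.y E.h i a ≠ 0 := fun i => ⟨(a₀, c₀, 0), by
    rcases i with i | _ | _
    · have : (Matrix.of fun r s : Fin (d + 1) => if (s : ℕ) < i then (if r = s then 1 else 0)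
          else E.J r (a₀ s)) = 1 := by
        ext r s
        simp [h0, Matrix.one_apply]
      change Matrix.det _ ≠ 0
      rw [this, Matrix.det_one]
      exact one_ne_zero
    exacts [h1, E.h_ne]⟩
  obtain ⟨n₀, hA⟩ := hABS k K hk _ _ _ ne d C₀ hd fun n => (exist_BB _ n).trans (E.dim _)
  obtain ⟨m, μ, e, m0, m1, m2⟩ := hN p ((d + 3) * n₀) hp.out.pos
  obtain ⟨_, π, ee, t1, t2⟩ := hTRI k K p n d r C₀ B E m μ e
  obtain ⟨s, s0, s1⟩ := hA _ _ π ee _ (fun a i => max (ddE p r μ e a.1 i).toNat n₀) t1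
    (fun a i => by constructor <;> omega) (by
      refine lt_of_mul_lt_mul_left (a := d ^ d) ?_ (Nat.zero_le _)
      rw [← Finset.sum_coe_sort, ← Fintype.card_coe, ← smul_eq_mul _ (μ ^ d), ← Finset.card_univ,
        ← Finset.sum_const] at m2
      rw [Finset.mul_sum, Finset.mul_sum]
      refine (Finset.sum_le_sum fun a _ => ?_).trans_lt (m2.trans_le (Finset.sum_le_sum fun a _ => ?_))
      · have := exist_num p r μ e n₀ a.1
        gcongr
        exacts [this.1, this.2]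
      · refine le_trans (Nat.pow_le_pow_left ?_ _) (hDIML k K _ _ _ ne d E.h (.inr true)
          (fun j => ⟨(a₀, c₀, j), rfl⟩) E.h_ne E.ind _)
        exact le_max_left _ _)
  refine ⟨m, e, s, m0, m1, s0, fun α hα => ?_⟩
  obtain ⟨c, c1, rfl⟩ := s1 α hα
  rw [Finset.mul_sum]
  refine Submodule.sum_mem _ fun a _ => ?_
  rw [mul_smul_comm]
  exact Submodule.smul_mem _ (⟨c a, c1 a⟩ : RR k _ α) (t2 α hα a)

end Pool.Agent.P.MP_6f117a_ag.EX
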