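import Pool.Agent.P.MP_6f117a_ag.E.Iface

/-! Step FRAME of the proof of the existence of sections. -/

namespace Pool.Agent.P.MP_6f117a_ag.EX

open Module MvPolynomial

universe u

section
variable {K : Type u} [Field K] {D : ℕ} {B : Type}

/-- The matrix of a minor. -/
def frame_mat (J : Fin D → B → K) (i : ℕ) (a : Fin D → B) : Matrix (Fin D) (Fin D) K :=
  Matrix.of fun r s : Fin D => if (s : ℕ) < i then (if r = s then 1 else 0) else J r (a s)

theorem frame_det (J : Fin D → B → K) (i : ℕ) (a : Fin D → B) :
    (frame_mat J i a).det = minor J i a := rfl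

theorem frame_top (J : Fin D → B → K) {i : ℕ} (h : D ≤ i) (a : Fin D → B) : minor J i a = 1 := by
  have : frame_mat J i a = 1 := by
    ext r s
    simp [frame_mat, s.2.trans_le h, Matrix.one_apply]
  rw [← frame_det, this, Matrix.det_one]

theorem frame_col (J : Fin D → B → K) (i : Fin D) (a : Fin D → B) (b : B) :
    (frame_mat J (i + 1) a).cramer (fun r => J r b) i = minor J i (Function.update a i b) := by
  rw [Matrix.cramer_apply, ← frame_det]
  congr 1
  ext r s
  by_cases h : s = i
  · simp [frame_mat, h]
  · simp [frame_mat, h, le_iff_lt_or_eq, Fin.val_inj]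

theorem frame_low (J : Fin D → B → K) (i : Fin D) (a : Fin D → B) {w : Fin D → K}
    (h : ∀ r, i < r → w r = 0) :
    (frame_mat J (i + 1) a).cramer w i = minor J (i + 1) a * w i := by
  have e : (frame_mat J (i + 1) a).mulVec w = w := by
    funext r
    rw [Matrix.mulVec, dotProduct, Finset.sum_congr rfl (g := fun s => if r = s then w s else 0)]
    · simp
    · intro s _
      by_cases hs : s ≤ i
      · simp [frame_mat, hs]
      · simp [h s (not_le.1 hs)]
  conv_lhs => rw [← e, Matrix.cramer_eq_adjugate_mulVec, Matrix.mulVec_mulVec, Matrix.adjugate_mul]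
  simp [Matrix.smul_mulVec, frame_det]

theorem frame_swap (J : Fin D → B → K) {i s : Fin D} (h : i ≤ s) (a : Fin D → B) :
    ∃ z : ℤ, (frame_mat J i a).cramer (Pi.single i 1) s =
      z * minor J (i + 1) (a ∘ Equiv.swap i s) := by
  have e : (frame_mat J i a).updateCol s (Pi.single i 1) =
      (frame_mat J (i + 1) (a ∘ Equiv.swap i s)).submatrix id (Equiv.swap i s) := by
    ext r t
    by_cases h1 : t = s
    · simp [frame_mat, h1, Pi.single_apply]
    by_cases h2 : t = i
    · subst h2
      simp [frame_mat, h1, (h.lt_of_ne h1).not_ge]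
    · simp [frame_mat, h1, h2, le_iff_lt_or_eq, Fin.val_inj, Equiv.swap_apply_of_ne_of_ne h2 h1]
  exact ⟨_, by rw [Matrix.cramer_apply, e, Matrix.det_permute', frame_det]⟩

end

theorem pFRAME (k K : Type u) [Field k] [Field K] [Algebra k K] :
    E_FRAME k K := by
  intro R D B _ J a h0 hR
  have g1 : ∀ i : Fin D, mi J a i = minor J i (a i) := fun i => dif_pos i.2
  have g2 : ∀ i : ℕ, mi J a i ≠ 0 ∧ ∀ a', minor J i a' / mi J a i ∈ R := fun i => by
    by_cases h : i < D
    · rw [mi, dif_pos h]
      exact ⟨h0 ⟨i, h⟩, hR ⟨i, h⟩⟩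
    · rw [mi, dif_neg h]
      exact ⟨one_ne_zero, fun a' => by simp [frame_top J (not_lt.1 h)]⟩
  have g3 : ∀ i : Fin D, ∃ a', minor J (i + 1) a' = mi J a (i + 1) := fun i => by
    by_cases h : (i : ℕ) + 1 < D
    · exact ⟨a ⟨_, h⟩, by rw [mi, dif_pos h]⟩
    · exact ⟨a i, by rw [mi, dif_neg h, frame_top J (not_lt.1 h)]⟩
  set M : Submodule R (Fin D → K) := Submodule.span R (Set.range fun b r => J r b) with hM
  have c2 : ∀ i : Fin D, ∃ ω ∈ M, (∀ r, i < r → ω r = 0) ∧ ω i = mi J a i / mi J a (i + 1) := by
    intro i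
    set x := (frame_mat J i (a i)).cramer (Pi.single i 1) with hx
    have e : ∀ r, i ≤ r → (∑ s : Fin D, if (s : ℕ) < i then (0 : Fin D → K) else
        (x s / mi J a (i + 1)) • fun r => J r (a i s)) r =
          mi J a i * (Pi.single i 1 : Fin D → K) r / mi J a (i + 1) := fun r hr => by
      have := congrFun (Matrix.mulVec_cramer (frame_mat J i (a i)) (Pi.single i 1)) r
      rw [frame_det, ← g1, Pi.smul_apply, smul_eq_mul, ← hx] at this
      rw [← this, Matrix.mulVec, dotProduct, Finset.sum_div, Finset.sum_apply]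
      refine Finset.sum_congr rfl fun s _ => ?_
      by_cases hs : (s : ℕ) < i
      · have : r ≠ s := by
          rintro rfl
          exact absurd hs (not_lt.2 hr)
        simp only [frame_mat, hs, this, if_true, if_false, Matrix.of_apply, zero_mul, zero_div,
          Pi.zero_apply]
      · simp only [frame_mat, hs, if_false, Pi.smul_apply, smul_eq_mul, Matrix.of_apply]
        ring
    refine ⟨_, sum_mem fun s _ => ?_, fun r hr => (e r hr.le).trans (by simp [hr.ne']),
      (e i le_rfl).trans (by simp)⟩
    split_ifs with hs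
    · exact zero_mem _
    · obtain ⟨z, hz⟩ := frame_swap J (i := i) (s := s) (not_lt.1 hs) (a i)
      have : x s / mi J a (i + 1) ∈ R := by
        rw [hx, hz, mul_div_assoc]
        exact mul_mem (intCast_mem R z) ((g2 _).2 _)
      exact M.smul_mem ⟨_, this⟩ (Submodule.subset_span ⟨_, rfl⟩)
  choose ω m1 m2 m3 using c2
  have c1 : ∀ j ≤ D, ∀ w ∈ M, (∀ r : Fin D, j ≤ r → w r = 0) →
      w ∈ Submodule.span R (Set.range ω) := by
    intro j
    induction j with
    | zero =>
      intro _ w _ h
      rw [show w = 0 from funext fun r => h r (Nat.zero_le _)]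
      exact zero_mem _
    | succ j ih =>
      intro hj w hw h
      obtain ⟨i, rfl⟩ : ∃ i : Fin D, (i : ℕ) = j := ⟨⟨j, hj⟩, rfl⟩
      obtain ⟨a', ha'⟩ := g3 i
      have h1 : (frame_mat J (i + 1) a').cramer w i / mi J a i ∈ R := by
        clear h
        induction hw using Submodule.span_induction with
        | zero => simp
        | add x y _ _ hx hy =>
          rw [map_add, Pi.add_apply, add_div]
          exact add_mem hx hy
        | smul c x _ hx =>
          rw [Subalgebra.smul_def, map_smul, Pi.smul_apply, smul_eq_mul, mul_div_assoc]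
          exact mul_mem c.2 hx
        | mem x hx =>
          obtain ⟨b, rfl⟩ := hx
          rw [frame_col]
          exact (g2 _).2 _
      rw [frame_low J i a' fun r hr => h r hr, ha'] at h1
      have h2 := ih (Nat.le_of_succ_le hj) (w - (⟨_, h1⟩ : R) • ω i)
        (sub_mem hw (M.smul_mem _ (m1 i))) fun r hr => by
          rw [Subalgebra.smul_def, Pi.sub_apply, Pi.smul_apply, smul_eq_mul]
          rcases hr.eq_or_lt with e | e
          · have := (g2 i).1
            have := (g2 (i + 1)).1
            rw [← Fin.ext e, m3]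
            field_simp
            ring
          · rw [h r e, m2 i r e, mul_zero, sub_zero]
      exact (sub_add_cancel w _) ▸
        add_mem h2 (Submodule.smul_mem _ _ (Submodule.subset_span ⟨i, rfl⟩))
  choose G hG using fun i => (Submodule.mem_span_range_iff_exists_fun R).1 (m1 i)
  choose H hH using fun b => (Submodule.mem_span_range_iff_exists_fun R).1
    (c1 D le_rfl _ (Submodule.subset_span ⟨b, rfl⟩) fun r hr => absurd r.2 (not_lt.2 hr))
  have e : ∀ i r, ∑ b, (G i b : K) * J r b = ω i r := fun i r => by
    rw [← hG i, Finset.sum_apply]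
    rfl
  refine ⟨fun i b => G i b, fun b i => H b i, fun i b => (G i b).2, fun b i => (H b i).2,
    fun i r h => (e i r).trans (m2 i r h), fun i => (e i i).trans (m3 i), fun b r => ?_⟩
  simp only [e]
  exact (congrFun (hH b) r).symm.trans (Finset.sum_apply _ _ _)

end Pool.Agent.P.MP_6f117a_ag.EX
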