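import Pool.Agent.P.MP_6f117a_ag.E.Iface

/-! Step GEO of the proof of the existence of sections. -/

namespace Pool.Agent.P.MP_6f117a_ag.EX

open Module MvPolynomial

universe u

theorem geo_fin (n : ℕ) (x : Fin n → ℝ) (h0 : ∀ s, 0 ≤ x s) (h1 : ∀ s, x s < 1) :
    HasSum (fun j : Fin n → ℕ => ∏ s, x s ^ j s) (∏ s, (1 - x s)⁻¹) := by
  induction n with
  | zero => simp
  | succ n ih =>
    have h2 := hasSum_geometric_of_lt_one (h0 0) (h1 0)
    have h3 := ih (fun s => x s.succ) (fun s => h0 _) fun s => h1 _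
    have h4 := h2.mul h3 (h2.summable.mul_of_nonneg h3.summable (fun _ => pow_nonneg (h0 _) _)
      fun _ => Finset.prod_nonneg fun _ _ => pow_nonneg (h0 _) _)
    rw [← (Fin.consEquiv fun _ => ℕ).hasSum_iff, Fin.prod_univ_succ]
    refine h4.congr_fun fun j => ?_
    simp [Fin.prod_univ_succ, Fin.consEquiv]

theorem pGEO : E_GEO := by
  intro S _ x h0 h1
  have e := (Fintype.equivFin S).symm
  have h := geo_fin _ (fun s => x (e s)) (fun s => h0 _) fun s => h1 _
  rw [e.prod_comp fun s => (1 - x s)⁻¹] at h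
  rw [← (e.arrowCongr (Equiv.refl ℕ)).hasSum_iff]
  refine h.congr_fun fun j => ?_
  rw [Function.comp_apply, ← e.prod_comp]
  simp

end Pool.Agent.P.MP_6f117a_ag.EX
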