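import Pool.Agent.P.MP_6f117a_ag.E.Iface

/-! Step LIFT of the proof of the existence of sections. -/

namespace Pool.Agent.P.MP_6f117a_ag.EX

open Module MvPolynomial

universe u

theorem lift_dim {k K V : Type u} [Field k] [Field K] [Algebra k K] [AddCommGroup V] [Module K V]
    [Module k V] [IsScalarTower k K V] {A : Type} [Fintype A] [LinearOrder A]
    (π : A → V →ₗ[K] K) (W : A → Submodule k K) [∀ a, FiniteDimensional k (W a)]
    (G : Submodule k V) {F : K} (hF : F ≠ 0)
    (h : ∀ a, ∀ b ∈ W a, ∃ s ∈ G, π a s = b / F ∧ ∀ a', a < a' → π a' s = 0) :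
    ∃ U ≤ G, FiniteDimensional k U ∧ ∑ a, finrank k (W a) ≤ finrank k U := by
  choose s h1 h2 h3 using fun p : Σ a, Fin (finrank k (W a)) =>
    h p.1 _ (finBasis k (W p.1) p.2).2
  refine ⟨Submodule.span k (Set.range s), Submodule.span_le.2 (Set.range_subset_iff.2 h1),
    FiniteDimensional.span_of_finite k (Set.finite_range s), ?_⟩
  refine le_of_eq (Eq.trans (by simp) (finrank_span_eq_card
    (Fintype.linearIndependent_iff.2 fun c hc ⟨a, j⟩ => ?_)).symm)
  induction a using WellFoundedGT.induction with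
  | ind a ih =>
    have := congrArg (π a) hc
    rw [map_sum, map_zero, Fintype.sum_sigma, Finset.sum_eq_single a
      (fun a' _ ha => Finset.sum_eq_zero fun i _ => ?_) (by simp)] at this
    · refine Fintype.linearIndependent_iff.1 (finBasis k (W a)).linearIndependent
        (fun i => c ⟨a, i⟩) (Subtype.ext ((div_eq_zero_iff.1 ?_).resolve_right hF)) j
      rw [← this, Submodule.coe_sum, Finset.sum_div]
      refine Finset.sum_congr rfl fun i _ => ?_
      rw [LinearMap.map_smul_of_tower, h2 ⟨a, i⟩, Submodule.coe_smul, smul_div_assoc]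
    · rcases ha.lt_or_gt with b | b
      · rw [LinearMap.map_smul_of_tower, h3 ⟨a', i⟩ a b, smul_zero]
      · rw [ih a' b i, zero_smul, map_zero]

theorem pLIFT (k K : Type u) [Field k] [Field K] [Algebra k K]
    (hPIG : E_PIG k K) :
    E_LIFT k K := by
  intro ι κ _ _ _ g f hf V _ _ _ _ A _ _ π e dd hT
  have hf0 := fun i => (hf i).2
  obtain ⟨M, hM⟩ : ∃ M : ℕ, ∀ α γ, Val g α → Val g γ → ∀ a, ∃ c : A → K,
      (∀ a', c a' ∈ RR k g γ) ∧ tr g α γ ^ M • e α a = ∑ a', c a' • e γ a' := by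
    choose! m c h1 h2 using hT.glue
    refine ⟨∑ p : (ι → κ) × (ι → κ) × A, m p.1 p.2.1 p.2.2, fun α γ hα hγ a => ?_⟩
    obtain ⟨t, ht⟩ := Nat.exists_eq_add_of_le' (Finset.single_le_sum
      (f := fun p : (ι → κ) × (ι → κ) × A => m p.1 p.2.1 p.2.2) (fun _ _ => Nat.zero_le _)
      (Finset.mem_univ (α, γ, a)))
    refine ⟨fun a' => tr g α γ ^ t * c α γ a a', fun a' =>
      mul_mem (pow_mem (tr_mem _ _) _) (h1 α γ hα hγ a a'), ?_⟩
    rw [ht, pow_add, mul_smul, h2 α γ hα hγ, Finset.smul_sum]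
    simp only [mul_smul]
  obtain ⟨D, hD⟩ : ∃ D : ℕ, ∀ a i, (dd a i).natAbs ≤ D :=
    ⟨∑ p : A × ι, (dd p.1 p.2).natAbs, fun a i => Finset.single_le_sum
      (f := fun p : A × ι => (dd p.1 p.2).natAbs) (fun _ _ => Nat.zero_le _)
      (Finset.mem_univ (a, i))⟩
  obtain ⟨N, hN⟩ : ∃ N, N = M + D + 1 := ⟨_, rfl⟩
  refine ⟨Fintype.card κ * N + N + D, fun β hβ =>
    lift_dim π _ _ (mz_ne hf0 fun _ => β) fun a b hb => ?_⟩
  obtain ⟨x, x1, x2, rfl⟩ := hPIG ι κ g N _ (by omega) (fun i => by have := hD a i; omega) b hb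
  refine ⟨∑ α, (x α * gz g α ((fun _ => (N : ℤ)) - dd a) / mz f fun _ => β) • e α a,
    Submodule.sum_mem _ fun α _ => ?_, ?_, fun a' ha => ?_⟩
  · by_cases hα : Val g α
    swap
    · simp [x2 α hα]
    intro γ hγ
    obtain ⟨c, c1, c2⟩ := hM α γ hα hγ a
    have t0 := pow_ne_zero M (tr_ne hα hγ)
    refine ⟨fun a' => (x α * gz g α ((fun _ => (N : ℤ)) - dd a) / mz f fun _ => β) / tr g α γ ^ M * c a',
      fun a' => ?_, ?_⟩
    · have := RR_mul_LB (c1 a') (LB_mul hγ (LB_mul hγ (BB_le_LB hγ _ (x1 α))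
        (BB_le_LB hγ _ (gz_mem_BB α fun i => (N - dd a i - M).toNat))) (gz_mem_LB hγ fun _ => M))
      have e1 : (fun i => (((N - dd a i - M).toNat : ℕ) : ℤ)) =
          (fun _ => (N : ℤ)) - dd a - fun _ => (M : ℤ) := funext fun i => by
        have := hD a i
        simp only [Pi.sub_apply]
        omega
      have e2 : (fun i => ((((fun i => (dd a i + β).toNat) - fun _ => N : ι → ℕ) i : ℕ) : ℤ)) +
          ((fun _ => (N : ℤ)) - dd a - fun _ => (M : ℤ)) + (fun _ => (M : ℤ)) =
          fun _ => (β : ℤ) := funext fun i => by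
        have := hD a i
        simp only [Pi.sub_apply, Pi.add_apply]
        omega
      rw [e1, e2, gz_sub hα] at this
      refine (congrArg (· ∈ _) ?_).mp this
      have := mz_ne hf0 fun _ => β
      have := gz_ne hα fun _ => M
      rw [tr_pow]
      field_simp
    · simp only [mul_smul]
      rw [← Finset.smul_sum, ← c2, smul_smul, div_mul_cancel₀ _ t0]
  · rw [map_sum, Finset.sum_div]
    refine Finset.sum_congr rfl fun α _ => ?_
    by_cases hα : Val g α
    · have := gz_ne hα (dd a)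
      rw [map_smul, hT.diag α hα, gz_sub hα, smul_eq_mul]
      field_simp
    · simp [x2 α hα]
  · rw [map_sum]
    refine Finset.sum_eq_zero fun α _ => ?_
    by_cases hα : Val g α
    · rw [map_smul, hT.tri α hα a a' ha, smul_zero]
    · simp [x2 α hα]

end Pool.Agent.P.MP_6f117a_ag.EX
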