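import Pool.Agent.P.MP_6f117a_ag.E.Iface

/-! Step NUM1 of the proof of the existence of sections. -/

namespace Pool.Agent.P.MP_6f117a_ag.EX

open Module MvPolynomial

universe u

theorem num1_tilt (hG : E_GEO) {S : Type} [Fintype S] {w : S → ℝ} (hw : ∀ s, 0 < w s) {θ : ℝ}
    (hθ : 0 < θ) {l : S → ℝ} (hl : ∀ s, |l s| ≤ 1 / 2) :
    HasSum (fun j : S → ℕ => Real.exp (-(∑ s, w s * j s) / θ) *
      Real.exp ((∑ s, l s * (w s * j s)) / θ)) (ZZ w l θ) := by
  have h := hG S (fun s => Real.exp (-(w s / θ * (1 - l s)))) (fun s => (Real.exp_pos _).le)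
    fun s => by
      have h1 := (abs_le.1 (hl s)).2
      have h2 : 0 < w s / θ * (1 - l s) := mul_pos (div_pos (hw s) hθ) (by linarith)
      exact Real.exp_lt_one_iff.2 (by linarith)
  have e : (fun j : S → ℕ => Real.exp (-(∑ s, w s * j s) / θ) *
      Real.exp ((∑ s, l s * (w s * j s)) / θ)) =
      fun j : S → ℕ => ∏ s, Real.exp (-(w s / θ * (1 - l s))) ^ j s := by
    funext j
    simp only [← Real.exp_nat_mul]
    rw [← Real.exp_sum, ← Real.exp_add, neg_div, Finset.sum_div, Finset.sum_div,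
      ← Finset.sum_neg_distrib, ← Finset.sum_add_distrib]
    congr 1
    exact Finset.sum_congr rfl fun s _ => by ring
  rw [e]
  exact h

theorem num1_abs (d : ℕ) {θ : ℝ} (hθ : 0 < θ) (x : ℝ) :
    |x| ^ d ≤ d.factorial * (2 * θ) ^ d * (Real.exp (x / 2 / θ) + Real.exp (-(x / 2) / θ)) := by
  have h1 := Real.pow_div_factorial_le_exp (|x| / (2 * θ)) (by positivity) d
  have h2 : Real.exp (|x| / (2 * θ)) ≤ Real.exp (x / 2 / θ) + Real.exp (-(x / 2) / θ) := by
    rcases abs_choice x with h | h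
    · rw [h, ← div_div]; linarith [Real.exp_pos (-(x / 2) / θ)]
    · rw [h, ← div_div, neg_div]; linarith [Real.exp_pos (x / 2 / θ)]
  have h3 := h1.trans h2
  rw [div_pow, div_div, div_le_iff₀ (by positivity)] at h3
  linarith

theorem num1_geom {N : ℕ} (hN : 24 ≤ N) : Real.exp (N / 4) * (2 * (2 / 3) ^ N) ≤ 1 / 2 := by
  have h1 : Real.exp (1 / 4) ≤ 4 / 3 :=
    (Real.exp_bound_div_one_sub_of_interval (by norm_num) (by norm_num)).trans (by norm_num)
  have h2 : Real.exp (N / 4) ≤ (4 / 3) ^ N := by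
    rw [div_eq_mul_one_div, Real.exp_nat_mul]
    exact pow_le_pow_left₀ (Real.exp_pos _).le h1 N
  have h3 : (1 : ℝ) + N * (1 / 8) ≤ (1 + 1 / 8) ^ N := one_add_mul_le_pow (by norm_num) N
  have h4 : (24 : ℝ) ≤ N := by exact_mod_cast hN
  have h5 : ((4 : ℝ) / 3) ^ N * (2 / 3) ^ N * (1 + 1 / 8) ^ N = 1 := by
    rw [← mul_pow, ← mul_pow]; norm_num
  have h6 : (0 : ℝ) ≤ (4 / 3) ^ N * (2 / 3) ^ N := by positivity
  have h7 : ((4 : ℝ) / 3) ^ N * (2 / 3) ^ N * 4 ≤ 1 := by
    rw [← h5]; exact mul_le_mul_of_nonneg_left (by linarith) h6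
  have h8 : Real.exp (N / 4) * (2 / 3) ^ N ≤ (4 / 3) ^ N * (2 / 3) ^ N :=
    mul_le_mul_of_nonneg_right h2 (by positivity)
  linarith

theorem num1_abstract (hG : E_GEO) (hT : E_TILT) {S : Type} [Fintype S] {w : S → ℝ}
    (hw : ∀ s, 0 < w s) {d D : ℕ} {c : Fin D → S → ℝ} (h0 : ∀ i, ∑ s, c i s = 0)
    (h1 : ∀ i s, |c i s| ≤ 1) (h2 : ∀ i, ∑ s, c i s ^ 2 ≤ 2) (hN : 24 ≤ Fintype.card S) {E : ℝ}
    (hE : 0 ≤ E) (hC : D * (d.factorial * 2 ^ d * (4 * Real.exp 1)) <
      E * (Fintype.card S / 2) ^ d / 2) (m₀ : ℝ) :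
    ∃ (θ tot : ℝ) (G : (S → ℕ) → ℝ), HasSum G tot ∧ tot < 0 ∧ ∀ j : S → ℕ,
      Real.exp (-(∑ s, w s * j s) / θ) * (∑ i, |∑ s, c i s * (w s * j s)| ^ d -
        E * if ∑ s, w s * j s < m₀ then 0 else (∑ s, w s * j s) ^ d) ≤ G j := by
  obtain ⟨θ₀, hθ₀, hθ⟩ := hT S w hw
  set N := Fintype.card S with hNd
  have hN' : (24 : ℝ) ≤ N := by exact_mod_cast hN
  obtain ⟨θ, hθ1, hθ2⟩ : ∃ θ, θ₀ ≤ θ ∧ m₀ ≤ θ := ⟨max θ₀ m₀, le_max_left _ _, le_max_right _ _⟩
  have hp : 0 < θ := hθ₀.trans_le hθ1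
  replace hθ := hθ θ hθ1
  have hZ : 0 < ZZ w 0 θ := Finset.prod_pos fun s _ => inv_pos.2 (sub_pos.2 (Real.exp_lt_one_iff.2 (by
    have := div_pos (hw s) hp
    simp only [Pi.zero_apply, sub_zero, mul_one]; linarith)))
  have hb : ∀ l : S → ℝ, (∀ s, |l s| ≤ 1 / 2) → ∑ s, l s = 0 → ∑ s, l s ^ 2 ≤ 1 / 2 →
      ZZ w l θ ≤ 2 * Real.exp 1 * ZZ w 0 θ := fun l a1 a2 a3 => by
    obtain ⟨b1, b2⟩ := hθ l a1
    have b3 : Real.exp (∑ s, l s + 2 * ∑ s, l s ^ 2) ≤ Real.exp 1 :=
      Real.exp_le_exp.2 (by linarith)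
    exact b1.trans (by gcongr; exact b2.trans b3)
  have hl1 : ∀ i s, |c i s / 2| ≤ 1 / 2 := fun i s => by
    rw [abs_div, abs_two]; linarith [h1 i s]
  have hl2 : ∀ i s, |-(c i s / 2)| ≤ 1 / 2 := fun i s => by rw [abs_neg]; exact hl1 i s
  have hl3 : ∀ _s : S, |-(1 / 2 : ℝ)| ≤ 1 / 2 := fun _ => by rw [abs_neg]; norm_num
  have hq : ∀ i, ∑ s, (c i s / 2) ^ 2 ≤ 1 / 2 := fun i => by
    simp only [div_pow, ← Finset.sum_div]; linarith [h2 i]
  have s0 := num1_tilt hG hw hp (l := 0) (by simp)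
  have s1 := fun i => num1_tilt hG hw hp (hl1 i)
  have s2 := fun i => num1_tilt hG hw hp (hl2 i)
  have s3 := num1_tilt hG hw hp hl3
  have t1 := fun i => hb _ (hl1 i) (by rw [← Finset.sum_div, h0, zero_div]) (hq i)
  have t2 := fun i => hb _ (hl2 i)
    (by rw [Finset.sum_neg_distrib, ← Finset.sum_div, h0, zero_div, neg_zero])
    (by simpa only [neg_sq] using hq i)
  have t3 : ZZ w (fun _ => -(1 / 2)) θ ≤ 2 * (2 / 3) ^ N * ZZ w 0 θ := by
    have := (hθ _ hl3).1
    rw [Finset.prod_const, Finset.card_univ] at this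
    norm_num at this ⊢
    exact this
  have hs := (((hasSum_sum (s := Finset.univ) fun i _ => (s1 i).add (s2 i)).mul_left
    (d.factorial * (2 * θ) ^ d)).sub (s0.mul_left (E * (θ * N / 2) ^ d))).add
    (s3.mul_left (E * (θ * N / 2) ^ d * Real.exp (N / 4)))
  refine ⟨θ, _, _, hs, ?_, fun j => ?_⟩
  · have a1 : ∑ i, (ZZ w (fun s => c i s / 2) θ + ZZ w (fun s => -(c i s / 2)) θ) ≤
        D * (4 * Real.exp 1 * ZZ w 0 θ) := by
      refine (Finset.sum_le_sum fun i _ => add_le_add (t1 i) (t2 i)).trans_eq ?_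
      rw [Finset.sum_const, Finset.card_univ, Fintype.card_fin, nsmul_eq_mul]; ring
    have a2 : Real.exp (N / 4) * ZZ w (fun _ => -(1 / 2)) θ ≤ 1 / 2 * ZZ w 0 θ :=
      (mul_le_mul_of_nonneg_left t3 (Real.exp_pos _).le).trans (by
        rw [← mul_assoc]; exact mul_le_mul_of_nonneg_right (num1_geom hN) hZ.le)
    have a3 := mul_le_mul_of_nonneg_left a1
      (show (0 : ℝ) ≤ d.factorial * (2 * θ) ^ d by positivity)
    have a4 := mul_le_mul_of_nonneg_left a2 (show (0 : ℝ) ≤ E * (θ * N / 2) ^ d by positivity)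
    have a5 := mul_lt_mul_of_pos_left hC (show 0 < θ ^ d * ZZ w 0 θ by positivity)
    have e1 : (θ * N / 2) ^ d = θ ^ d * (N / 2) ^ d := by rw [mul_div_assoc, mul_pow]
    rw [e1] at a4 ⊢
    rw [mul_pow] at a3 ⊢
    linarith
  · set M : ℝ := ∑ s, w s * j s with hM
    have hM0 : 0 ≤ M := Finset.sum_nonneg fun s _ => mul_nonneg (hw s).le (Nat.cast_nonneg _)
    have e1 : ∀ i, ∑ s, c i s / 2 * (w s * j s) = (∑ s, c i s * (w s * j s)) / 2 := fun i => by
      rw [Finset.sum_div]; exact Finset.sum_congr rfl fun s _ => by ring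
    have e2 : ∀ i, ∑ s, -(c i s / 2) * (w s * j s) = -((∑ s, c i s * (w s * j s)) / 2) :=
      fun i => by
        rw [← e1, ← Finset.sum_neg_distrib]; exact Finset.sum_congr rfl fun s _ => by ring
    have e3 : ∑ s, -(1 / 2 : ℝ) * (w s * j s) = -(1 / 2) * M := by rw [hM, Finset.mul_sum]
    simp only [e1, e2, e3, Pi.zero_apply, zero_mul, Finset.sum_const_zero, zero_div, Real.exp_zero,
      ← mul_add, ← Finset.mul_sum]
    have a1 : ∑ i, |∑ s, c i s * (w s * j s)| ^ d ≤ d.factorial * (2 * θ) ^ d *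
        ∑ i, (Real.exp ((∑ s, c i s * (w s * j s)) / 2 / θ) +
          Real.exp (-((∑ s, c i s * (w s * j s)) / 2) / θ)) := by
      rw [Finset.mul_sum]
      exact Finset.sum_le_sum fun i _ => num1_abs d hp _
    have a2 : (θ * N / 2) ^ d * (1 - Real.exp (N / 4) * Real.exp (-(1 / 2) * M / θ)) ≤
        if M < m₀ then 0 else M ^ d := by
      by_cases hc : M ≤ θ * N / 2
      · have : 1 ≤ Real.exp (N / 4) * Real.exp (-(1 / 2) * M / θ) := by
          rw [← Real.exp_add]
          refine Real.one_le_exp ?_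
          have : M / θ ≤ N / 2 := by rw [div_le_iff₀ hp]; linarith
          rw [mul_div_assoc]; linarith
        refine le_trans (mul_nonpos_of_nonneg_of_nonpos (by positivity) (by linarith)) ?_
        split_ifs
        · exact le_rfl
        · positivity
      · rw [if_neg (by nlinarith)]
        refine le_trans (mul_le_of_le_one_right (by positivity) (sub_le_self _ (by positivity))) ?_
        exact pow_le_pow_left₀ (by positivity) (not_le.1 hc).le d
    have a3 := mul_le_mul_of_nonneg_left (sub_le_sub a1 (mul_le_mul_of_nonneg_left a2 hE))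
      (Real.exp_pos (-M / θ)).le
    refine a3.trans_eq ?_
    ring

/-- The weights with a slack variable. -/
def num1_w (p n D : ℕ) : Option (Fin n × Fin D) → ℕ := fun s => s.elim 1 (lw p n (Fin D))

/-- The coefficients of the linear form `Am`. -/
noncomputable def num1_b {n D : ℕ} (i : Fin D) : Option (Fin n × Fin D) → ℝ :=
  fun s => s.elim 0 fun v => if v.2 = i then 1 / ((v.1 : ℕ) + 1) else 0

/-- The exponent vector with slack. -/
noncomputable def num1_emb (p n D m : ℕ) (a : Fin n × Fin D →₀ ℕ) : Option (Fin n × Fin D) → ℕ :=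
  fun s => s.elim (m - Finsupp.weight (lw p n (Fin D)) a) a

theorem num1_sum_b {n D : ℕ} (i : Fin D) (f : Option (Fin n × Fin D) → ℝ) :
    ∑ s, num1_b i s * f s = ∑ l : Fin n, 1 / ((l : ℕ) + 1) * f (some (l, i)) := by
  simp [num1_b, Fintype.sum_option, Fintype.sum_prod_type]

theorem num1_fibre {p : ℕ} (hp : 0 < p) (n D m : ℕ) [DecidableEq (Option (Fin n × Fin D) → ℕ)] :
    (fun j : Option (Fin n × Fin D) → ℕ => ∑ s, num1_w p n D s * j s) ⁻¹' {m} =
      ((AA p n D m).image (num1_emb p n D m) : Finset _) := by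
  ext j
  simp only [Set.mem_preimage, Set.mem_singleton_iff, Finset.coe_image, Set.mem_image,
    Finset.mem_coe, mem_AA hp, Fintype.sum_option, num1_w, Option.elim, one_mul]
  constructor
  · intro h
    have e : Finsupp.weight (lw p n (Fin D)) (Finsupp.equivFunOnFinite.symm fun v => j (some v)) =
        ∑ v, lw p n (Fin D) v * j (some v) := by
      rw [weight_lw]; exact Finset.sum_congr rfl fun v _ => mul_comm _ _
    refine ⟨Finsupp.equivFunOnFinite.symm fun v => j (some v), by omega, ?_⟩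
    funext s
    cases s with
    | none => simp only [num1_emb, Option.elim]; omega
    | some v => rfl
  · rintro ⟨a, h, rfl⟩
    have e : Finsupp.weight (lw p n (Fin D)) a = ∑ v, lw p n (Fin D) v * a v := by
      rw [weight_lw]; exact Finset.sum_congr rfl fun v _ => mul_comm _ _
    simp only [num1_emb, Option.elim]; omega

theorem pNUM1 (hGEO : E_GEO) (hTILT : E_TILT) : E_NUM1 := by
  classical
  intro d D η hd hD hη
  set C : ℝ := D * (d.factorial * 2 ^ d * (4 * Real.exp 1)) with hC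
  obtain ⟨n, hn⟩ := (Real.tendsto_sum_range_one_div_nat_succ_atTop.eventually_gt_atTop
    (max 24 (4 * C / η))).exists
  rw [← Fin.sum_univ_eq_sum_range (fun i : ℕ => (1 / (i + 1) : ℝ)), max_lt_iff] at hn
  set H : ℝ := ∑ l : Fin n, 1 / ((l : ℕ) + 1) with hH
  have hHn : H ≤ n := by
    refine (Finset.sum_le_card_nsmul _ _ 1 fun l _ => ?_).trans (by simp)
    rw [div_le_one (by positivity)]; linarith [Nat.cast_nonneg (α := ℝ) l]
  set N := Fintype.card (Option (Fin n × Fin D)) with hN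
  have hnN : (n : ℝ) ≤ N := by
    have : n ≤ N := by
      rw [hN, Fintype.card_option, Fintype.card_prod, Fintype.card_fin, Fintype.card_fin]
      nlinarith
    exact_mod_cast this
  have hN0 : (0 : ℝ) < N := by linarith [hn.1]
  have hκ : 0 < H / N := div_pos (by linarith [hn.1]) hN0
  have hκ1 : H / N ≤ 1 := by rw [div_le_one hN0]; linarith
  have hb : ∀ i : Fin D, ∑ s : Option (Fin n × Fin D), num1_b i s = H := fun i => by
    simpa only [mul_one] using num1_sum_b i fun _ : Option (Fin n × Fin D) => 1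
  refine ⟨n, H / N, hκ, fun p m₀ hp => ?_⟩
  obtain ⟨θ, tot, G, h1, h2, h3⟩ := num1_abstract hGEO hTILT
    (w := fun s => (num1_w p n D s : ℝ)) (d := d) (c := fun i s => num1_b i s - H / N)
    (E := η * (H / N) ^ d) (fun s => by
      cases s <;> simp only [num1_w, Option.elim, lw] <;> positivity)
    (fun i => by
      rw [Finset.sum_sub_distrib, hb, Finset.sum_const, Finset.card_univ, nsmul_eq_mul,
        mul_div_cancel₀ _ hN0.ne', sub_self])
    (fun i s => by
      have : 0 ≤ num1_b i s ∧ num1_b i s ≤ 1 := by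
        cases s with
        | none => simp [num1_b]
        | some v =>
          simp only [num1_b, Option.elim]
          split_ifs
          · refine ⟨by positivity, ?_⟩
            rw [div_le_one (by positivity)]; linarith [Nat.cast_nonneg (α := ℝ) v.1]
          · simp
      rw [abs_le]; constructor <;> linarith [this.1, this.2])
    (fun i => by
      have e1 : ∑ s : Option (Fin n × Fin D), num1_b i s * num1_b i s ≤ 2 := by
        rw [num1_sum_b]
        have := sum_Ioo_inv_sq_le (α := ℝ) 0 (n + 1)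
        rw [show Finset.Ioo 0 (n + 1) = Finset.Ico 1 (n + 1) from rfl,
          Finset.sum_Ico_eq_sum_range, Nat.add_sub_cancel,
          ← Fin.sum_univ_eq_sum_range fun i : ℕ => (((1 + i : ℕ) : ℝ) ^ 2)⁻¹] at this
        refine le_trans (le_of_eq (Finset.sum_congr rfl fun l _ => ?_)) (this.trans (by simp))
        simp [num1_b, sq, add_comm]
      have e2 : ∑ s : Option (Fin n × Fin D), (num1_b i s - H / N) ^ 2 =
          ∑ s : Option (Fin n × Fin D), num1_b i s * num1_b i s - 2 * (H / N) * H +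
            N * (H / N) ^ 2 := by
        simp only [sub_sq]
        rw [Finset.sum_add_distrib, Finset.sum_sub_distrib, ← Finset.sum_mul, ← Finset.mul_sum, hb,
          Finset.sum_const, Finset.card_univ, nsmul_eq_mul]
        simp only [sq]; ring
      have e3 : N * (H / N) ^ 2 = H / N * H := by field_simp
      have e4 : 0 ≤ H / N * H := mul_nonneg hκ.le (by linarith [hn.1])
      linarith)
    (by have : (24 : ℝ) ≤ N := by linarith [hn.1]
        exact_mod_cast this) (by positivity)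
    (by
      have e1 : η * (H / N) ^ d * (N / 2) ^ d = η * (H / 2) ^ d := by
        rw [mul_assoc, ← mul_pow]; congr 2; field_simp
      have e2 : H / 2 ≤ (H / 2) ^ d := le_self_pow₀ (by linarith [hn.1]) (by omega)
      have e3 := (div_lt_iff₀ hη).1 hn.2
      have e4 := mul_le_mul_of_nonneg_left e2 hη.le
      rw [e1]; linarith) m₀
  by_contra hc
  push Not at hc
  refine h2.not_ge ((h1.tsum_fiberwise fun j => ∑ s, num1_w p n D s * j s).nonneg fun m => ?_)
  have hinj : Set.InjOn (num1_emb p n D m) (AA p n D m) := fun a _ b _ h =>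
    Finsupp.ext fun v => congrFun h (some v)
  rw [num1_fibre hp, Finset.tsum_subtype', Finset.sum_image hinj]
  refine le_trans ?_ (Finset.sum_le_sum fun a _ => h3 _)
  have hM : ∀ a ∈ AA p n D m, ∑ s, (num1_w p n D s : ℝ) * num1_emb p n D m a s = m := fun a ha => by
    have : num1_emb p n D m a ∈ (fun j : Option (Fin n × Fin D) → ℕ =>
        ∑ s, num1_w p n D s * j s) ⁻¹' {m} := by
      rw [num1_fibre hp]; exact Finset.mem_coe.2 (Finset.mem_image_of_mem _ ha)
    exact_mod_cast Set.mem_singleton_iff.1 this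
  have hX : ∀ a ∈ AA p n D m, ∀ i, ∑ s, (num1_b i s - H / N) *
      ((num1_w p n D s : ℝ) * num1_emb p n D m a s) = Am p a i - H / N * m := fun a ha i => by
    simp only [sub_mul]
    rw [Finset.sum_sub_distrib, ← Finset.mul_sum, hM a ha, num1_sum_b, Am, Nat.cast_sum]
    congr 1
    refine Finset.sum_congr rfl fun l _ => ?_
    simp only [num1_w, num1_emb, Option.elim, lw]
    push_cast
    field_simp
  rw [Finset.sum_congr rfl fun a ha => by rw [hM a ha, Finset.sum_congr rfl fun i _ => by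
    rw [hX a ha i]], ← Finset.mul_sum, Finset.sum_sub_distrib, Finset.sum_const, nsmul_eq_mul]
  refine mul_nonneg (Real.exp_pos _).le ?_
  split_ifs with hm
  · simp only [mul_zero, sub_zero]
    exact Finset.sum_nonneg fun a _ => Finset.sum_nonneg fun i _ => by positivity
  · have := hc m (by exact_mod_cast not_lt.1 hm)
    rw [mul_pow] at this
    linarith

end Pool.Agent.P.MP_6f117a_ag.EX
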