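import Pool.Agent.P.MP_6f117a_ag.E.Iface

/-! Step NUM2 of the proof of the existence of sections. -/

namespace Pool.Agent.P.MP_6f117a_ag.EX

open Module MvPolynomial

universe u

theorem num2_small (A : ℝ) {T : ℝ} (hT : 0 < T) : ∃ s, 0 < s ∧ s ≤ 1 ∧ A * s < T := by
  have h : 0 < |A| + 1 := by positivity
  refine ⟨min 1 (T / (|A| + 1)), lt_min one_pos (by positivity), min_le_left _ _, ?_⟩
  have h1 := (le_div_iff₀ h).1 (min_le_right 1 (T / (|A| + 1)))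
  have h2 : 0 < min 1 (T / (|A| + 1)) := lt_min one_pos (by positivity)
  nlinarith [le_abs_self A]

theorem num2_young {u N v s : ℝ} (d : ℕ) (h0 : 0 < s) (h1 : s ≤ 1) (hu : 0 ≤ u) (hN : 0 ≤ N)
    (hv : 0 ≤ v) (hv' : v ≤ 2 * N) :
    u * (v + u) ^ d ≤ s * 3 ^ d * N ^ (d + 1) + (3 / s) ^ d * u ^ (d + 1) := by
  rcases le_total u (s * N) with h | h
  · refine le_add_of_le_of_nonneg ?_ (by positivity)
    calc _ ≤ s * N * (3 * N) ^ d := by gcongr; nlinarith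
      _ = _ := by rw [mul_pow]; ring
  · refine le_add_of_nonneg_of_le (by positivity) ?_
    calc _ ≤ u * (3 / s * u) ^ d := by
          gcongr
          rw [div_mul_eq_mul_div, le_div_iff₀ h0]
          nlinarith
      _ = _ := by rw [mul_pow]; ring

theorem num2_pow {D : ℕ} (d : ℕ) (x : Fin D → ℝ) {u y : ℝ} (hu : 0 ≤ u) (hy : 0 ≤ y)
    (h : u ≤ 3 * ∑ i, |x i| + y) :
    u ^ (d + 1) ≤ 2 ^ d * (3 ^ (d + 1) * (D ^ d * ∑ i, |x i| ^ (d + 1)) + y ^ (d + 1)) := by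
  have h1 := pow_sum_le_card_mul_sum_pow (s := Finset.univ) (f := fun i => |x i|)
    (fun _ _ => abs_nonneg _) d
  rw [Finset.card_univ, Fintype.card_fin] at h1
  refine (pow_le_pow_left₀ hu h _).trans ((add_pow_le (by positivity) hy _).trans ?_)
  rw [Nat.add_sub_cancel, mul_pow]
  gcongr

theorem pNUM2 (hNUM1 : E_NUM1) : E_NUM2 := by
  intro d r C₁ hd hr
  obtain ⟨d, rfl⟩ : ∃ d', d = d' + 1 := ⟨d - 1, by omega⟩
  have hr' : (1 : ℝ) ≤ r := by exact_mod_cast hr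
  obtain ⟨K, hK⟩ : ∃ K : ℝ, K = ((d + 1) ^ (d + 1) * C₁ : ℕ) := ⟨_, rfl⟩
  have hK0 : 0 ≤ K := hK ▸ Nat.cast_nonneg _
  have hT : (0 : ℝ) < (1 / (2 * r)) ^ (d + 1) / 2 := by positivity
  obtain ⟨s, s0, s1, s2⟩ := num2_small (K * 3 ^ d) hT
  obtain ⟨η, e0, e1, e2⟩ := num2_small
    (K * (3 / s) ^ d * (2 ^ d * (3 ^ (d + 1) * ((d + 1 + 1 : ℕ) : ℝ) ^ d + 1))) hT
  obtain ⟨n, κ, hκ, H⟩ := hNUM1 (d + 1) (d + 1 + 1) η hd (by omega) e0
  obtain ⟨q, hq⟩ := exists_nat_gt (2 / (η * κ))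
  have hq0 : (0 : ℝ) < q := lt_trans (by positivity) hq
  have hq1 : 0 < q := by exact_mod_cast hq0
  refine ⟨n, q, hq1, fun p n₀ hp => ?_⟩
  obtain ⟨m₀, hm₀⟩ := exists_nat_ge
    (max (2 * r / κ) (2 * (3 * ((d + 1 + 1 : ℕ) * r) + 1 + n₀) / (η * κ)))
  obtain ⟨m, hm, H⟩ := H p m₀ hp
  have hm' := hm₀.trans (Nat.cast_le.2 hm)
  have m1 := (div_le_iff₀ hκ).1 (le_of_max_le_left hm')
  have m2 := (div_le_iff₀ (by positivity)).1 (le_of_max_le_right hm')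
  obtain ⟨N, hN⟩ : ∃ N, N = κ * m := ⟨_, rfl⟩
  rw [← hN] at H
  have n1 : 2 * r ≤ N := by linarith
  have n0 : 0 < N := by linarith
  have m0 : 0 < m := Nat.pos_of_ne_zero fun h => by simp [h] at hN; linarith
  obtain ⟨μ, hμ⟩ : ∃ μ, μ = ⌊N / r⌋₊ := ⟨_, rfl⟩
  have u1 : r * μ ≤ N := by
    have := Nat.floor_le (a := N / r) (by positivity)
    rwa [← hμ, le_div_iff₀' (by linarith)] at this
  have u2 : N < r * (μ + 1) := by
    have := Nat.lt_floor_add_one (N / r)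
    rwa [← hμ, div_lt_iff₀' (by linarith)] at this
  have u0 : (0 : ℝ) ≤ μ := Nat.cast_nonneg _
  have q1 : ((m / q : ℕ) : ℝ) ≤ η * N / 2 := by
    refine Nat.cast_div_le.trans ?_
    rw [div_lt_iff₀ (by positivity)] at hq
    rw [div_le_iff₀ hq0, hN]
    nlinarith [(Nat.cast_nonneg m : (0 : ℝ) ≤ m)]
  refine ⟨m, μ, m / q + 1, m0, (Nat.lt_mul_div_succ m hq1).le, ?_⟩
  have hc : (0 : ℝ) < (AA p n (d + 1 + 1) m).card :=
    Nat.cast_pos.2 (Finset.card_pos.2 ⟨0, (mem_AA hp).2 (by simp)⟩)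
  have key : ∀ a : Fin n × Fin (d + 1 + 1) →₀ ℕ, ((((d + 1) ^ (d + 1) *
      (C₁ * flu p r μ (m / q + 1) n₀ a * (μ + flu p r μ (m / q + 1) n₀ a + 1) ^ (d + 1 - 1)) : ℕ) :
      ℝ)) ≤ K * (s * 3 ^ d * N ^ (d + 1) + (3 / s) ^ d * (2 ^ d * (3 ^ (d + 1) *
        (((d + 1 + 1 : ℕ) : ℝ) ^ d * ∑ i, |(Am p a i : ℝ) - N| ^ (d + 1)) + η * N ^ (d + 1)))) := by
    intro a
    have f1 : (flu p r μ (m / q + 1) n₀ a : ℝ) ≤ 3 * ∑ i, |(Am p a i : ℝ) - N| + η * N := by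
      have : ∑ i, |(Am p a i : ℝ) - r * μ| ≤ ∑ i, (|(Am p a i : ℝ) - N| + r) :=
        Finset.sum_le_sum fun i _ => (abs_sub_le _ N _).trans
          (add_le_add_right (abs_le.2 ⟨by linarith, by linarith⟩) _)
      rw [Finset.sum_add_distrib, Finset.sum_const, Finset.card_univ, Fintype.card_fin,
        nsmul_eq_mul] at this
      simp only [flu, Nat.cast_add, Nat.cast_mul, Nat.cast_sum, Nat.cast_natAbs, Int.cast_abs,
        Int.cast_sub, Int.cast_mul, Int.cast_natCast, Nat.cast_ofNat, Nat.cast_one] at this m2 ⊢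
      nlinarith
    have f2 := num2_pow d _ (Nat.cast_nonneg _) (by positivity) f1
    have f3 := num2_young (u := flu p r μ (m / q + 1) n₀ a) (N := N) (v := μ + 1) d s0 s1
      (Nat.cast_nonneg _) n0.le (by positivity) (by nlinarith)
    have f4 : (η * N) ^ (d + 1) ≤ η * N ^ (d + 1) := by
      rw [mul_pow]
      gcongr
      exact pow_le_of_le_one e0.le e1 (by omega)
    calc _ = K * ((flu p r μ (m / q + 1) n₀ a : ℝ) *
          (μ + 1 + flu p r μ (m / q + 1) n₀ a) ^ d) := by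
          rw [hK, Nat.add_sub_cancel]; push_cast; ring
      _ ≤ _ := by
          refine mul_le_mul_of_nonneg_left (f3.trans ?_) hK0
          gcongr
          refine f2.trans ?_
          gcongr
  rw [← Nat.cast_lt (α := ℝ), Nat.cast_sum]
  refine (Finset.sum_le_sum fun a _ => key a).trans_lt ?_
  simp only [← Finset.mul_sum, Finset.sum_add_distrib, Finset.sum_const, nsmul_eq_mul]
  have hP : 0 < N ^ (d + 1) := by positivity
  have l1 : (1 / (2 * r)) ^ (d + 1) * N ^ (d + 1) ≤ (μ : ℝ) ^ (d + 1) := by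
    rw [← mul_pow]
    gcongr
    rw [one_div, inv_mul_le_iff₀ (by positivity)]
    nlinarith
  rw [Nat.cast_mul, Nat.cast_pow]
  generalize ((AA p n (d + 1 + 1) m).card : ℝ) = c at *
  calc _ ≤ K * (c * (s * 3 ^ d * N ^ (d + 1)) + (3 / s) ^ d * (2 ^ d * (3 ^ (d + 1) *
        (((d + 1 + 1 : ℕ) : ℝ) ^ d * (η * c * N ^ (d + 1))) + c * (η * N ^ (d + 1))))) := by
        refine mul_le_mul_of_nonneg_left (add_le_add (le_of_eq (by ring))
          (mul_le_mul_of_nonneg_left (mul_le_mul_of_nonneg_left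
            (add_le_add (by gcongr) (le_of_eq (by ring))) (by positivity)) (by positivity))) hK0
    _ = c * ((K * 3 ^ d * s + K * (3 / s) ^ d *
        (2 ^ d * (3 ^ (d + 1) * ((d + 1 + 1 : ℕ) : ℝ) ^ d + 1)) * η) * N ^ (d + 1)) := by ring
    _ < c * ((1 / (2 * r)) ^ (d + 1) * N ^ (d + 1)) := by gcongr; linarith
    _ ≤ _ := by gcongr

end Pool.Agent.P.MP_6f117a_ag.EX
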