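import Pool.Agent.P.MP_6f117a_ag.E.Iface

/-! Step REG of the proof of the existence of sections. -/

namespace Pool.Agent.P.MP_6f117a_ag.EX

open Module MvPolynomial

universe u

section

variable {k K : Type u} [Field k] [Field K] [Algebra k K]

theorem reg_avoid [Infinite k] (W : Submodule k K) (T : Finset (Submodule k K))
    (h : ∀ P ∈ T, ∃ v ∈ W, v ∉ P) : ∃ v ∈ W, ∀ P ∈ T, v ∉ P := by
  classical
  have := Subspace.biUnion_ne_univ_of_top_notMem (k := k) (E := W)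
    (s := T.image fun P => P.comap W.subtype) (by
      simp only [Finset.mem_image, not_exists, not_and]
      intro P hP e
      obtain ⟨v, hv, h1⟩ := h P hP
      exact h1 (show (⟨v, hv⟩ : W) ∈ P.comap W.subtype by rw [e]; trivial))
  obtain ⟨v, hv⟩ := (Set.ne_univ_iff_exists_notMem _).1 this
  exact ⟨v, v.2, fun P hP hc => hv (Set.mem_iUnion₂.2 ⟨_, Finset.mem_image_of_mem _ hP, hc⟩)⟩

theorem reg_core (R : Subalgebra k K) [IsNoetherianRing R] {φ γ : K} (hφ : φ ∈ R) (h0 : φ ≠ 0)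
    (hγ : γ ≠ 0) : ∃ T : Finset (Submodule k K), (∀ P ∈ T, γ ∉ P) ∧ ∀ u, (∀ P ∈ T, u ∉ P) →
      u / γ ∈ R → ∀ y ∈ R, u / γ * y / φ ∈ R → y / φ ∈ R := by
  classical
  obtain ⟨T, h1, h2⟩ := Surf.exists_ass (Ideal.span {(⟨φ, hφ⟩ : R)})
  refine ⟨T.image fun P => ((P.restrictScalars k).map R.val.toLinearMap).comap
    (LinearMap.mulRight k γ⁻¹), fun P hP hc => ?_, fun u hu hR y hy hz => ?_⟩
  · obtain ⟨P, hP', rfl⟩ := Finset.mem_image.1 hP
    obtain ⟨z, hz, e⟩ := hc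
    have : z = 1 := Subtype.ext (e.trans (mul_inv_cancel₀ hγ))
    exact (h1 P hP').1.ne_top ((Ideal.eq_top_iff_one _).2 (this ▸ hz))
  · obtain ⟨z, e⟩ := Ideal.mem_span_singleton'.1 (h2 ⟨_, hR⟩
      (fun P hP hc => hu _ (Finset.mem_image_of_mem _ hP) ⟨_, hc, div_eq_mul_inv u γ⟩) ⟨y, hy⟩
      (Ideal.mem_span_singleton'.2 ⟨⟨_, hz⟩, Subtype.ext (div_mul_cancel₀ _ h0)⟩))
    have e' : (z : K) * φ = y := congrArg Subtype.val e
    rw [← e', mul_div_cancel_right₀ _ h0]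
    exact z.2

end

theorem pREG (k K : Type u) [Field k] [Field K] [Algebra k K] :
    E_REG k K := by
  intro hk ι κ _ _ _ g f hf
  classical
  have hs : ∀ (α : ι → κ) i, ∀ u ∈ Submodule.span k (Set.range (g i)), u / g i (α i) ∈ RR k g α :=
    fun α i u hu => by simpa [gz, mz_single] using mem_LB.1 (span_le_LB α i hu)
  have h1 : ∀ (j i : ι) (α : ι → κ), ∃ T : Finset (Submodule k K),
      (∀ P ∈ T, g j (α j) ∉ P) ∧ ∀ u, (∀ P ∈ T, u ∉ P) → Val g α → u / g j (α j) ∈ RR k g α →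
        ∀ y ∈ RR k g α, u / g j (α j) * y / (f i / g i (α i)) ∈ RR k g α →
          y / (f i / g i (α i)) ∈ RR k g α := by
    intro j i α
    by_cases hα : Val g α
    · have : Algebra.FiniteType k (RR k g α) := Algebra.FiniteType.adjoin_of_finite
        ((Set.finite_range fun x : ι × κ => g x.1 x.2 / g x.1 (α x.1)).subset
          fun _ ⟨i, a, e⟩ => ⟨(i, a), e.symm⟩)
      have : IsNoetherianRing (RR k g α) := Algebra.FiniteType.isNoetherianRing k _
      obtain ⟨T, h1, h2⟩ := reg_core (RR k g α) (hs α i _ (hf i).1) (div_ne_zero (hf i).2 (hα i))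
        (hα j)
      exact ⟨T, h1, fun u hu _ => h2 u hu⟩
    · exact ⟨∅, by simp, fun u _ h => absurd h hα⟩
  choose T h2 h3 using h1
  have h4 : ∀ j, ∃ v ∈ Submodule.span k (Set.range (g j)),
      ∀ P ∈ insert ⊥ (Finset.univ.biUnion fun x : ι × (ι → κ) => T j x.1 x.2), v ∉ P := fun j =>
    reg_avoid _ _ fun P hP => by
      rcases Finset.mem_insert.1 hP with rfl | hP
      · exact ⟨f j, (hf j).1, (hf j).2⟩
      · obtain ⟨x, -, hx⟩ := Finset.mem_biUnion.1 hP
        exact ⟨_, Submodule.subset_span ⟨x.2 j, rfl⟩, h2 j _ _ P hx⟩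
  choose u h5 h6 using h4
  refine ⟨u, fun j => ⟨h5 j, h6 j ⊥ (Finset.mem_insert_self _ _)⟩, fun i j α n x hα hx hu => ?_⟩
  have e1 : ∀ i, gz g α (Pi.single i 1) = g i (α i) := fun i => by rw [gz, mz_single, zpow_one]
  have n1 := gz_ne hα n
  have n2 := hα i
  have n3 := hα j
  have n4 := (hf i).2
  rw [mem_LB, gz_sub hα, gz_add hα, e1, e1,
    show u j * x / f i / (gz g α n * g j (α j) / g i (α i)) =
      u j / g j (α j) * (x / gz g α n) / (f i / g i (α i)) by field_simp] at hu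
  rw [mem_LB, gz_sub hα, e1,
    show x / f i / (gz g α n / g i (α i)) = x / gz g α n / (f i / g i (α i)) by field_simp]
  exact h3 j i α _ (fun P hP => h6 j P (Finset.mem_insert_of_mem
    (Finset.mem_biUnion.2 ⟨(i, α), Finset.mem_univ _, hP⟩))) hα (hs α j _ (h5 j)) _ (mem_LB.1 hx) hu

end Pool.Agent.P.MP_6f117a_ag.EX
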