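import Pool.Agent.P.MP_6f117a_ag.E.Iface

/-! Step SAT of the proof of the existence of sections. -/

namespace Pool.Agent.P.MP_6f117a_ag.EX

open Module MvPolynomial

universe u

section
variable {k K : Type u} [Field k] [Field K] [Algebra k K] {ι κ : Type} [Fintype ι]
  [DecidableEq ι] {g : ι → κ → K} {f u : ι → K}

theorem sat_LB {α : ι → κ} {n m : ι → ℤ} {x : K} (h : x ∈ LB k g α n) (e : ∀ j, n j = m j) :
    x ∈ LB k g α m := funext e ▸ h

theorem sat_BB {n m : ι → ℕ} {x : K} (h : x ∈ BB k g n) (e : ∀ j, n j = m j) :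
    x ∈ BB k g m := funext e ▸ h

theorem sat_prod (hu : Sec k g u) {α : ι → κ} (hα : Val g α) (s : Finset ι) :
    ∏ j ∈ s, u j ∈ LB k g α (∑ j ∈ s, Pi.single j 1) := by
  induction s using Finset.induction_on with
  | empty => simpa using one_le_LB (k := k) (g := g) α (Submodule.one_le.1 le_rfl)
  | insert j s hj ih =>
    rw [Finset.prod_insert hj, Finset.sum_insert hj]
    exact LB_mul hα (span_le_LB α j (hu j).1) ih

theorem sat_reg (hu : Sec k g u) (hr : FReg k g f u) {α : ι → κ} (hα : Val g α) (i : ι)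
    {m : ι → ℤ} {w : K} (hw : w ∈ LB k g α m) (s : Finset ι)
    (h : (∏ j ∈ s, u j) * w / f i ∈ LB k g α (∑ j ∈ s, Pi.single j 1 + m - Pi.single i 1)) :
    w / f i ∈ LB k g α (m - Pi.single i 1) := by
  induction s using Finset.induction_on with
  | empty => simpa using h
  | insert j s hj ih =>
    rw [Finset.prod_insert hj, Finset.sum_insert hj, mul_assoc, add_assoc,
      add_comm (Pi.single j 1)] at h
    exact ih (hr i j α _ _ hα (LB_mul hα (sat_prod hu hα s) hw) h)

theorem sat_pow (hu : Sec k g u) (t : ℕ) : (∏ j, u j) ^ t ∈ BB k g fun _ => t := by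
  rw [← Finset.prod_pow]
  exact prod_mem_BB (fun j => (hu j).1) fun _ => t

theorem sat_start [Fintype κ] (hPIG : E_PIG k K) (hu : Sec k g u) {F : K} {n : ι → ℕ} {m : ι → ℤ}
    {c : (ι → κ) → K} (hc : ∀ α, Val g α → c α ∈ LB k g α fun j => n j)
    (hC : Compat k g F m c) : ∃ t : ℕ, ∃ b ∈ BB k g fun j => n j + t, ∀ β, Val g β →
      (b - (∏ j, u j) ^ t * c β) / F ∈ LB k g β fun j => m j + t := by
  have h1 : ∀ α, ∀ᶠ M : ℕ in Filter.atTop, Val g α →
      gz g α (fun _ => M) * c α ∈ BB k g fun j => M + n j := fun α => by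
    by_cases hα : Val g α
    · obtain ⟨M, hM⟩ := exists_BB hα (mem_LB.1 (hc α hα))
      filter_upwards [Filter.eventually_ge_atTop M] with M' h _
      have := BB_mul (hM M' h) (gz_mem_BB α n)
      rwa [mul_assoc, div_mul_cancel₀ _ (gz_ne hα _)] at this
    · exact Filter.Eventually.of_forall fun _ h => absurd h hα
  have h2 : ∀ α β, ∀ᶠ M : ℕ in Filter.atTop, Val g α → Val g β →
      gz g α (fun _ => M) * (c α - c β) / F ∈ LB k g β ((fun _ => (M : ℤ)) + m) := fun α β => by
    by_cases hα : Val g α ∧ Val g β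
    · obtain ⟨M, hM⟩ := hC α β hα.1 hα.2
      filter_upwards [Filter.eventually_ge_atTop M] with M' h _ _
      obtain ⟨t, rfl⟩ := Nat.exists_eq_add_of_le' h
      have := (gz_mul_mem_LB hα.2 (m := fun _ => ((t + M : ℕ) : ℤ))).2
        (RR_mul_LB (pow_mem (tr_mem α β) t) hM)
      rwa [← mul_div_assoc, ← mul_assoc, ← pow_add, tr_pow, ← mul_div_assoc, ← mul_assoc,
        mul_div_cancel₀ _ (gz_ne hα.2 _)] at this
    · exact Filter.Eventually.of_forall fun _ h h' => absurd ⟨h, h'⟩ hα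
  obtain ⟨M, ⟨h1, h2⟩, h3⟩ := (((Filter.eventually_all.2 h1).and (Filter.eventually_all.2 fun α =>
    Filter.eventually_all.2 (h2 α))).and (Filter.eventually_gt_atTop 0)).exists
  obtain ⟨β', b1, b2, b3⟩ := hPIG ι κ g M _ h3 (fun _ => le_rfl) _ (sat_pow hu _)
  refine ⟨Fintype.card κ * M + M, ∑ α, β' α * (gz g α (fun _ => M) * c α),
    sum_mem fun α _ => ?_, fun β hβ => ?_⟩
  · by_cases hα : Val g α
    · exact sat_BB (BB_mul (b1 α) (h1 α hα)) fun j => by
        simp only [Pi.add_apply, Pi.sub_apply]; omega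
    · rw [b2 α hα, zero_mul]
      exact zero_mem _
  · rw [b3, Finset.sum_mul, ← Finset.sum_sub_distrib, Finset.sum_div]
    refine sum_mem fun α _ => ?_
    by_cases hα : Val g α
    · rw [mul_assoc, ← mul_sub, ← mul_sub, mul_div_assoc]
      exact sat_LB (LB_mul hβ (BB_le_LB hβ _ (b1 α)) (h2 α β hα hβ)) fun j => by
        simp only [Pi.add_apply, Pi.sub_apply, Nat.add_sub_cancel]; push_cast; ring
    · simp [b2 α hα]

end

theorem pSAT (k K : Type u) [Field k] [Field K] [Algebra k K]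
    (hPIG : E_PIG k K) (hTORS : E_TORS k K) :
    E_SAT k K := by
  intro ι κ _ _ _ g f u hf hu hr
  have hx : ∏ j, u j ∈ BB k g fun _ => 1 := by simpa using sat_pow hu 1
  choose n₀ hn₀ using fun i => hTORS ι κ g (Pi.single i 1) (fun _ => 1) (f i) (∏ j, u j)
    (by rw [BB_single, pow_one]; exact (hf i).1) hx
  refine ⟨Finset.univ.sup n₀, fun i n hn c hc hC => ?_⟩
  have sg : ∀ j, ((Pi.single i 1 : ι → ℕ) j : ℤ) = (Pi.single i 1 : ι → ℤ) j := fun j => by
    by_cases h : j = i <;> simp [h]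
  have sg' : ∀ j, (Pi.single i 1 : ι → ℕ) j ≤ 1 := fun j => by
    by_cases h : j = i <;> simp [h]
  obtain ⟨t, h⟩ := sat_start hPIG hu hc hC
  induction t with
  | zero =>
    obtain ⟨b, h1, h2⟩ := h
    exact ⟨b, h1, fun α hα => sat_LB (by simpa using h2 α hα) fun j => add_zero _⟩
  | succ t ih =>
    obtain ⟨b, h1, h2⟩ := h
    have l : ∀ α, Val g α → (∏ j, u j) ^ t * c α ∈ LB k g α fun j => n j + t := fun α hα =>
      sat_LB (LB_mul hα (BB_le_LB hα _ (sat_pow hu t)) (hc α hα)) fun j => add_comm (t : ℤ) _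
    obtain ⟨y, hy, z, hz, e⟩ := hn₀ i _ (fun j => ((Finset.le_sup (Finset.mem_univ i)).trans
      (hn j)).trans (Nat.le_add_right _ _)) b h1 fun α hα =>
        ⟨_, sat_LB (h2 α hα) fun j => by simp only [Pi.sub_apply, sg]; push_cast; ring, _,
          sat_LB (l α hα) fun j => by push_cast; ring, by
            rw [mul_div_cancel₀ _ (hf i).2]; ring⟩
    have hz' : z ∈ BB k g fun j => n j + t := sat_BB hz fun j => rfl
    refine ih ⟨z, hz', fun α hα => ?_⟩
    have h3 := sub_mem (sat_LB (BB_le_LB hα _ hz') fun j => Nat.cast_add _ _) (l α hα)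
    refine sat_LB (sat_reg hu hr hα i h3 Finset.univ ?_) fun j => by
      simp only [Pi.sub_apply]; ring
    have e' : (∏ j, u j) * (z - (∏ j, u j) ^ t * c α) / f i =
        (b - (∏ j, u j) ^ (t + 1) * c α) / f i - y := by
      rw [e]
      field_simp [(hf i).2]
      ring
    have s1 : ∀ j, (∑ j, Pi.single j 1 : ι → ℤ) j = 1 := fun j => by
      simp [Finset.sum_apply, Pi.single_apply]
    rw [e']
    refine sub_mem (sat_LB (h2 α hα) fun j => ?_) (sat_LB (BB_le_LB hα _ hy) fun j => ?_)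
    · simp only [Pi.sub_apply, Pi.add_apply, s1]
      push_cast
      ring
    · have := sg' j
      simp only [Pi.sub_apply, Pi.add_apply, s1, ← sg]
      omega

end Pool.Agent.P.MP_6f117a_ag.EX
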