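import Pool.Agent.P.MP_6f117a_ag.E.Iface

/-! Step SLICE of the proof of the existence of sections. -/

namespace Pool.Agent.P.MP_6f117a_ag.EX

open Module MvPolynomial

universe u

section

variable {k K : Type u} [Field k] [Field K] [Algebra k K] {ι κ : Type} [Fintype ι]
  {g : ι → κ → K} {α : ι → κ} {f : K} {e : ι → ℤ}

variable (k g α f e) in
/-- local sections of multidegree `m` that are not zero divisors modulo `f` -/
def slice_Reg (w : K) (m : ι → ℤ) : Prop :=
  w ∈ LB k g α m ∧ ∀ (n : ι → ℤ) x, x ∈ LB k g α n → w * x / f ∈ LB k g α (n + m - e) →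
    x / f ∈ LB k g α (n - e)

theorem slice_one : slice_Reg k g α f e 1 0 :=
  ⟨mem_LB_zero.2 (one_mem _), fun n x _ h => by rwa [one_mul, add_zero] at h⟩

theorem slice_mul (hα : Val g α) {w w' : K} {m m' : ι → ℤ} (h : slice_Reg k g α f e w m)
    (h' : slice_Reg k g α f e w' m') : slice_Reg k g α f e (w * w') (m + m') := by
  refine ⟨LB_mul hα h.1 h'.1, fun n x hx h1 => h'.2 n x hx ?_⟩
  have h2 := LB_mul hα h'.1 hx
  rw [add_comm] at h2
  refine h.2 _ _ h2 ?_
  rwa [← mul_assoc, add_assoc, add_comm m' m]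

theorem slice_pow (hα : Val g α) {w : K} {m : ι → ℤ} (h : slice_Reg k g α f e w m) (t : ℕ) :
    slice_Reg k g α f e (w ^ t) (t • m) := by
  induction t with
  | zero =>
    rw [pow_zero, zero_smul]
    exact slice_one
  | succ t ih =>
    rw [pow_succ, succ_nsmul]
    exact slice_mul hα ih h

theorem slice_prod (hα : Val g α) {w : ι → K} {m : ι → ι → ℤ}
    (h : ∀ j, slice_Reg k g α f e (w j) (m j)) (s : Finset ι) :
    slice_Reg k g α f e (∏ j ∈ s, w j) (∑ j ∈ s, m j) := by
  classical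
  induction s using Finset.induction_on with
  | empty => exact slice_one
  | insert j s hj ih =>
    rw [Finset.prod_insert hj, Finset.sum_insert hj]
    exact slice_mul hα (h j) ih

theorem slice_all [DecidableEq ι] {f u : ι → K} (hu : Sec k g u) (h : FReg k g f u)
    (hα : Val g α) (i : ι) (t : ι → ℕ) :
    slice_Reg k g α (f i) (Pi.single i 1) (∏ j, u j ^ t j) fun j => t j := by
  have h1 := slice_prod hα (fun j => slice_pow (f := f i) (e := Pi.single i 1) hα
    ⟨span_le_LB α j (hu j).1, fun n x hx => h i j α n x hα hx⟩ (t j)) Finset.univ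
  have h2 : ∑ j, t j • (Pi.single j 1 : ι → ℤ) = fun j => (t j : ℤ) := by
    rw [← Finset.univ_sum_single fun j => (t j : ℤ)]
    refine Finset.sum_congr rfl fun j _ => ?_
    rw [← Pi.single_smul, nsmul_one]
  rwa [h2] at h1

theorem slice_rank {U B B' : Type u} [AddCommGroup U] [Module k U] [FiniteDimensional k U]
    [AddCommGroup B] [Module k B] [FiniteDimensional k B] [AddCommGroup B'] [Module k B']
    (U' : Submodule k U) (P : Submodule k (U × B)) (φ : B' →ₗ[k] B) (hφ : Function.Injective φ)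
    (h1 : ∀ s, ∃ b, (s, b) ∈ P) (h2 : ∀ b, (0, φ b) ∈ P) (h3 : ∀ s, (s, 0) ∈ P → s ∈ U') :
    finrank k U + finrank k B' ≤ finrank k U' + finrank k B := by
  let p1 : P →ₗ[k] U := LinearMap.fst k U B ∘ₗ P.subtype
  let p2 : P →ₗ[k] B := LinearMap.snd k U B ∘ₗ P.subtype
  have e1 := p1.finrank_range_add_finrank_ker
  have e2 := p2.finrank_range_add_finrank_ker
  have r1 : LinearMap.range p1 = ⊤ := LinearMap.range_eq_top.2 fun s => by
    obtain ⟨b, hb⟩ := h1 s
    exact ⟨⟨_, hb⟩, rfl⟩
  rw [r1, finrank_top] at e1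
  have r2 := Submodule.finrank_le (LinearMap.range p2)
  have k1 : finrank k B' ≤ finrank k (LinearMap.ker p1) :=
    LinearMap.finrank_le_finrank_of_injective
      (f := (((LinearMap.inr k U B ∘ₗ φ).codRestrict P h2).codRestrict (LinearMap.ker p1)
        fun _ => rfl))
      fun a b hab => hφ (congrArg (fun z : LinearMap.ker p1 => z.1.1.2) hab)
  have k2 : finrank k (LinearMap.ker p2) ≤ finrank k U' :=
    LinearMap.finrank_le_finrank_of_injective
      (f := (p1 ∘ₗ (LinearMap.ker p2).subtype).codRestrict U' fun z => h3 _ (by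
        have h4 : z.1.1.2 = 0 := z.2
        rw [← h4]
        exact z.1.2))
      fun a b hab => by
        have h4 : a.1.1.2 = 0 := a.2
        have h5 : b.1.1.2 = 0 := b.2
        exact Subtype.ext (Subtype.ext (Prod.ext (congrArg Subtype.val hab) (h4.trans h5.symm)))
  omega

end

theorem pSLICE (k K : Type u) [Field k] [Field K] [Algebra k K]
    (hSAT : E_SAT k K) :
    E_SLICE k K := by
  intro ι κ _ _ _ g f u hf hu hreg
  obtain ⟨n₀, hn₀⟩ := hSAT ι κ g f u hf hu hreg
  refine ⟨n₀ + 1, fun i n n' h1 h2 U _ _ _ c U' h3 h4 h5 => ?_⟩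
  have hw := fun α hα => slice_all (α := α) hu hreg hα i fun j => (n' j - n j).toNat
  generalize (∏ j, u j ^ ((n' j : ℤ) - n j).toNat) = w at hw
  have e0 : (fun j => ((((n' j : ℤ) - n j).toNat : ℕ) : ℤ)) = (fun j => (n' j : ℤ)) - n := by
    funext j
    exact Int.toNat_of_nonneg (sub_nonneg.2 (h1 j))
  rw [e0] at hw
  have e1 : n' = Pi.single i 1 + (n' - Pi.single i 1) := by
    funext j
    have := h2 j
    rcases eq_or_ne j i with rfl | hj
    · simp only [Pi.add_apply, Pi.sub_apply, Pi.single_eq_same]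
      omega
    · simp [hj]
  have e2 : (fun j => (((n' - Pi.single i 1 : ι → ℕ) j : ℕ) : ℤ)) =
      (fun j => (n' j : ℤ)) - Pi.single i 1 := by
    funext j
    have := h2 j
    rcases eq_or_ne j i with rfl | hj
    · simp only [Pi.sub_apply, Pi.single_eq_same]
      omega
    · simp [hj]
  have hm : ∀ b ∈ BB k g (n' - Pi.single i 1), f i * b ∈ BB k g n' := fun b hb => by
    have h6 : f i ∈ BB k g (Pi.single i 1) := by
      rw [BB_single, pow_one]
      exact (hf i).1
    have h7 := BB_mul h6 hb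
    rwa [← e1] at h7
  let ψ : (ι → κ) → U × BB k g n' →ₗ[k] K := fun α => LinearMap.mulRight k (f i)⁻¹ ∘ₗ
    ((BB k g n').subtype ∘ₗ LinearMap.snd k _ _ -
      LinearMap.mulLeft k w ∘ₗ c α ∘ₗ LinearMap.fst k _ _)
  let P : Submodule k (U × BB k g n') := ⨅ α, ⨅ _ : Val g α,
    (LB k g α ((fun j => (n' j : ℤ)) - Pi.single i 1)).comap (ψ α)
  have hP : ∀ s (b : BB k g n'), (s, b) ∈ P ↔ ∀ α, Val g α →
      (b - w * c α s) / f i ∈ LB k g α ((fun j => (n' j : ℤ)) - Pi.single i 1) := fun s b => by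
    simp only [P, Submodule.mem_iInf, Submodule.mem_comap, div_eq_mul_inv]
    rfl
  refine slice_rank U' P ((LinearMap.mulLeft k (f i)).restrict hm) (fun a b hab => ?_)
    (fun s => ?_) (fun b => (hP _ _).2 fun α hα => ?_) fun s hs => h5 s fun α hα => ?_
  · exact Subtype.ext (mul_left_cancel₀ (hf i).2 (congrArg Subtype.val hab))
  · obtain ⟨b, hb, h6⟩ := hn₀ i n' (fun j => (Nat.le_succ _).trans (h2 j))
      (fun α => w * c α s) (fun α hα => by
        have h6 := LB_mul hα (hw α hα).1 (h3 α hα s)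
        rwa [sub_add_cancel] at h6) fun α β hα hβ => by
        obtain ⟨M, hM⟩ := h4 s α β hα hβ
        have h6 := LB_mul hβ (hw β hβ).1 hM
        rw [sub_add_sub_cancel] at h6
        refine ⟨M, ?_⟩
        rwa [← mul_sub, mul_left_comm, mul_div_assoc]
    exact ⟨⟨b, hb⟩, (hP _ _).2 h6⟩
  · have h6 := BB_le_LB hα _ b.2
    rw [e2] at h6
    rw [map_zero, mul_zero, sub_zero]
    have h7 : ((LinearMap.mulLeft k (f i)).restrict hm b : K) = f i * b := rfl
    rwa [h7, mul_div_cancel_left₀ _ (hf i).2]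
  · have h6 := neg_mem ((hP _ _).1 hs α hα)
    refine (hw α hα).2 n _ (h3 α hα s) ?_
    rwa [add_sub_cancel, ← neg_neg (w * c α s), neg_div, ← zero_sub (w * c α s)]

end Pool.Agent.P.MP_6f117a_ag.EX
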