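import Pool.Agent.P.MP_6f117a_ag.E.Iface

/-! Step STEP of the proof of the existence of sections. -/

namespace Pool.Agent.P.MP_6f117a_ag.EX

open Module MvPolynomial

universe u

section

variable {k K : Type u} [Field k] [Field K] [Algebra k K] {ι κ : Type} [Fintype ι]
  {g : ι → κ → K} {V : Type u} [AddCommGroup V] [Module K V] {A : Type} [Fintype A]
  [LinearOrder A] {π : A → V →ₗ[K] K} {e : (ι → κ) → A → V} {dd : A → ι → ℤ}

theorem step_top (hT : Tri k g π e dd) {α : ι → κ} (hα : Val g α) (c : A → K) (a : A)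
    (h : ∀ b, a < b → π b (∑ b, c b • e α b) = 0) :
    (∀ b, a < b → c b = 0) ∧ π a (∑ b, c b • e α b) = c a * gz g α (dd a) := by
  have aux : ∀ a, (∀ b, a < b → c b = 0) → π a (∑ b, c b • e α b) = c a * gz g α (dd a) :=
    fun a ha => by
      rw [map_sum, Finset.sum_eq_single a (fun b _ hb => ?_) (by simp), map_smul, hT.diag α hα,
        smul_eq_mul]
      rcases lt_or_gt_of_ne hb with h1 | h1
      · rw [map_smul, hT.tri α hα _ _ h1, smul_zero]
      · rw [ha b h1, zero_smul, map_zero]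
  have h1 : ∀ b, a < b → c b = 0 := fun b => by
    induction b using WellFoundedGT.induction with
    | ind b ih =>
      intro hb
      have h2 := aux b fun b' hb' => ih b' hb' (hb.trans hb')
      rw [h b hb] at h2
      exact (mul_eq_zero.1 h2.symm).resolve_right (gz_ne hα _)
  exact ⟨h1, aux a h1⟩

theorem step_coord (hT : Tri k g π e dd) : ∃ L : (ι → κ) → V →ₗ[K] (A → K),
    ∀ α, Val g α → ∀ c : A → K, L α (∑ b, c b • e α b) = c := by
  have h : ∀ α, ∃ L : V →ₗ[K] (A → K), Val g α → ∀ c : A → K, L (∑ b, c b • e α b) = c :=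
    fun α => by
      by_cases hα : Val g α
      · obtain ⟨L, hL⟩ := (Fintype.linearCombination K (e α)).exists_leftInverse_of_injective
          (LinearMap.ker_eq_bot'.2 fun c hc => funext fun a => by
            rw [Fintype.linearCombination_apply] at hc
            have h1 := (step_top hT hα c a fun b _ => by rw [hc, map_zero]).2
            rw [hc, map_zero] at h1
            exact (mul_eq_zero.1 h1.symm).resolve_right (gz_ne hα _))
        exact ⟨L, fun _ c => by
          rw [← Fintype.linearCombination_apply]; exact LinearMap.congr_fun hL c⟩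
      · exact ⟨0, fun h => absurd h hα⟩
  choose L hL using h
  exact ⟨L, hL⟩

theorem step_trans (hT : Tri k g π e dd) {α β : ι → κ} (hα : Val g α) (hβ : Val g β)
    {L : V →ₗ[K] (A → K)} (hL : ∀ c : A → K, L (∑ b, c b • e β b) = c) (a : A) :
    (∀ b, a < b → L (e α a) b = 0) ∧ L (e α a) a * gz g β (dd a) = gz g α (dd a) ∧
      ∃ M : ℕ, ∀ b, tr g α β ^ M * L (e α a) b ∈ RR k g β := by
  obtain ⟨M, c, hc, h⟩ := hT.glue α β hα hβ a
  have h0 : tr g α β ^ M ≠ 0 := pow_ne_zero _ (tr_ne hα hβ)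
  have h1 : ∀ b, tr g α β ^ M * L (e α a) b = c b := fun b => by
    rw [← hL c, ← h, map_smul, Pi.smul_apply, smul_eq_mul]
  obtain ⟨h2, h3⟩ := step_top hT hβ c a fun b hb => by
    rw [← h, map_smul, hT.tri α hα _ _ hb, smul_zero]
  refine ⟨fun b hb => (mul_eq_zero.1 ((h1 b).trans (h2 b hb))).resolve_left h0,
    mul_left_cancel₀ h0 ?_, M, fun b => h1 b ▸ hc b⟩
  rw [← mul_assoc, h1, ← h3, ← h, map_smul, hT.diag α hα, smul_eq_mul]

theorem step_mz {f : ι → K} (hf : Sec k g f) {α : ι → κ} (hα : Val g α) {t t' : ι → ℤ}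
    (h : t ≤ t') {x : K} (hx : x * mz f t ∈ LB k g α t) : x * mz f t' ∈ LB k g α t' := by
  obtain ⟨m, rfl⟩ : ∃ m : ι → ℕ, t' = t + fun i => (m i : ℤ) :=
    ⟨fun i => (t' i - t i).toNat, funext fun i => by
      have : t i ≤ t' i := h i
      simp only [Pi.add_apply]
      omega⟩
  rw [mz_add (fun i => (hf i).2), ← mul_assoc, mz_nat]
  exact LB_mul hα hx (BB_le_LB hα _ (prod_mem_BB (fun i => (hf i).1) _))

end

theorem pSTEP (k K : Type u) [Field k] [Field K] [Algebra k K]
    (hSLICE : E_SLICE k K) :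
    E_STEP k K := by
  intro ι κ _ _ _ g f u hf hu hreg
  obtain ⟨n₀, hn₀⟩ := hSLICE ι κ g f u hf hu hreg
  refine ⟨n₀, ?_⟩
  intro V _ _ _ _ A _ _ π e dd hT τ τ' a i n' h1 h2 h3 h4 h5 U hU hfd
  obtain ⟨L, hL⟩ := step_coord hT
  have hf0 : ∀ i, f i ≠ 0 := fun i => (hf i).2
  have hτ : mz f (τ' a) = mz f (τ a) / f i := by rw [h1, mz_sub hf0, mz_single, zpow_one]
  have hn : dd a + τ a - Pi.single i 1 = dd a + τ' a := by rw [h1, add_sub_assoc]
  have hs : ∀ α, Val g α → ∀ s : U, (∀ b, L α s b * mz f (τ b) ∈ LB k g α (τ b)) ∧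
      (s : V) = ∑ b, L α s b • e α b := fun α hα s => by
    obtain ⟨c, hc, h⟩ := hU s.2 α hα
    rw [h, hL α hα]
    exact ⟨hc, rfl⟩
  let c : (ι → κ) → U →ₗ[k] K := fun α => LinearMap.mulLeft k (gz g α (dd a) * mz f (τ a)) ∘ₗ
    ((LinearMap.proj a ∘ₗ L α).restrictScalars k) ∘ₗ U.subtype
  have hc : ∀ α s, c α s = gz g α (dd a) * (L α s a * mz f (τ a)) := fun α s => by
    change gz g α (dd a) * mz f (τ a) * L α s a = _
    ring
  rw [← (Submodule.comapSubtypeEquivOfLe (inf_le_left (b := Gam k g f e τ'))).finrank_eq]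
  refine hn₀ i (dd a + τ a) n' h4 h5 U c _ (fun α hα s => ?_) (fun s α β hα hβ => ?_)
    fun s h => ⟨s.2, fun α hα => ⟨L α s, fun b => ?_, (hs α hα s).2⟩⟩
  · rw [hc, gz_mul_mem_LB hα]
    exact (hs α hα s).1 a
  · have h6 : ∀ b, ∀ᶠ M in Filter.atTop, b ≠ a → tr g α β ^ M *
        (gz g β (dd a) * (L α s b * L β (e α b) a * mz f (τ' a))) ∈ LB k g β (dd a + τ' a) := by
      intro b
      obtain ⟨h7, -, M, hM⟩ := step_trans hT hα hβ (hL β hβ) b
      rcases lt_trichotomy a b with hb | hb | hb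
      · obtain ⟨N, hN⟩ := exists_tr hα hβ (step_mz hf hα (h3 b hb) ((hs α hα s).1 b))
        filter_upwards [Filter.eventually_ge_atTop (M + N)] with P hP _
        obtain ⟨t, rfl⟩ := Nat.exists_eq_add_of_le ((Nat.le_add_right _ _).trans hP)
        have h8 := (gz_mul_mem_LB hβ (m := dd a)).2 (RR_mul_LB (hM a) (hN t (by omega)))
        convert h8 using 1
        ring
      · exact .of_forall fun _ h => absurd hb.symm h
      · exact .of_forall fun _ _ => by simp [h7 a hb]
    obtain ⟨M, hM⟩ := (Filter.eventually_all.2 h6).exists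
    refine ⟨M, ?_⟩
    have h7 : L β s a = ∑ b, L α s b * L β (e α b) a := by
      conv_lhs => rw [(hs α hα s).2]
      simp only [map_sum, map_smul, Finset.sum_apply, Pi.smul_apply, smul_eq_mul]
    have h8 := neg_mem (Submodule.sum_mem (LB k g β (dd a + τ' a)) (t := Finset.univ.erase a)
      fun b hb => hM b (Finset.ne_of_mem_erase hb))
    rw [hn]
    convert h8 using 1
    beta_reduce
    rw [hc, hc, h7, ← Finset.add_sum_erase _ _ (Finset.mem_univ a),
      ← (step_trans hT hα hβ (hL β hβ) a).2.1, ← Finset.mul_sum, ← Finset.mul_sum, ← Finset.sum_mul,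
      hτ]
    ring
  · rcases eq_or_ne b a with rfl | hb
    · have h6 := h α hα
      rwa [hc, hn, mul_div_assoc, gz_mul_mem_LB hα, mul_div_assoc, ← hτ] at h6
    · rw [h2 b hb]
      exact (hs α hα s).1 b

end Pool.Agent.P.MP_6f117a_ag.EX
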