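import Pool.Agent.P.MP_6f117a_ag.E.Iface

/-! Step TILT of the proof of the existence of sections. -/

namespace Pool.Agent.P.MP_6f117a_ag.EX

open Module MvPolynomial

universe u

theorem tilt_pos {y : ℝ} (hy : 0 < y) : 0 < 1 - Real.exp (-y) :=
  sub_pos.2 (Real.exp_lt_one_iff.2 (neg_lt_zero.2 hy))

theorem tilt_one {y l : ℝ} (hy : 0 < y) (hl : |l| ≤ 1 / 2) : (1 - Real.exp (-(y * (1 - l))))⁻¹ ≤
    Real.exp (3 / 2 * y) * (1 - l)⁻¹ * (1 - Real.exp (-y))⁻¹ := by
  obtain ⟨h1, h2⟩ := abs_le.1 hl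
  have hl' : 0 < 1 - l := by linarith
  have hz : 0 < y * (1 - l) := mul_pos hy hl'
  have a1 : y * (1 - l) * Real.exp (-(y * (1 - l))) ≤ 1 - Real.exp (-(y * (1 - l))) := by
    have := mul_le_mul_of_nonneg_right (Real.add_one_le_exp (y * (1 - l)))
      (Real.exp_pos (-(y * (1 - l)))).le
    rw [← Real.exp_add, add_neg_cancel, Real.exp_zero] at this
    linarith
  have a2 : 1 - Real.exp (-y) ≤ y := by linarith [Real.add_one_le_exp (-y)]
  refine (inv_anti₀ (mul_pos hz (Real.exp_pos _)) a1).trans ?_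
  rw [mul_inv, mul_inv, ← Real.exp_neg, neg_neg, mul_comm, mul_comm y⁻¹, ← mul_assoc]
  have a3 : Real.exp (y * (1 - l)) ≤ Real.exp (3 / 2 * y) := Real.exp_le_exp.2 (by nlinarith)
  have a4 := inv_anti₀ (tilt_pos hy) a2
  have a5 := inv_pos.2 hl'
  gcongr

theorem tilt_two {l : ℝ} (hl : |l| ≤ 1 / 2) : (1 - l)⁻¹ ≤ Real.exp (l + 2 * l ^ 2) := by
  obtain ⟨h1, h2⟩ := abs_le.1 hl
  refine le_trans ?_ (Real.add_one_le_exp _)
  rw [inv_le_iff_one_le_mul₀ (by linarith)]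
  nlinarith [mul_nonneg (sq_nonneg l) (show 0 ≤ 1 - 2 * l by linarith)]

theorem pTILT : E_TILT := by
  intro S _ w hw
  have h0 : 0 ≤ ∑ s, w s := Finset.sum_nonneg fun s _ => (hw s).le
  refine ⟨3 * ∑ s, w s + 1, by linarith, fun θ hθ l hl => ⟨?_, ?_⟩⟩
  · have θ0 : 0 < θ := by linarith
    have hy := fun s => div_pos (hw s) θ0
    have hl' : ∀ s, 0 < 1 - l s := fun s => by linarith [(abs_le.1 (hl s)).2]
    refine (Finset.prod_le_prod (fun s _ => (inv_pos.2 (tilt_pos (mul_pos (hy s) (hl' s)))).le)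
      fun s _ => tilt_one (hy s) (hl s)).trans ?_
    rw [Finset.prod_mul_distrib, Finset.prod_mul_distrib, ← Real.exp_sum]
    have a1 : Real.exp (∑ s, 3 / 2 * (w s / θ)) ≤ 2 := by
      have a2 : ∑ s, 3 / 2 * (w s / θ) ≤ 1 / 2 := by
        rw [← Finset.mul_sum, ← Finset.sum_div, ← mul_div_assoc, div_le_iff₀ θ0]
        linarith
      refine (Real.exp_le_exp.2 a2).trans ?_
      have a3 := Real.add_one_le_exp (-(1 / 2))
      rw [Real.exp_neg, le_inv_comm₀ (by norm_num) (Real.exp_pos _)] at a3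
      exact a3.trans (by norm_num)
    simp only [ZZ, Pi.zero_apply, sub_zero, mul_one]
    exact mul_le_mul_of_nonneg_right (mul_le_mul_of_nonneg_right a1
      (Finset.prod_nonneg fun s _ => (inv_pos.2 (hl' s)).le))
      (Finset.prod_nonneg fun s _ => (inv_pos.2 (tilt_pos (hy s))).le)
  · rw [Finset.mul_sum, ← Finset.sum_add_distrib, Real.exp_sum]
    exact Finset.prod_le_prod (fun s _ => inv_nonneg.2 (by linarith [(abs_le.1 (hl s)).2]))
      fun s _ => tilt_two (hl s)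

end Pool.Agent.P.MP_6f117a_ag.EX
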