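import Pool.Agent.P.MP_6f117a_ag.E.Iface

/-! Step TORS of the proof of the existence of sections. -/

namespace Pool.Agent.P.MP_6f117a_ag.EX

open Module MvPolynomial

universe u

section

variable {k K : Type u} [Field k] [Field K] [Algebra k K] {ι κ : Type} [Fintype ι]
  {g : ι → κ → K}

theorem tors_BB_le (Q : (ι →₀ ℕ) → Submodule k K) (h0 : 1 ≤ Q 0)
    (hm : ∀ n m, Q n * Q m ≤ Q (n + m))
    (h1 : ∀ i, Submodule.span k (Set.range (g i)) ≤ Q (Finsupp.single i 1)) (n : ι →₀ ℕ) :
    BB k g n ≤ Q n := by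
  classical
  have h2 : ∀ i (t : ℕ), Submodule.span k (Set.range (g i)) ^ t ≤ Q (Finsupp.single i t) :=
    fun i t => by
      induction t with
      | zero => simpa using h0
      | succ t ih =>
        rw [pow_succ, Finsupp.single_add]
        exact (mul_le_mul' ih (h1 i)).trans (hm _ _)
  have h3 : ∀ s : Finset ι, ∏ i ∈ s, Submodule.span k (Set.range (g i)) ^ n i ≤
      Q (∑ i ∈ s, Finsupp.single i (n i)) := fun s => by
    induction s using Finset.induction_on with
    | empty => simpa using h0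
    | insert i s hi ih =>
      rw [Finset.prod_insert hi, Finset.sum_insert hi]
      exact (mul_le_mul' (h2 i _) ih).trans (hm _ _)
  have := h3 Finset.univ
  rwa [Finsupp.univ_sum_single] at this

variable (k g) in
/-- The multigraded algebra of the linear systems. -/
noncomputable def tors_A : Subalgebra k (MvPolynomial ι K) :=
  Algebra.adjoin k (Set.range fun v : ι × κ => monomial (Finsupp.single v.1 1) (g v.1 v.2))

theorem tors_mem {n : ι →₀ ℕ} {b : K} (hb : b ∈ BB k g n) : monomial n b ∈ tors_A k g := by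
  refine tors_BB_le (fun n => (tors_A k g).toSubmodule.comap ((monomial n).restrictScalars k))
    (Submodule.one_le.2 (one_mem (tors_A k g))) (fun n m => Submodule.mul_le.2 fun x hx y hy => ?_)
    (fun i => Submodule.span_le.2 ?_) n hb
  · have := mul_mem (s := tors_A k g) hx hy
    simp only [LinearMap.restrictScalars_apply, monomial_mul] at this
    exact this
  · rintro _ ⟨a, rfl⟩
    exact Algebra.subset_adjoin ⟨(i, a), rfl⟩

theorem tors_coeff {p : MvPolynomial ι K} (hp : p ∈ tors_A k g) (n : ι →₀ ℕ) :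
    coeff n p ∈ BB k g n := by
  classical
  induction hp using Algebra.adjoin_induction generalizing n with
  | mem p hp =>
    obtain ⟨⟨i, a⟩, rfl⟩ := hp
    rw [coeff_monomial]
    split_ifs with h
    · rw [← h, Finsupp.single_eq_pi_single, BB_single, pow_one]
      exact Submodule.subset_span ⟨a, rfl⟩
    · exact zero_mem _
  | algebraMap r =>
    rw [MvPolynomial.algebraMap_apply, coeff_C]
    split_ifs with h
    · rw [← h, Finsupp.coe_zero, BB_zero]
      exact Submodule.algebraMap_mem r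
    · exact zero_mem _
  | add p q _ _ hp hq =>
    rw [coeff_add]
    exact add_mem (hp n) (hq n)
  | mul p q _ _ hp hq =>
    rw [coeff_mul]
    refine sum_mem fun v hv => ?_
    rw [← Finset.HasAntidiagonal.mem_antidiagonal.1 hv, Finsupp.coe_add]
    exact BB_mul (hp _) (hq _)

/-- Every family of homogeneous elements is generated by finitely many of them. -/
theorem tors_gen [Finite κ] (Sat : (ι →₀ ℕ) → K → Prop) (hS : ∀ n b, Sat n b → b ∈ BB k g n) :
    ∃ T : Finset ((ι →₀ ℕ) × K), (∀ s ∈ T, Sat s.1 s.2) ∧ ∀ n b, Sat n b →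
      ∀ P : Submodule k K, (∀ s ∈ T, ∀ c ∈ BB k g (⇑n - ⇑s.1), c * s.2 ∈ P) → b ∈ P := by
  classical
  have : IsNoetherianRing (tors_A k g) :=
    isNoetherianRing_of_fg (Subalgebra.fg_def.2 ⟨_, Set.finite_range _, rfl⟩)
  obtain ⟨T, hT, e⟩ := (Submodule.fg_span_iff_fg_span_finset_subset (R := tors_A k g)
    {p : tors_A k g | ∃ s : (ι →₀ ℕ) × K, Sat s.1 s.2 ∧ p.1 = monomial s.1 s.2}).1
    (IsNoetherian.noetherian _)
  choose! s hs1 hs2 using fun (p : tors_A k g) (hp : p ∈ T) => hT hp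
  refine ⟨T.image s, fun a ha => ?_, fun n b hb P hP => ?_⟩
  · obtain ⟨p, hp, rfl⟩ := Finset.mem_image.1 ha
    exact hs1 p hp
  have h1 : (⟨monomial n b, tors_mem (hS n b hb)⟩ : tors_A k g) ∈
      Submodule.span (tors_A k g) (T : Set (tors_A k g)) :=
    e ▸ Submodule.subset_span ⟨(n, b), hb, rfl⟩
  obtain ⟨c, -, hc⟩ := Submodule.mem_span_finset.1 h1
  have h2 := congrArg (fun p : tors_A k g => coeff n p.1) hc
  simp only [coeff_monomial, if_true, AddSubmonoidClass.coe_finsetSum, coeff_sum, smul_eq_mul,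
    MulMemClass.coe_mul] at h2
  rw [← h2]
  refine sum_mem fun p hp => ?_
  rw [hs2 p hp, coeff_mul_monomial']
  split_ifs
  · have h3 := tors_coeff (c p).2 (n - (s p).1)
    rw [Finsupp.coe_tsub] at h3
    exact hP _ (Finset.mem_image_of_mem _ hp) _ h3
  · exact zero_mem _

variable (k g) in
/-- The piece of multidegree `n` of the ideal generated by `f` and `x`. -/
noncomputable def tors_J (nf nx : ι → ℕ) (f x : K) (n : ι → ℕ) : Submodule k K :=
  (BB k g (n - nf)).map (LinearMap.mulLeft k f) ⊔ (BB k g (n - nx)).map (LinearMap.mulLeft k x)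

theorem tors_mem_J {nf nx n : ι → ℕ} {f x b : K} : b ∈ tors_J k g nf nx f x n ↔
    ∃ y ∈ BB k g (n - nf), ∃ z ∈ BB k g (n - nx), b = f * y + x * z := by
  rw [tors_J, Submodule.mem_sup]
  constructor
  · rintro ⟨_, ⟨y, hy, rfl⟩, _, ⟨z, hz, rfl⟩, rfl⟩
    exact ⟨y, hy, z, hz, rfl⟩
  · rintro ⟨y, hy, z, hz, rfl⟩
    exact ⟨_, ⟨y, hy, rfl⟩, _, ⟨z, hz, rfl⟩, rfl⟩

theorem tors_J_mul {nf nx n m : ι → ℕ} {f x b c : K} (h1 : nf ≤ n) (h2 : nx ≤ n)
    (hb : b ∈ tors_J k g nf nx f x n) (hc : c ∈ BB k g m) :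
    c * b ∈ tors_J k g nf nx f x (m + n) := by
  obtain ⟨y, hy, z, hz, rfl⟩ := tors_mem_J.1 hb
  refine tors_mem_J.2 ⟨c * y, ?_, c * z, ?_, by ring⟩
  · rw [add_tsub_assoc_of_le h1]
    exact BB_mul hc hy
  · rw [add_tsub_assoc_of_le h2]
    exact BB_mul hc hz

theorem tors_clear {α : ι → κ} (hα : Val g α) {n m : ι → ℕ} (h : m ≤ n) {y : K}
    (hy : y ∈ LB k g α fun i => n i - m i) :
    ∀ᶠ M : ℕ in Filter.atTop, gz g α (fun _ => M) * y ∈ BB k g ((fun _ => M) + n - m) := by
  obtain ⟨M, hM⟩ := exists_BB hα (mem_LB.1 hy)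
  filter_upwards [Filter.eventually_ge_atTop M] with M' hM'
  have h1 := BB_mul (hM M' hM') (gz_mem_BB (k := k) (g := g) α (n - m))
  have e : (fun i => (((n - m) i : ℕ) : ℤ)) = fun i => (n i : ℤ) - m i :=
    funext fun i => Nat.cast_sub (h i)
  rwa [e, mul_assoc, div_mul_cancel₀ _ (gz_ne hα _), ← add_tsub_assoc_of_le h] at h1

end

theorem pTORS (k K : Type u) [Field k] [Field K] [Algebra k K]
    (hPIG : E_PIG k K) :
    E_TORS k K := by
  classical
  intro ι κ _ _ g nf nx f x _ _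
  obtain ⟨T, hT, hgen⟩ := tors_gen (k := k) (g := g) (fun n b => b ∈ BB k g n ∧ ∀ α, Val g α →
    ∀ᶠ M : ℕ in Filter.atTop, gz g α (fun _ => M) * b ∈ tors_J k g nf nx f x ((fun _ => M) + ⇑n))
    fun _ _ h => h.1
  obtain ⟨t, ht, ht'⟩ := (((Filter.eventually_all_finset T).2 fun s hs => Filter.eventually_all.2
    fun α => Filter.eventually_imp_distrib_left.2 ((hT s hs).2 α)).and
      (Filter.eventually_gt_atTop (∑ i, nf i + ∑ i, nx i))).exists
  have h1 : ∀ (m : ι → ℕ) i, m i ≤ ∑ i, m i := fun m i =>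
    Finset.single_le_sum (fun _ _ => Nat.zero_le _) (Finset.mem_univ i)
  refine ⟨Fintype.card κ * t + t + ∑ s ∈ T, ∑ i, s.1 i, fun n hn b hb hloc => ?_⟩
  obtain ⟨n, rfl⟩ : ∃ n' : ι →₀ ℕ, ⇑n' = n := Finsupp.equivFunOnFinite.surjective n
  refine tors_mem_J.1 (hgen n b ⟨hb, fun α hα => ?_⟩ _ fun s hs c hc => ?_)
  · obtain ⟨y, hy, z, hz, rfl⟩ := hloc α hα
    have h4 : ∀ i, t ≤ n i := fun i => by have := hn i; omega
    have hf : nf ≤ n := fun i => (h1 nf i).trans (le_trans (by omega) (h4 i))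
    have hx : nx ≤ n := fun i => (h1 nx i).trans (le_trans (by omega) (h4 i))
    filter_upwards [tors_clear hα hf hy, tors_clear hα hx hz] with M h2 h3
    exact tors_mem_J.2 ⟨_, h2, _, h3, by ring⟩
  · have h2 : ∀ i, Fintype.card κ * t + t + s.1 i ≤ n i := fun i => by
      have := hn i
      have := h1 s.1 i
      have := Finset.single_le_sum (f := fun s : (ι →₀ ℕ) × K => ∑ i, s.1 i)
        (fun _ _ => Nat.zero_le _) hs
      omega
    obtain ⟨β, hβ, hβ0, rfl⟩ := hPIG ι κ g t (⇑n - ⇑s.1) (by omega)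
      (fun i => Nat.le_sub_of_add_le (h2 i)) c hc
    rw [Finset.sum_mul]
    refine sum_mem fun α _ => ?_
    by_cases hα : Val g α
    · have h3 := tors_J_mul (fun i => by
        have := h1 nf i
        change nf i ≤ t + s.1 i
        omega) (fun i => by
        have := h1 nx i
        change nx i ≤ t + s.1 i
        omega) (ht s hs α hα) (hβ α)
      have e : (⇑n - ⇑s.1 - fun _ => t) + ((fun _ => t) + ⇑s.1) = ⇑n := by
        funext i
        have := h2 i
        simp only [Pi.add_apply, Pi.sub_apply]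
        omega
      rwa [e, ← mul_assoc] at h3
    · rw [hβ0 α hα, zero_mul, zero_mul]
      exact zero_mem _

end Pool.Agent.P.MP_6f117a_ag.EX
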