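import Pool.Agent.P.MP_6f117a_ag.E.Iface

/-! Step TRI of the proof of the existence of sections. -/

namespace Pool.Agent.P.MP_6f117a_ag.EX

open Module MvPolynomial

universe u

section

variable {k K : Type u} [Field k] [Field K] [Algebra k K]

/-- Change of chart for the filtrations. -/
theorem tri_sub {ι κ : Type} [Fintype ι] {g : ι → κ → K} {α β : ι → κ} (hα : Val g α)
    (hβ : Val g β) {V : Type u} [CommRing V] [Algebra K V] {p n : ℕ} {X X' : Type}
    {W : Fin n × X → V} {W' : Fin n × X' → V}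
    (h : ∀ v, ∃ M : ℕ, algebraMap K V (tr g α β ^ M) * W' v ∈
      Fil p (RR k g β) W (v.1 + 1) (lw p n X' v)) {L w : ℕ} {s : V}
    (hs : s ∈ Fil p (RR k g α) W' L w) :
    ∃ M : ℕ, algebraMap K V (tr g α β ^ M) * s ∈ Fil p (RR k g β) W L w := by
  choose M hM using h
  induction hs using Submodule.span_induction with
  | mem s hs =>
    obtain ⟨a, h1, h2, rfl⟩ := hs
    refine ⟨a.sum fun v e => M v * e, ?_⟩
    have h3 := Fil.mono le_rfl h2 (Fil.prod_mem hM a h1)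
    have e1 : (a.prod fun v e => (algebraMap K V (tr g α β ^ M v) * W' v) ^ e) =
        algebraMap K V (tr g α β ^ a.sum fun v e => M v * e) * a.prod fun v e => W' v ^ e := by
      simp only [Finsupp.prod, Finsupp.sum, mul_pow, Finset.prod_mul_distrib, map_pow, ← pow_mul,
        Finset.prod_pow_eq_pow_sum]
    rwa [e1] at h3
  | zero => exact ⟨0, by rw [mul_zero]; exact zero_mem _⟩
  | add s t _ _ h1 h2 =>
    obtain ⟨M₁, h1⟩ := h1
    obtain ⟨M₂, h2⟩ := h2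
    refine ⟨M₁ + M₂, ?_⟩
    have h3 := Fil.algebraMap_mul (pow_mem (tr_mem (k := k) (g := g) α β) M₂) h1
    have h4 := Fil.algebraMap_mul (pow_mem (tr_mem (k := k) (g := g) α β) M₁) h2
    have h5 := add_mem h3 h4
    have e1 : algebraMap K V (tr g α β ^ (M₁ + M₂)) * (s + t) =
        algebraMap K V (tr g α β ^ M₂) * (algebraMap K V (tr g α β ^ M₁) * s) +
        algebraMap K V (tr g α β ^ M₁) * (algebraMap K V (tr g α β ^ M₂) * t) := by
      simp only [map_pow]; ring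
    rwa [e1]
  | smul c s _ h1 =>
    obtain ⟨M₁, h1⟩ := h1
    obtain ⟨M₂, h2⟩ := exists_tr hα hβ (mem_LB_zero.2 c.2)
    refine ⟨M₁ + M₂, ?_⟩
    have h3 := Fil.algebraMap_mul (mem_LB_zero.1 (h2 M₂ le_rfl)) h1
    have e1 : algebraMap K V (tr g α β ^ (M₁ + M₂)) * (c • s) =
        algebraMap K V (tr g α β ^ M₂ * c) * (algebraMap K V (tr g α β ^ M₁) * s) := by
      rw [Subalgebra.smul_def, Algebra.smul_def]
      simp only [map_pow, map_mul]; ring
    rwa [e1]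

/-- Elements of the filtration are combinations of the monomials of bounded weight. -/
theorem tri_comb {V : Type u} [CommRing V] [Algebra K V] {p n D m : ℕ} (hp : 0 < p)
    {R : Subalgebra k K} {W : Fin n × Fin D → V} {L : ℕ} {s : V} (hs : s ∈ Fil p R W L m) :
    ∃ c : AA p n D m → K, (∀ a, c a ∈ R) ∧
      s = ∑ a, c a • (a.1.prod fun v e => W v ^ e) := by
  have h1 : Fil p R W L m ≤ Submodule.span R
      (Set.range fun a : AA p n D m => a.1.prod fun v e => W v ^ e) :=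
    Submodule.span_mono fun _ ⟨a, _, h2, h3⟩ => ⟨⟨a, (mem_AA hp).2 h2⟩, h3.symm⟩
  obtain ⟨c, hc⟩ := (Submodule.mem_span_range_iff_exists_fun R).1 (h1 hs)
  exact ⟨fun a => c a, fun a => (c a).2, hc.symm⟩

theorem tri_pow {R R' : Subalgebra k K} (hR : R ≤ R') {S : Set K} {x : K}
    (h : ∀ s ∈ S, s / x ∈ R') (r : ℕ) : ∀ s ∈ Submodule.span R S ^ r, s / x ^ r ∈ R' := by
  have h0 : ∀ s ∈ Submodule.span R S, s / x ∈ R' := fun s hs => by
    induction hs using Submodule.span_induction with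
    | mem s hs => exact h s hs
    | zero => rw [zero_div]; exact zero_mem _
    | add s t _ _ h1 h2 => rw [add_div]; exact add_mem h1 h2
    | smul c s _ h1 =>
      rw [Subalgebra.smul_def, smul_eq_mul, mul_div_assoc]; exact mul_mem (hR c.2) h1
  induction r with
  | zero =>
    intro s hs
    rw [pow_zero] at hs
    obtain ⟨c, rfl⟩ := Submodule.mem_one.1 hs
    rw [pow_zero, div_one]
    exact hR c.2
  | succ r ih =>
    intro s hs
    rw [pow_succ] at hs
    refine Submodule.mul_induction_on hs (fun a ha b hb => ?_) fun a b ha hb => ?_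
    · rw [pow_succ, mul_div_mul_comm]; exact mul_mem (ih a ha) (h0 b hb)
    · rw [add_div]; exact add_mem ha hb

theorem tri_prod {p n D : ℕ} (t : Fin D → K) (a : Fin n × Fin D →₀ ℕ) :
    (a.prod fun v e => (t v.2 ^ p ^ ((v.1 : ℕ) + 1)) ^ e) = ∏ i, t i ^ Am p a i := by
  rw [Finsupp.prod_fintype _ _ (by simp), Fintype.prod_prod_type_right]
  simp only [Am, ← pow_mul, Finset.prod_pow_eq_pow_sum]

theorem tri_gz {d : ℕ} {B : Type} (J : Fin (d + 1) → B → K) (y : B → K) (h : Fin (d + 1) → K)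
    (α : Fin (d + 1) ⊕ Bool → (Fin (d + 1) → B) × B × Fin (d + 1)) (n : Fin (d + 1) ⊕ Bool → ℤ) :
    gz (gs J y h) α n = (∏ i : Fin (d + 1), minor J i (α (.inl i)).1 ^ n (.inl i)) *
      (h (α (.inr true)).2.2 ^ n (.inr true) * y (α (.inr false)).2.1 ^ n (.inr false)) := by
  rw [gz, mz, Fintype.prod_sum_type, Fintype.prod_bool]; rfl

theorem tri_diag {p n d r μ e : ℕ} {B : Type} (J : Fin (d + 1) → B → K) (y : B → K)
    (h : Fin (d + 1) → K) {α : Fin (d + 1) ⊕ Bool → (Fin (d + 1) → B) × B × Fin (d + 1)}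
    (hα : Val (gs J y h) α) (a : Fin n × Fin (d + 1) →₀ ℕ) :
    gz (gs J y h) α (ddE p r μ e (0 : Fin n × Fin (d + 1) →₀ ℕ)) *
      ∏ i : Fin (d + 1), (mi J (fun i => (α (.inl i)).1) i / mi J (fun i => (α (.inl i)).1) (i + 1) /
        y (α (.inr false)).2.1) ^ Am p a i = gz (gs J y h) α (ddE p r μ e a) := by
  set n' : Fin (d + 1) ⊕ Bool → ℤ := ddE p r μ e a - ddE p r μ e (0 : Fin n × Fin (d + 1) →₀ ℕ)
    with hn'
  have e0 : ddE p r μ e a = ddE p r μ e (0 : Fin n × Fin (d + 1) →₀ ℕ) + n' := by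
    rw [hn', add_sub_cancel]
  rw [e0, gz_add hα]
  congr 1
  have hA : ∀ i, Am p (0 : Fin n × Fin (d + 1) →₀ ℕ) i = 0 := fun i => by simp [Am]
  have hg : ∀ i : Fin (d + 1), minor J i (α (.inl i)).1 ≠ 0 := fun i => hα (.inl i)
  have hy : y (α (.inr false)).2.1 ≠ 0 := hα (.inr false)
  have n0 : n' (.inl 0) = Am p a 0 := by simp [hn', ddE, hA]
  have n1 : ∀ j : Fin d, n' (.inl j.succ) = Am p a j.succ - Am p a j.castSucc := fun j => by
    simp [hn', ddE, hA]
  have n2 : n' (.inr true) = 0 := by simp [hn', ddE]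
  have n3 : n' (.inr false) = -((∑ i, Am p a i : ℕ) : ℤ) := by
    simp only [hn', ddE, hA, Pi.sub_apply, Finset.sum_sub_distrib, Nat.cast_sum, Nat.cast_zero,
      Finset.sum_const_zero]
    ring
  have m1 : ∀ i : Fin (d + 1), mi J (fun i => (α (.inl i)).1) i = minor J i (α (.inl i)).1 :=
    fun i => by simp [mi, i.2]
  have m2 : mi J (fun i => (α (.inl i)).1) ((Fin.last d : ℕ) + 1) = 1 := by simp [mi]
  have m3 : ∀ j : Fin d, mi J (fun i => (α (.inl i)).1) ((j.castSucc : ℕ) + 1) =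
      minor J (j.succ : Fin (d + 1)) (α (.inl j.succ)).1 := fun j => m1 j.succ
  rw [tri_gz, n2, n3, zpow_zero, one_mul, zpow_neg, zpow_natCast]
  simp only [div_pow, Finset.prod_div_distrib, Finset.prod_pow_eq_pow_sum, m1]
  rw [div_eq_mul_inv]
  congr 1
  rw [Fin.prod_univ_castSucc (fun i : Fin (d + 1) =>
    mi J (fun i => (α (.inl i)).1) ((i : ℕ) + 1) ^ Am p a i), m2, one_pow, mul_one,
    Fin.prod_univ_succ, Fin.prod_univ_succ, n0, zpow_natCast, mul_div_assoc,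
    ← Finset.prod_div_distrib]
  congr 1
  refine Finset.prod_congr rfl fun j _ => ?_
  rw [m3, n1, zpow_sub₀ (hg _), zpow_natCast, zpow_natCast]

theorem tri_eps {p n d r C₀ : ℕ} {B : Type} [Fintype B] [DecidableEq B]
    (E : ED k K p n d r C₀ B) (μ e : ℕ)
    {α : Fin (d + 1) ⊕ Bool → (Fin (d + 1) → B) × B × Fin (d + 1)}
    (hα : Val (gs E.J E.y E.h) α) :
    E.y (α (.inr false)).2.1 ^ e * gz (gs E.J E.y E.h) α
      (ddE p r μ e (0 : Fin n × Fin (d + 1) →₀ ℕ)) ∈ RR k (gs E.J E.y E.h) α := by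
  have hg : ∀ i : Fin (d + 1), minor E.J i (α (.inl i)).1 ≠ 0 := fun i => hα (.inl i)
  have hy : E.y (α (.inr false)).2.1 ≠ 0 := hα (.inr false)
  have hR : Rc k E.y (α (.inr false)).2.1 ≤ RR k (gs E.J E.y E.h) α := by
    refine Algebra.adjoin_le ?_
    rintro _ ⟨b, rfl⟩
    exact div_mem_RR (g := gs E.J E.y E.h) α (.inr false) ((α (.inr false)).1, b, 0)
  have h1 := tri_pow hR (x := minor E.J ((0 : Fin (d + 1)) : ℕ) (α (.inl 0)).1) (by
    rintro _ ⟨a, rfl⟩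
    exact div_mem_RR (g := gs E.J E.y E.h) α (.inl 0) (a, (α (.inr false)).2)) r _
    (E.plu _ hy (α (.inr true)).2.2)
  have hA : ∀ i, Am p (0 : Fin n × Fin (d + 1) →₀ ℕ) i = 0 := fun i => by simp [Am]
  have n0 : ddE p r μ e (0 : Fin n × Fin (d + 1) →₀ ℕ) (.inl 0) = -((r * μ : ℕ) : ℤ) := by
    simp [ddE, hA]
  have n1 : ∀ j : Fin d, ddE p r μ e (0 : Fin n × Fin (d + 1) →₀ ℕ) (.inl j.succ) = 0 :=
    fun j => by simp [ddE, hA]
  have n2 : ddE p r μ e (0 : Fin n × Fin (d + 1) →₀ ℕ) (.inr true) = μ := rfl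
  have n3 : ddE p r μ e (0 : Fin n × Fin (d + 1) →₀ ℕ) (.inr false) =
      ((r * (d + 1) * μ : ℕ) : ℤ) - e := by
    simp only [ddE, hA, Nat.cast_zero, zero_sub, Finset.sum_const, Finset.card_univ,
      Fintype.card_fin, nsmul_eq_mul]
    push_cast; ring
  have e1 : E.y (α (.inr false)).2.1 ^ e * gz (gs E.J E.y E.h) α
      (ddE p r μ e (0 : Fin n × Fin (d + 1) →₀ ℕ)) =
      (E.h (α (.inr true)).2.2 * E.y (α (.inr false)).2.1 ^ (r * (d + 1)) /
        minor E.J ((0 : Fin (d + 1)) : ℕ) (α (.inl 0)).1 ^ r) ^ μ := by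
    rw [tri_gz, Fin.prod_univ_succ, n0, n2, n3, zpow_sub₀ hy, zpow_neg]
    simp only [n1, zpow_zero, Finset.prod_const_one, zpow_natCast, div_pow, mul_pow, ← pow_mul]
    field_simp
  rw [e1]
  exact pow_mem h1 μ

end

theorem pTRI (k K : Type u) [Field k] [Field K] [Algebra k K]
    (hLEAD : E_LEAD K) (hZETA : E_ZETA k K) :
    E_TRI k K := by
  intro p n d r C₀ hp _ B _ _ E m μ e
  have hp0 : 0 < p := hp.out.pos
  obtain ⟨mo, hmo⟩ := hLEAD n (d + 1)
  have hz : ∀ α : Fin (d + 1) ⊕ Bool → (Fin (d + 1) → B) × B × Fin (d + 1),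
      ∃ ζ : Fin n × Fin (d + 1) → PV K n (d + 1), Val (gs E.J E.y E.h) α →
      (∀ v, ζ v ∈ Fil p (RR k (gs E.J E.y E.h) α) (nz p E.Z (E.y (α (.inr false)).2.1)) (v.1 + 1)
        (lw p n _ v)) ∧
      (∀ v, nz p E.Z (E.y (α (.inr false)).2.1) v ∈ Fil p (RR k (gs E.J E.y E.h) α) ζ (v.1 + 1)
        (lw p n _ v)) ∧
      Lead ζ fun v => (mi E.J (fun i => (α (.inl i)).1) v.2 /
        mi E.J (fun i => (α (.inl i)).1) (v.2 + 1) /
        E.y (α (.inr false)).2.1) ^ p ^ ((v.1 : ℕ) + 1) := fun α => by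
    by_cases hα : Val (gs E.J E.y E.h) α
    · obtain ⟨ζ, hζ⟩ := hZETA p n d r C₀ B E α hα
      exact ⟨ζ, fun _ => hζ⟩
    · exact ⟨0, fun h => absurd h hα⟩
  choose ζ hζ using hz
  set n₀ := ddE p r μ e (0 : Fin n × Fin (d + 1) →₀ ℕ) with hn₀
  let o : LinearOrder (AA p n (d + 1) m) :=
    LinearOrder.lift' (fun a => mo.toSyn a.1) fun a b hab => Subtype.ext (mo.toSyn.injective hab)
  refine ⟨o, fun a => lcoeff K a.1, fun α a => C (gz (gs E.J E.y E.h) α n₀) *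
    a.1.prod fun v e => ζ α v ^ e, ⟨fun α hα a a' h => ?_, fun α hα a => ?_,
      fun α β hα hβ a => ?_⟩, fun α hα a => ?_⟩
  · rw [lcoeff_apply, coeff_C_mul, (hmo _ _ (hζ α hα).2.2 a.1).1 a'.1 h, mul_zero]
  · rw [lcoeff_apply, coeff_C_mul, (hmo _ _ (hζ α hα).2.2 a.1).2,
      tri_prod (fun i : Fin (d + 1) => mi E.J (fun i => (α (.inl i)).1) i /
        mi E.J (fun i => (α (.inl i)).1) (i + 1) / E.y (α (.inr false)).2.1), tri_diag _ _ _ hα]
  · have hy : E.y (α (.inr false)).2.1 ≠ 0 := hα (.inr false)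
    have hy' : E.y (β (.inr false)).2.1 ≠ 0 := hβ (.inr false)
    have h1 : ∀ v, ∃ M : ℕ, algebraMap K (PV K n (d + 1)) (tr (gs E.J E.y E.h) α β ^ M) *
        nz p E.Z (E.y (α (.inr false)).2.1) v ∈
        Fil p (RR k (gs E.J E.y E.h) β) (ζ β) (v.1 + 1) (lw p n _ v) := fun v => by
      obtain ⟨M, hM⟩ := exists_tr hα hβ (mem_LB_zero.2 (pow_mem (div_mem_RR (k := k)
        (g := gs E.J E.y E.h) α (.inr false) (β (.inr false))) (p ^ ((v.1 : ℕ) + 1))))
      refine ⟨M, ?_⟩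
      have h2 := Fil.algebraMap_mul (mem_LB_zero.1 (hM M le_rfl)) ((hζ β hβ).2.1 v)
      have e1 : algebraMap K (PV K n (d + 1)) (tr (gs E.J E.y E.h) α β ^ M) *
          nz p E.Z (E.y (α (.inr false)).2.1) v =
          algebraMap K (PV K n (d + 1)) (tr (gs E.J E.y E.h) α β ^ M *
            (E.y (β (.inr false)).2.1 / E.y (α (.inr false)).2.1) ^ p ^ ((v.1 : ℕ) + 1)) *
          nz p E.Z (E.y (β (.inr false)).2.1) v := by
        simp only [nz, algebraMap_eq, ← mul_assoc, ← C_mul]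
        congr 2
        rw [div_pow]
        field_simp
      rw [e1]
      exact h2
    have h2 := fun v => tri_sub hα hβ h1 ((hζ α hα).1 v)
    obtain ⟨M₁, h3⟩ := tri_sub hα hβ h2 (Fil.mono le_rfl ((mem_AA hp0).1 a.2)
      (Fil.prod_mem (L := n) Fil.gen a.1 fun v _ => v.1.2))
    obtain ⟨c, hc, h4⟩ := tri_comb hp0 h3
    obtain ⟨M₂, h5⟩ := exists_tr (k := k) hα hβ (gz_mem_LB hα n₀)
    refine ⟨M₂ + M₁, fun a' => tr (gs E.J E.y E.h) α β ^ M₂ * gz (gs E.J E.y E.h) α n₀ /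
      gz (gs E.J E.y E.h) β n₀ * c a', fun a' => mul_mem (mem_LB.1 (h5 M₂ le_rfl)) (hc a'), ?_⟩
    have e1 : tr (gs E.J E.y E.h) α β ^ (M₂ + M₁) • (C (gz (gs E.J E.y E.h) α n₀) *
        a.1.prod fun v e => ζ α v ^ e) = (tr (gs E.J E.y E.h) α β ^ M₂ *
          gz (gs E.J E.y E.h) α n₀) • (algebraMap K (PV K n (d + 1))
            (tr (gs E.J E.y E.h) α β ^ M₁) * a.1.prod fun v e => ζ α v ^ e) := by
      simp only [smul_eq_C_mul, algebraMap_eq, map_mul, map_pow]; ring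
    rw [e1, h4, Finset.smul_sum]
    refine Finset.sum_congr rfl fun a' _ => ?_
    rw [← smul_eq_C_mul, smul_smul, smul_smul]
    congr 1
    field_simp [gz_ne hβ]
  · rw [← mul_assoc, ← C_mul, ← algebraMap_eq]
    exact Fil.algebraMap_mul (tri_eps E μ e hα) (Fil.mono le_rfl ((mem_AA hp0).1 a.2)
      (Fil.prod_mem (hζ α hα).1 a.1 fun v _ => v.1.2))

end Pool.Agent.P.MP_6f117a_ag.EX
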