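import Pool.Agent.P.MP_6f117a_ag.E.Iface

/-! Step ZETA of the proof of the existence of sections. -/

namespace Pool.Agent.P.MP_6f117a_ag.EX

open Module MvPolynomial

universe u

section

variable {k K : Type u} [Field k] [Field K] [Algebra k K]

theorem zeta_subst {V : Type u} [CommRing V] [Algebra K V] {p n L w : ℕ} {X X' : Type}
    {W : Fin n × X → V} {W' : Fin n × X' → V} {R R' : Subalgebra k K} (hR : R' ≤ R)
    (h : ∀ v : Fin n × X', (v.1 : ℕ) < L → W' v ∈ Fil p R W (v.1 + 1) (lw p n X' v)) {s : V}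
    (hs : s ∈ Fil p R' W' L w) : s ∈ Fil p R W L w := by
  refine Fil.subst (W' := fun v => if (v.1 : ℕ) < L then W' v else 0) hR (fun v => ?_)
    (Submodule.span_mono ?_ hs)
  · split_ifs with hv
    exacts [h v hv, zero_mem _]
  · rintro _ ⟨a, h1, h2, rfl⟩
    exact ⟨a, h1, h2, Finsupp.prod_congr fun v hv => by simp only [if_pos (h1 v hv)]⟩

theorem zeta_id {R : Subalgebra k K} {D T : ℕ} {B : Type} [Fintype B] [DecidableEq B]
    {J G Θ : Fin D → B → K} {H : B → Fin D → K} {ρ : Fin T → B → K} {lam : B → Fin T → K}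
    (hG : ∀ i b, G i b ∈ R) (hH : ∀ b i, H b i ∈ R) (hl : ∀ b t, lam b t ∈ R)
    (h1 : ∀ b r, J r b = ∑ i, H b i * ∑ b', G i b' * J r b')
    (h2 : ∀ b b', (if b = b' then 1 else 0) = ∑ t, lam b t * ρ t b' + ∑ i, J i b * Θ i b') :
    ∃ μ : B → Fin T → K, (∀ b t, μ b t ∈ R) ∧
      ∀ b b', (if b = b' then 1 else 0) = ∑ i, H b i * G i b' + ∑ t, μ b t * ρ t b' := by
  have e1 : (Matrix.of J).transpose = Matrix.of H * (Matrix.of G * (Matrix.of J).transpose) := by
    ext b r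
    exact h1 b r
  have e2 : (1 : Matrix B B K) =
      Matrix.of lam * Matrix.of ρ + (Matrix.of J).transpose * Matrix.of Θ := by
    ext b b'
    exact h2 b b'
  have e3 : (1 : Matrix B B K) = Matrix.of H * Matrix.of G +
      (1 - Matrix.of H * Matrix.of G) * Matrix.of lam * Matrix.of ρ := by
    have : (1 - Matrix.of H * Matrix.of G) * (Matrix.of J).transpose = 0 := by
      rw [Matrix.sub_mul, Matrix.one_mul, Matrix.mul_assoc, ← e1, sub_self]
    rw [Matrix.mul_assoc, ← sub_eq_iff_eq_add.2 e2, Matrix.mul_sub, ← Matrix.mul_assoc, this,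
      Matrix.zero_mul, Matrix.mul_one, sub_zero, add_sub_cancel]
  refine ⟨fun b t => ((1 - Matrix.of H * Matrix.of G) * Matrix.of lam : Matrix B (Fin T) K) b t,
    fun b t => ?_,
    fun b b' => congrFun (congrFun e3 b) b'⟩
  beta_reduce
  rw [Matrix.mul_apply]
  refine sum_mem fun b' _ => mul_mem ?_ (hl b' t)
  rw [Matrix.sub_apply, Matrix.mul_apply, Matrix.one_apply]
  refine sub_mem ?_ (sum_mem fun i _ => mul_mem (hH b i) (hG i b'))
  split_ifs
  exacts [one_mem _, zero_mem _]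

end

theorem pZETA (k K : Type u) [Field k] [Field K] [Algebra k K]
    (hFRAME : E_FRAME k K) :
    E_ZETA k K := by
  intro p n d r C₀ hp _ B _ _ E α hα
  obtain ⟨G, H, hG, hH, g1, g2, g3⟩ := hFRAME (RR k (gs E.J E.y E.h) α) (d + 1) B E.J
    (fun i => (α (.inl i)).1) (fun i => hα (.inl i))
    fun i a' => div_mem_RR (g := gs E.J E.y E.h) α (.inl i) (a', (α (.inl i)).2)
  have y0 : E.y (α (.inr false)).2.1 ≠ 0 := hα (.inr false)
  have hR : Rc k E.y (α (.inr false)).2.1 ≤ RR k (gs E.J E.y E.h) α := by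
    refine Algebra.adjoin_le ?_
    rintro _ ⟨b, rfl⟩
    exact div_mem_RR (g := gs E.J E.y E.h) α (.inr false) ((α (.inr false)).1, b, 0)
  obtain ⟨T, ρ, lam, Θ, r1, r2, r3⟩ := E.rel _ y0
  obtain ⟨μ, m1, m2⟩ := zeta_id hG hH (fun b t => hR (r1 b t)) g3 r2
  generalize RR k (gs E.J E.y E.h) α = R at hG hH hR m1 ⊢
  generalize (α (.inr false)).2.1 = c at y0 hR r1 r3 ⊢
  refine ⟨fun v => ∑ b, C (G v.2 b ^ p ^ ((v.1 : ℕ) + 1)) * nz p E.Z (E.y c) (v.1, b),
    fun v => sum_mem fun b _ => Fil.algebraMap_mul (pow_mem (hG _ b) _) (Fil.gen (v.1, b)), ?_, ?_⟩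
  · suffices h : ∀ (L : ℕ) (v : Fin n × B), (v.1 : ℕ) < L → nz p E.Z (E.y c) v ∈ Fil p R
        (fun v : Fin n × Fin (d + 1) => ∑ b, C (G v.2 b ^ p ^ ((v.1 : ℕ) + 1)) *
          nz p E.Z (E.y c) (v.1, b)) (v.1 + 1) (lw p n _ v) from
      fun v => h _ v (Nat.lt_succ_self _)
    intro L
    induction L with
    | zero => exact fun v hv => absurd hv (Nat.not_lt_zero _)
    | succ L ih =>
      rintro ⟨l, b⟩ hv
      have e : nz p E.Z (E.y c) (l, b) =
          ∑ i, C (H b i ^ p ^ ((l : ℕ) + 1)) *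
            ∑ b', C (G i b' ^ p ^ ((l : ℕ) + 1)) * nz p E.Z (E.y c) (l, b') +
          ∑ t, C (μ b t ^ p ^ ((l : ℕ) + 1)) *
            ∑ b', C (ρ t b' ^ p ^ ((l : ℕ) + 1)) * nz p E.Z (E.y c) (l, b') := by
        have e1 : nz p E.Z (E.y c) (l, b) = ∑ b', C (iterateFrobenius K p (l + 1)
            (if b = b' then 1 else 0)) * nz p E.Z (E.y c) (l, b') := by
          rw [Finset.sum_eq_single b (fun b' _ h => by simp [h.symm]) (by simp)]
          simp
        rw [e1]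
        simp only [m2, map_add, map_sum, map_mul, add_mul, Finset.sum_add_distrib, Finset.sum_mul,
          Finset.mul_sum, iterateFrobenius_def, mul_assoc]
        rw [Finset.sum_comm, Finset.sum_comm (γ := Fin T)]
      rw [e]
      refine add_mem (sum_mem fun i _ => Fil.algebraMap_mul (pow_mem (hH b i) _) ?_)
        (sum_mem fun t _ => Fil.algebraMap_mul (pow_mem (m1 b t) _) ?_)
      · exact Fil.gen (W := fun v : Fin n × Fin (d + 1) =>
          ∑ b, C (G v.2 b ^ p ^ ((v.1 : ℕ) + 1)) * nz p E.Z (E.y c) (v.1, b)) (l, i)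
      · exact Fil.mono (Nat.le_succ _) le_rfl (zeta_subst hR
          (fun v hv' => ih v (hv'.trans_le (Nat.lt_succ_iff.1 hv))) (r3 t l))
  · rintro ⟨l, i⟩
    refine ⟨fun s => ((∑ b, G i b * E.J s b) / E.y c) ^ p ^ ((l : ℕ) + 1), fun s hs => ?_, ?_, ?_⟩
    · beta_reduce
      rw [g1 i s hs, zero_div, zero_pow (pow_ne_zero _ hp.out.ne_zero)]
    · beta_reduce
      rw [g2]
    · have e : ∑ b, C (G i b ^ p ^ ((l : ℕ) + 1)) * nz p E.Z (E.y c) (l, b) -
          ∑ s, C (((∑ b, G i b * E.J s b) / E.y c) ^ p ^ ((l : ℕ) + 1)) * X (l, s) =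
          ∑ b, C (G i b ^ p ^ ((l : ℕ) + 1) * (E.y c ^ p ^ ((l : ℕ) + 1))⁻¹) *
            (E.Z (l, b) - ∑ s, C (E.J s b ^ p ^ ((l : ℕ) + 1)) * X (l, s)) := by
        simp only [nz, sum_pow_char_pow, mul_pow, div_eq_mul_inv, map_mul, map_sum,
          mul_sub, Finset.sum_sub_distrib, Finset.sum_mul, Finset.mul_sum, mul_assoc, inv_pow]
        rw [Finset.sum_comm]
        simp only [mul_left_comm]
      exact e ▸ sum_mem fun b _ => mul_mem (Subalgebra.algebraMap_mem _ _) (E.lin l b)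

end Pool.Agent.P.MP_6f117a_ag.EX
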