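import Pool.Agent.P.MP_6f117a_ag.E.Pig
import Pool.Agent.P.MP_6f117a_ag.E.Tors
import Pool.Agent.P.MP_6f117a_ag.E.Reg
import Pool.Agent.P.MP_6f117a_ag.E.Sat
import Pool.Agent.P.MP_6f117a_ag.E.Slice
import Pool.Agent.P.MP_6f117a_ag.E.Delta
import Pool.Agent.P.MP_6f117a_ag.E.Lift
import Pool.Agent.P.MP_6f117a_ag.E.Step
import Pool.Agent.P.MP_6f117a_ag.E.Abs
import Pool.Agent.P.MP_6f117a_ag.E.Diml
import Pool.Agent.P.MP_6f117a_ag.E.Dimu
import Pool.Agent.P.MP_6f117a_ag.E.Frame
import Pool.Agent.P.MP_6f117a_ag.E.Lead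
import Pool.Agent.P.MP_6f117a_ag.E.Zeta
import Pool.Agent.P.MP_6f117a_ag.E.Tri
import Pool.Agent.P.MP_6f117a_ag.E.Geo
import Pool.Agent.P.MP_6f117a_ag.E.Tilt
import Pool.Agent.P.MP_6f117a_ag.E.Num1
import Pool.Agent.P.MP_6f117a_ag.E.Num2
import Pool.Agent.P.MP_6f117a_ag.E.Exist

/-! Assembly of the proof of the existence of sections. -/

namespace Pool.Agent.P.MP_6f117a_ag.EX

universe u

theorem allPIG (k K : Type u) [Field k] [Field K] [Algebra k K] :
    E_PIG k K := pPIG k K

theorem allTORS (k K : Type u) [Field k] [Field K] [Algebra k K] :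
    E_TORS k K := pTORS k K (allPIG k K)

theorem allREG (k K : Type u) [Field k] [Field K] [Algebra k K] :
    E_REG k K := pREG k K

theorem allSAT (k K : Type u) [Field k] [Field K] [Algebra k K] :
    E_SAT k K := pSAT k K (allPIG k K) (allTORS k K)

theorem allSLICE (k K : Type u) [Field k] [Field K] [Algebra k K] :
    E_SLICE k K := pSLICE k K (allSAT k K)

theorem allDELTA (k K : Type u) [Field k] [Field K] [Algebra k K] :
    E_DELTA k K := pDELTA k K (allTORS k K) (allSLICE k K)

theorem allLIFT (k K : Type u) [Field k] [Field K] [Algebra k K] :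
    E_LIFT k K := pLIFT k K (allPIG k K)

theorem allSTEP (k K : Type u) [Field k] [Field K] [Algebra k K] :
    E_STEP k K := pSTEP k K (allSLICE k K)

theorem allABS (k K : Type u) [Field k] [Field K] [Algebra k K] :
    E_ABS k K := pABS k K (allREG k K) (allDELTA k K) (allLIFT k K) (allSTEP k K)

theorem allDIML (k K : Type u) [Field k] [Field K] [Algebra k K] :
    E_DIML k K := pDIML k K

theorem allDIMU (k K : Type u) [Field k] [Field K] [Algebra k K] :
    E_DIMU k K := pDIMU k K

theorem allFRAME (k K : Type u) [Field k] [Field K] [Algebra k K] :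
    E_FRAME k K := pFRAME k K

theorem allLEAD (K : Type u) [Field K] : E_LEAD K := pLEAD K

theorem allZETA (k K : Type u) [Field k] [Field K] [Algebra k K] :
    E_ZETA k K := pZETA k K (allFRAME k K)

theorem allTRI (k K : Type u) [Field k] [Field K] [Algebra k K] :
    E_TRI k K := pTRI k K (allLEAD K) (allZETA k K)

theorem allGEO : E_GEO := pGEO

theorem allTILT : E_TILT := pTILT

theorem allNUM1 : E_NUM1 := pNUM1 allGEO allTILT

theorem allNUM2 : E_NUM2 := pNUM2 allNUM1

theorem allEXIST : E_EXIST.{u} := pEXIST allABS allDIML allTRI allNUM2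

end Pool.Agent.P.MP_6f117a_ag.EX

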