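import Pool.Agent.P.MP_6f117a_ag.E.CIface

/-! Step COORD on certificates for smooth models. -/

namespace Pool.Agent.P.MP_6f117a_ag.EX

open Module MvPolynomial PJ

universe u

/-- A derivation that kills a set over which the field is algebraic is zero. -/
theorem ccoord_zero {L K : Type u} [Field L] [CharZero L] [Field K] [Algebra L K] {s : Set K}
    [Algebra.IsAlgebraic (IntermediateField.adjoin L s) K] (D : Derivation L K K)
    (h : ∀ x ∈ s, D x = 0) : D = 0 := by
  have h1 : ∀ x ∈ IntermediateField.adjoin L s, D x = 0 := fun x hx => by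
    induction hx using IntermediateField.adjoin_induction with
    | mem x hx => exact h x hx
    | algebraMap r => exact D.map_algebraMap r
    | add x y _ _ hx hy => rw [map_add, hx, hy, add_zero]
    | inv x _ hx => rw [D.leibniz_inv, hx, smul_zero]
    | mul x y _ _ hx hy => rw [D.leibniz, hx, hy, smul_zero, smul_zero, add_zero]
  let φ : K →ₗ[IntermediateField.adjoin L s] K :=
    { toFun := D
      map_add' := map_add D
      map_smul' := fun c x => by
        show D (c.1 * x) = c.1 * D x
        rw [D.leibniz, h1 _ c.2, smul_zero, add_zero, smul_eq_mul] }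
  let D' : Derivation (IntermediateField.adjoin L s) K K := Derivation.mk' φ D.leibniz
  have : CharZero (IntermediateField.adjoin L s) :=
    charZero_of_injective_algebraMap (algebraMap L _).injective
  ext x
  have h2 := D'.map_aeval (minpoly (IntermediateField.adjoin L s) x) x
  rw [minpoly.aeval, map_zero] at h2
  exact (smul_eq_zero.1 h2.symm).resolve_left
    ((Algebra.IsSeparable.isSeparable _ x).aeval_derivative_ne_zero (minpoly.aeval _ x))

/-- Derivations dual to a transcendence basis. -/
theorem ccoord_dual {L K : Type u} [Field L] [CharZero L] [Field K] [Algebra L K] {d : ℕ}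
    (B : Basis (Fin d) K (Derivation L K K)) {t : Fin d → K} (ht : IsTranscendenceBasis L t) :
    ∃ D' : Basis (Fin d) K (Derivation L K K), ∀ i j, D' i (t j) = if i = j then 1 else 0 := by
  let ev : Derivation L K K →ₗ[K] (Fin d → K) :=
    { toFun := fun D j => D (t j)
      map_add' := fun _ _ => rfl
      map_smul' := fun _ _ => rfl }
  have := ht.isAlgebraic_field
  have hi : Function.Injective ev := (injective_iff_map_eq_zero ev).2 fun D hD =>
    ccoord_zero (s := Set.range t) D (by rintro _ ⟨j, rfl⟩; exact congrFun hD j)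
  have := Module.Finite.of_basis B
  have hr : finrank K (Derivation L K K) = finrank K (Fin d → K) := by
    rw [finrank_eq_card_basis B, Module.finrank_fintype_fun_eq_card]
  let e := LinearMap.linearEquivOfInjective ev hi hr
  refine ⟨Basis.ofEquivFun e, fun i j => ?_⟩
  have h1 : ev (Basis.ofEquivFun e i) = Pi.single i 1 := by
    rw [Basis.coe_ofEquivFun]
    exact e.apply_symm_apply _
  have h2 := congrFun h1 j
  rw [Pi.single_apply] at h2
  exact h2.trans (if_congr eq_comm rfl rfl)

theorem cCOORD (L K : Type u) [Field L] [IsAlgClosed L] [CharZero L] [Field K] [Algebra L K]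
     : C_COORD L K := by
  intro d M z B hz htop hd
  obtain ⟨c, hc⟩ := Function.ne_iff.1 hz
  have hc : z c ≠ 0 := hc
  have h1 : IntermediateField.adjoin L (Set.range fun b => z b / z c) = ⊤ := by
    refine top_unique (htop.ge.trans (IntermediateField.adjoin_le_iff.2 ?_))
    rintro _ ⟨i, j, rfl⟩
    rw [← div_div_div_cancel_right₀ hc]
    exact div_mem (IntermediateField.subset_adjoin _ _ ⟨i, rfl⟩)
      (IntermediateField.subset_adjoin _ _ ⟨j, rfl⟩)
  have : Algebra.IsAlgebraic (Algebra.adjoin L (Set.range fun b => z b / z c)) K := by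
    rw [← IntermediateField.isAlgebraic_adjoin_iff_top, h1]
    exact ⟨fun x => isAlgebraic_algebraMap (⟨x, trivial⟩ : (⊤ : IntermediateField L K))⟩
  obtain ⟨t, hts, ht⟩ := exists_isTranscendenceBasis_subset (R := L) (Set.range fun b => z b / z c)
  obtain ⟨φ⟩ := Cardinal.mk_eq_nat_iff.1 (ht.cardinalMk_eq_trdeg.trans hd)
  choose b hb using fun i : Fin d => hts (φ.symm i).2
  have h2 : IsTranscendenceBasis L fun i => z (b i) / z c := by
    have e : (fun i => z (b i) / z c) = ((↑) : t → K) ∘ φ.symm := funext hb
    rw [e]
    exact (isTranscendenceBasis_equiv φ.symm).2 ht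
  obtain ⟨D', hD⟩ := ccoord_dual B h2
  exact ⟨Fin.cons c b, D', hc, h2, hD⟩

end Pool.Agent.P.MP_6f117a_ag.EX
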