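import Pool.Agent.P.MP_6f117a_ag.E.Defs
import Pool.Agent.P.MP_6f117a_ag.PJ.Stmt

/-! Certificates for smoothness and for pluricanonical sections on the standard charts. -/

namespace Pool.Agent.P.MP_6f117a_ag.EX

open Module MvPolynomial PJ

universe u

variable (L : Type u) [Field L] {K : Type u} [Field K] [Algebra L K]

variable {L} in
/-- The derivatives of the coordinates of the cone with respect to the free coordinates
`x⁰, x⁰ t₁, …, x⁰ t_d`, at `x⁰ = 1`. -/
noncomputable def Jc {d : ℕ} {B : Type} (D : Fin d → Derivation L K K) (t : Fin d → K)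
    (y : B → K) : Fin (d + 1) → B → K :=
  Fin.cons (fun b => y b - ∑ i, t i * D i (y b)) fun i b => D i (y b)

theorem Jc_rel {d : ℕ} {B : Type} [Fintype B] (D : Fin d → Derivation L K K) (t : Fin d → K)
    (y : B → K) {G : MvPolynomial B L} {e : ℕ} (hG : G.IsHomogeneous e) (h : aeval y G = 0)
    (i : Fin (d + 1)) : ∑ b, aeval y (pderiv b G) * Jc D t y i b = 0 := by
  have h1 : ∀ j, ∑ b, aeval y (pderiv b G) * D j (y b) = 0 := fun j => by
    have : ∀ G : MvPolynomial B L, D j (aeval y G) = ∑ b, aeval y (pderiv b G) * D j (y b) := by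
      classical
      intro G
      induction G using MvPolynomial.induction_on with
      | C c => simp
      | add f g hf hg => simp [hf, hg, add_mul, Finset.sum_add_distrib]
      | mul_X f a hf =>
        simp [hf, add_mul, Finset.sum_add_distrib, Finset.mul_sum, pderiv_X, Pi.single_apply,
          apply_ite, mul_assoc]
    rw [← this, h, map_zero]
  refine Fin.cases ?_ h1 i
  have h2 := congrArg (aeval y) hG.sum_X_mul_pderiv
  simp only [map_sum, map_mul, aeval_X, map_nsmul, h, smul_zero] at h2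
  simp only [Jc, Fin.cons_zero, mul_sub, Finset.sum_sub_distrib, Finset.mul_sum]
  rw [Finset.sum_comm]
  simp only [mul_left_comm _ (t _), ← Finset.mul_sum, h1, mul_zero, Finset.sum_const_zero,
    sub_zero, mul_comm _ (y _), h2]

variable (K)

/-- Free coordinates and the dual derivations. -/
def C_COORD : Prop := ∀ (d M : ℕ) (z : Fin M → K) (_ : Basis (Fin d) K (Derivation L K K)),
  z ≠ 0 → IntermediateField.adjoin L {y | ∃ i j, y = z i / z j} = ⊤ → Algebra.trdeg L K = d →
    ∃ (e : Fin (d + 1) → Fin M) (D' : Basis (Fin d) K (Derivation L K K)), z (e 0) ≠ 0 ∧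
      IsTranscendenceBasis L (fun i : Fin d => z (e i.succ) / z (e 0)) ∧
      ∀ i j, D' i (z (e j.succ) / z (e 0)) = if i = j then 1 else 0

/-- An ideal of the coordinate ring of a chart without zeros is the unit ideal. -/
def C_LOC : Prop := ∀ (M : ℕ) (z : Fin M → K) (c : Fin M) (I : Ideal (Rc L z c)), z c ≠ 0 →
  (∀ a, OnY L z a → a c = 1 → ∃ q ∈ I, ∃ Q : MvPolynomial (Fin M) L, eval a Q ≠ 0 ∧
    (q : K) = aeval (fun b => z b / z c) Q) → I = ⊤

/-- The certificate for smoothness. -/
def C_SMO : Prop := ∀ (d M : ℕ) (y : Fin M → K) (J : Fin (d + 1) → Fin M → K)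
  (e : Fin (d + 1) → Fin M), SmoothModel L d y → (∀ i s, J i (e s) = if i = s then 1 else 0) →
    (∀ G, Form L y G → ∀ i, ∑ b, aeval y (pderiv b G) * J i b = 0) → ∀ c, y c ≠ 0 →
    ∃ (T : ℕ) (R : Fin T → MvPolynomial (Fin M) L) (lam : Fin M → Fin T → K)
      (Θ : Fin (d + 1) → Fin M → K), (∀ t, Form L y (R t)) ∧ (∀ b t, lam b t ∈ Rc L y c) ∧
      ∀ b b', (if b = b' then 1 else 0) =
        ∑ t, lam b t * aeval (fun a => y a / y c) (pderiv b' (R t)) + ∑ i, J i b * Θ i b'

/-- Jacobian determinants of the affine coordinates are minors. -/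
def C_MIN : Prop := ∀ (d : ℕ) (B : Type) (y : B → K) (D : Fin d → Derivation L K K)
  (t : Fin d → K) (c : B) (b : Fin d → B), y c ≠ 0 →
    (Matrix.of fun i j => D i (y (b j) / y c)).det * y c ^ (d + 1) =
      minor (Jc D t y) 0 (Fin.cons c b)

/-- The certificate for pluricanonical sections. -/
def C_PLU : Prop := ∀ (d M r : ℕ) (y : Fin M → K) (D : Fin d → Derivation L K K) (t : Fin d → K)
  (h : K), h ∈ canSec L y D r → ∀ c, y c ≠ 0 → h * y c ^ (r * (d + 1)) ∈
    Submodule.span (Rc L y c) (Set.range (minor (Jc D t y) 0)) ^ r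

/-- Change of the frame of derivations and of the scaling. -/
def C_CHG : Prop := ∀ (d M r : ℕ) (z : Fin M → K) (w : K) (D D' : Basis (Fin d) K (Derivation L K K)),
  w ≠ 0 → (SmoothModel L d z → SmoothModel L d fun b => w * z b) ∧ ∃ v : K, v ≠ 0 ∧
    ∀ h ∈ canSec L z D r, v * h ∈ canSec L (fun b => w * z b) D' r

end Pool.Agent.P.MP_6f117a_ag.EX
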