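import Pool.Agent.P.MP_6f117a_ag.E.CIface

/-! Step LOC on certificates for smooth models. -/

namespace Pool.Agent.P.MP_6f117a_ag.EX

open Module MvPolynomial PJ

universe u

theorem cloc_scale {L K σ : Type*} [Field L] [Field K] [Algebra L K] {G : MvPolynomial σ L} {e : ℕ}
    (hG : G.IsHomogeneous e) (z : σ → K) (w : K) :
    aeval (fun b => z b / w) G = aeval z G / w ^ e := by
  rw [aeval_def, aeval_def, eval₂_eq, eval₂_eq, Finset.sum_div]
  refine Finset.sum_congr rfl fun m hm => ?_
  have h : ∑ i ∈ m.support, m i = e := by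
    simpa [Finsupp.weight_apply, Finsupp.sum] using hG (mem_support_iff.1 hm)
  simp only [div_pow, Finset.prod_div_distrib, Finset.prod_pow_eq_pow_sum, h, mul_div_assoc]

theorem cLOC (L K : Type u) [Field L] [IsAlgClosed L] [CharZero L] [Field K] [Algebra L K]
     : C_LOC L K := by
  intro M z c I hc h
  by_contra hI
  obtain ⟨m, hm, hIm⟩ := Ideal.exists_le_maximal I hI
  have : Algebra.FiniteType L (Rc L z c) :=
    Algebra.FiniteType.adjoin_of_finite (Set.finite_range _)
  let := Ideal.Quotient.field m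
  have := finite_of_finite_type_of_isJacobsonRing L (Rc L z c ⧸ m)
  let ψ := (AlgEquiv.ofBijective (Algebra.ofId L (Rc L z c ⧸ m))
    IsAlgClosed.algebraMap_bijective_of_isIntegral).symm
  let φ : Rc L z c →ₐ[L] L := ψ.toAlgHom.comp (Ideal.Quotient.mkₐ L m)
  let u : Fin M → Rc L z c := fun b => ⟨z b / z c, Algebra.subset_adjoin ⟨b, rfl⟩⟩
  have h1 : ∀ Q : MvPolynomial (Fin M) L, ((aeval u Q : Rc L z c) : K) =
      aeval (fun b => z b / z c) Q := fun Q => comp_aeval_apply u (Rc L z c).val Q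
  have h2 : ∀ Q : MvPolynomial (Fin M) L, eval (fun b => φ (u b)) Q = φ (aeval u Q) := fun Q =>
    (comp_aeval_apply u φ Q).symm
  have h3 : φ (u c) = 1 := by
    rw [show u c = 1 from Subtype.ext (div_self hc), map_one]
  obtain ⟨q, hq, Q, h4, h5⟩ := h (fun b => φ (u b)) ⟨fun e => one_ne_zero
    (h3.symm.trans (congrFun e c)), fun G ⟨⟨e, hG⟩, h0⟩ => by
      rw [h2, show aeval u G = 0 from Subtype.ext (by
        rw [h1, cloc_scale hG, h0, zero_div]; rfl), map_zero]⟩ h3
  refine h4 ?_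
  rw [h2, ← show q = aeval u Q from Subtype.ext (h5.trans (h1 Q).symm)]
  exact (congrArg ψ (Ideal.Quotient.eq_zero_iff_mem.2 (hIm hq))).trans (map_zero ψ)

end Pool.Agent.P.MP_6f117a_ag.EX
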