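import Pool.Agent.P.MP_6f117a_ag.SGraded

/-! Definitions for the existence of sections: multigraded linear systems in a field, their
charts, and weighted filtrations. -/

namespace Pool.Agent.P.MP_6f117a_ag.EX

open Module MvPolynomial

universe u

section Sys

variable (k : Type u) {K : Type u} [Field k] [Field K] [Algebra k K] {ι κ : Type} [Fintype ι]
  (g : ι → κ → K)

/-- The span of all products with `n i` factors from the family number `i`. -/
noncomputable def BB (n : ι → ℕ) : Submodule k K :=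
  ∏ i, Submodule.span k (Set.range (g i)) ^ n i

/-- The coordinate ring of the chart `α`. -/
noncomputable def RR (α : ι → κ) : Subalgebra k K :=
  Algebra.adjoin k {x | ∃ i a, x = g i a / g i (α i)}

/-- The chart `α` is not empty. -/
def Val (α : ι → κ) : Prop := ∀ i, g i (α i) ≠ 0

/-- A monomial with integer exponents. -/
noncomputable def mz (f : ι → K) (n : ι → ℤ) : K := ∏ i, f i ^ n i

/-- The local generator of multidegree `n` in the chart `α`. -/
noncomputable def gz (α : ι → κ) (n : ι → ℤ) : K := mz (fun i => g i (α i)) n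

/-- The transition function of multidegree `(1, …, 1)`. -/
noncomputable def tr (α β : ι → κ) : K := ∏ i, g i (α i) / g i (β i)

/-- Local sections of multidegree `n` in the chart `α`. -/
noncomputable def LB (α : ι → κ) (n : ι → ℤ) : Submodule k K :=
  (RR k g α).toSubmodule.comap (LinearMap.mulRight k (gz g α n)⁻¹)

/-- The local sections `c α` agree modulo `f` times local sections of multidegree `n`. -/
def Compat (f : K) (n : ι → ℤ) (c : (ι → κ) → K) : Prop :=
  ∀ α β, Val g α → Val g β → ∃ M : ℕ, tr g α β ^ M * (c α - c β) / f ∈ LB k g β n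

/-- The elements `u j` of the families are not zero divisors modulo the `f i` in any chart. -/
def FReg [DecidableEq ι] (f u : ι → K) : Prop :=
  ∀ i j α (n : ι → ℤ) x, Val g α → x ∈ LB k g α n → u j * x / f i ∈ LB k g α
    (n + Pi.single j 1 - Pi.single i 1) → x / f i ∈ LB k g α (n - Pi.single i 1)

variable {V : Type u} [AddCommGroup V] [Module K V] [Module k V] [IsScalarTower k K V]
  {A : Type} [Fintype A]

/-- Sections of the bundle with local frames `e α` whose piece number `a` is twisted by `τ a`. -/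
noncomputable def Gam (f : ι → K) (e : (ι → κ) → A → V) (τ : A → ι → ℤ) : Submodule k V where
  carrier := {s | ∀ α, Val g α → ∃ c : A → K,
    (∀ a, c a * mz f (τ a) ∈ LB k g α (τ a)) ∧ s = ∑ a, c a • e α a}
  add_mem' := by
    intro s t hs ht α hα
    obtain ⟨c, h1, h2⟩ := hs α hα
    obtain ⟨c', h3, h4⟩ := ht α hα
    exact ⟨c + c', fun a => by rw [Pi.add_apply, add_mul]; exact add_mem (h1 a) (h3 a), by
      rw [h2, h4, ← Finset.sum_add_distrib]; simp only [Pi.add_apply, add_smul]⟩
  zero_mem' α _ := ⟨0, fun a => by simp, by simp⟩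
  smul_mem' r s hs α hα := by
    obtain ⟨c, h1, h2⟩ := hs α hα
    exact ⟨r • c, fun a => by
      rw [Pi.smul_apply, smul_mul_assoc]; exact Submodule.smul_mem _ _ (h1 a), by
      rw [h2, Finset.smul_sum]; simp only [Pi.smul_apply, smul_assoc]⟩

/-- Triangular local frames with diagonal entries of multidegree `dd a` that glue. -/
structure Tri [LinearOrder A] (π : A → V →ₗ[K] K) (e : (ι → κ) → A → V) (dd : A → ι → ℤ) :
    Prop where
  tri : ∀ α, Val g α → ∀ a a', a < a' → π a' (e α a) = 0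
  diag : ∀ α, Val g α → ∀ a, π a (e α a) = gz g α (dd a)
  glue : ∀ α β, Val g α → Val g β → ∀ a, ∃ (M : ℕ) (c : A → K), (∀ a', c a' ∈ RR k g β) ∧
    tr g α β ^ M • e α a = ∑ a', c a' • e β a'

variable {k g}

theorem mem_LB {α : ι → κ} {n : ι → ℤ} {x : K} : x ∈ LB k g α n ↔ x / gz g α n ∈ RR k g α := by
  rw [div_eq_mul_inv]; rfl

theorem mz_ne {f : ι → K} (h : ∀ i, f i ≠ 0) (n : ι → ℤ) : mz f n ≠ 0 :=
  Finset.prod_ne_zero_iff.2 fun i _ => zpow_ne_zero _ (h i)

theorem mz_add {f : ι → K} (h : ∀ i, f i ≠ 0) (n m : ι → ℤ) : mz f (n + m) = mz f n * mz f m := by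
  simp only [mz, Pi.add_apply, zpow_add₀ (h _), Finset.prod_mul_distrib]

theorem mz_sub {f : ι → K} (h : ∀ i, f i ≠ 0) (n m : ι → ℤ) : mz f (n - m) = mz f n / mz f m := by
  simp only [mz, Pi.sub_apply, zpow_sub₀ (h _), Finset.prod_div_distrib]

theorem mz_zero (f : ι → K) : mz f 0 = 1 := by simp [mz]

theorem mz_single [DecidableEq ι] (f : ι → K) (i : ι) (z : ℤ) : mz f (Pi.single i z) = f i ^ z := by
  rw [mz, Finset.prod_eq_single i (fun j _ h => by simp [h]) (by simp)]; simp

theorem mz_nat (f : ι → K) (n : ι → ℕ) : mz f (fun i => n i) = ∏ i, f i ^ n i := by simp [mz]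

theorem gz_ne {α : ι → κ} (h : Val g α) (n : ι → ℤ) : gz g α n ≠ 0 := mz_ne h n

theorem gz_add {α : ι → κ} (h : Val g α) (n m : ι → ℤ) :
    gz g α (n + m) = gz g α n * gz g α m := mz_add h n m

theorem gz_sub {α : ι → κ} (h : Val g α) (n m : ι → ℤ) :
    gz g α (n - m) = gz g α n / gz g α m := mz_sub h n m

theorem gz_zero (α : ι → κ) : gz g α 0 = 1 := mz_zero _

theorem tr_pow (α β : ι → κ) (M : ℕ) :
    tr g α β ^ M = gz g α (fun _ => M) / gz g β (fun _ => M) := by
  simp [tr, gz, mz, Finset.prod_div_distrib, div_pow, Finset.prod_pow]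

theorem tr_ne {α β : ι → κ} (h : Val g α) (h' : Val g β) : tr g α β ≠ 0 :=
  Finset.prod_ne_zero_iff.2 fun i _ => div_ne_zero (h i) (h' i)

omit [Fintype ι] in
theorem div_mem_RR (α : ι → κ) (i : ι) (a : κ) : g i a / g i (α i) ∈ RR k g α :=
  Algebra.subset_adjoin ⟨i, a, rfl⟩

theorem tr_mem (α β : ι → κ) : tr g α β ∈ RR k g β := prod_mem fun i _ => div_mem_RR β i _

theorem mem_LB_zero {α : ι → κ} {x : K} : x ∈ LB k g α 0 ↔ x ∈ RR k g α := by
  rw [mem_LB, gz_zero, div_one]

theorem LB_mul {α : ι → κ} (h : Val g α) {n m : ι → ℤ} {x y : K} (hx : x ∈ LB k g α n)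
    (hy : y ∈ LB k g α m) : x * y ∈ LB k g α (n + m) := by
  rw [mem_LB, gz_add h, mul_div_mul_comm]
  exact mul_mem (mem_LB.1 hx) (mem_LB.1 hy)

theorem RR_mul_LB {α : ι → κ} {n : ι → ℤ} {x y : K} (hx : x ∈ RR k g α)
    (hy : y ∈ LB k g α n) : x * y ∈ LB k g α n := by
  rw [mem_LB, mul_div_assoc]
  exact mul_mem hx (mem_LB.1 hy)

theorem gz_mem_LB {α : ι → κ} (h : Val g α) (n : ι → ℤ) : gz g α n ∈ LB k g α n := by
  rw [mem_LB, div_self (gz_ne h n)]; exact one_mem _

theorem gz_mul_mem_LB {α : ι → κ} (h : Val g α) {n m : ι → ℤ} {x : K} :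
    gz g α m * x ∈ LB k g α (m + n) ↔ x ∈ LB k g α n := by
  rw [mem_LB, mem_LB, gz_add h, mul_div_mul_left _ _ (gz_ne h m)]

theorem BB_add (n m : ι → ℕ) : BB k g (n + m) = BB k g n * BB k g m := by
  simp only [BB, Pi.add_apply, pow_add, Finset.prod_mul_distrib]

theorem BB_zero : BB k g 0 = 1 := by simp [BB]

theorem BB_single [DecidableEq ι] (i : ι) (t : ℕ) :
    BB k g (Pi.single i t) = Submodule.span k (Set.range (g i)) ^ t := by
  rw [BB, Finset.prod_eq_single i (fun j _ h => by simp [h]) (by simp)]; simp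

theorem BB_mul {n m : ι → ℕ} {x y : K} (hx : x ∈ BB k g n) (hy : y ∈ BB k g m) :
    x * y ∈ BB k g (n + m) := BB_add (k := k) (g := g) n m ▸ Submodule.mul_mem_mul hx hy

theorem prod_mem_BB {f : ι → K} (hf : ∀ i, f i ∈ Submodule.span k (Set.range (g i))) (n : ι → ℕ) :
    ∏ i, f i ^ n i ∈ BB k g n := by
  classical
  rw [BB]
  induction (Finset.univ : Finset ι) using Finset.induction_on with
  | empty => simp
  | insert i s hi ih =>
    rw [Finset.prod_insert hi, Finset.prod_insert hi]
    exact Submodule.mul_mem_mul (Submodule.pow_mem_pow _ (hf i) _) ih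

theorem gz_mem_BB (α : ι → κ) (n : ι → ℕ) : gz g α (fun i => n i) ∈ BB k g n := by
  rw [gz, mz_nat]
  exact prod_mem_BB (fun i => Submodule.subset_span ⟨α i, rfl⟩) n

instance BB_fd [Finite κ] (n : ι → ℕ) : FiniteDimensional k (BB k g n) := by
  refine Module.Finite.iff_fg.2 (Finset.prod_induction _ Submodule.FG (fun _ _ => Submodule.FG.mul)
    ?_ fun i _ => (Submodule.fg_span (Set.finite_range _)).pow _)
  exact Submodule.one_eq_span (R := k) (A := K) ▸ Submodule.fg_span_singleton _

theorem mul_le_LB {α : ι → κ} (h : Val g α) {n m : ι → ℤ} {P Q : Submodule k K}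
    (hP : P ≤ LB k g α n) (hQ : Q ≤ LB k g α m) : P * Q ≤ LB k g α (n + m) :=
  Submodule.mul_le.2 fun _ hx _ hy => LB_mul h (hP hx) (hQ hy)

theorem one_le_LB (α : ι → κ) : (1 : Submodule k K) ≤ LB k g α 0 :=
  Submodule.one_le.2 (mem_LB_zero.2 (one_mem _))

theorem span_le_LB [DecidableEq ι] (α : ι → κ) (i : ι) :
    Submodule.span k (Set.range (g i)) ≤ LB k g α (Pi.single i 1) := by
  refine Submodule.span_le.2 ?_
  rintro _ ⟨a, rfl⟩
  refine mem_LB.2 ?_
  rw [gz, mz_single, zpow_one]
  exact div_mem_RR α i a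

theorem BB_le_LB {α : ι → κ} (h : Val g α) (n : ι → ℕ) : BB k g n ≤ LB k g α fun i => n i := by
  classical
  have h1 : ∀ i (t : ℕ), Submodule.span k (Set.range (g i)) ^ t ≤ LB k g α (Pi.single i t) :=
    fun i t => by
      induction t with
      | zero => simpa using one_le_LB α
      | succ t ih =>
        rw [pow_succ, Nat.cast_succ, Pi.single_add]
        exact mul_le_LB h ih (span_le_LB α i)
  have h2 : ∀ s : Finset ι, ∏ i ∈ s, Submodule.span k (Set.range (g i)) ^ n i ≤
      LB k g α (∑ i ∈ s, Pi.single i (n i : ℤ)) := fun s => by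
    induction s using Finset.induction_on with
    | empty => simpa using one_le_LB α
    | insert i s hi ih =>
      rw [Finset.prod_insert hi, Finset.sum_insert hi]
      exact mul_le_LB h (h1 i _) ih
  have := h2 Finset.univ
  rwa [Finset.univ_sum_single] at this

/-- Every function on a chart is a quotient of a section by a power of the generator. -/
theorem exists_BB {α : ι → κ} (h : Val g α) {x : K} (hx : x ∈ RR k g α) :
    ∃ M : ℕ, ∀ M' : ℕ, M ≤ M' → gz g α (fun _ => M') * x ∈ BB k g fun _ => M' := by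
  classical
  have up : ∀ (x : K) (M : ℕ), gz g α (fun _ => M) * x ∈ BB k g (fun _ => M) →
      ∀ M' : ℕ, M ≤ M' → gz g α (fun _ => M') * x ∈ BB k g fun _ => M' := fun x M hM M' hle => by
    obtain ⟨t, rfl⟩ := Nat.exists_eq_add_of_le' hle
    have := BB_mul (gz_mem_BB (k := k) (g := g) α fun _ => t) hM
    rw [← mul_assoc, ← gz_add h] at this
    exact_mod_cast this
  induction hx using Algebra.adjoin_induction with
  | mem x hx =>
    obtain ⟨i, a, rfl⟩ := hx
    refine ⟨1, up _ _ ?_⟩
    have := prod_mem_BB (k := k) (g := g) (f := Function.update (fun j => g j (α j)) i (g i a))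
      (fun j => by
        rcases eq_or_ne j i with rfl | hj
        · simpa using Submodule.subset_span (R := k) (Set.mem_range_self (f := g j) a)
        · simpa [hj] using Submodule.subset_span (R := k) (Set.mem_range_self (f := g j) (α j)))
      fun _ => 1
    convert this using 1
    simp only [gz, mz, Nat.cast_one, zpow_one, pow_one]
    rw [Finset.prod_update_of_mem (Finset.mem_univ i),
      ← Finset.mul_prod_erase _ _ (Finset.mem_univ i), Finset.sdiff_singleton_eq_erase]
    field_simp [h i]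
  | algebraMap r =>
    refine ⟨0, fun M' _ => ?_⟩
    rw [mul_comm, ← Algebra.smul_def]
    exact Submodule.smul_mem _ _ (gz_mem_BB α fun _ => M')
  | add x y _ _ hx hy =>
    obtain ⟨M, hM⟩ := hx
    obtain ⟨N, hN⟩ := hy
    exact ⟨max M N, fun M' hM' => by
      rw [mul_add]; exact add_mem (hM _ (le_of_max_le_left hM')) (hN _ (le_of_max_le_right hM'))⟩
  | mul x y _ _ hx hy =>
    obtain ⟨M, hM⟩ := hx
    obtain ⟨N, hN⟩ := hy
    refine ⟨M + N, up _ _ ?_⟩
    have := BB_mul (hM M le_rfl) (hN N le_rfl)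
    rw [mul_mul_mul_comm, ← gz_add h] at this
    exact_mod_cast this

/-- Change of chart. -/
theorem exists_tr {α β : ι → κ} (h : Val g α) (h' : Val g β) {n : ι → ℤ} {x : K}
    (hx : x ∈ LB k g α n) : ∃ M : ℕ, ∀ M' : ℕ, M ≤ M' → tr g α β ^ M' * x ∈ LB k g β n := by
  obtain ⟨M, hM⟩ := exists_BB h (mem_LB.1 hx)
  refine ⟨M + ∑ i, (n i).natAbs, fun M' hle => ?_⟩
  obtain ⟨t, rfl⟩ := Nat.exists_eq_add_of_le ((Nat.le_add_right _ _).trans hle)
  have ht : ∀ i, (((t + n i).toNat : ℕ) : ℤ) = t + n i := fun i => by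
    have := Finset.single_le_sum (f := fun i => (n i).natAbs) (fun _ _ => Nat.zero_le _)
      (Finset.mem_univ i)
    omega
  have h1 := BB_le_LB h' _ (BB_mul (hM M le_rfl) (gz_mem_BB α fun i => (t + n i).toNat))
  rw [← gz_mul_mem_LB h' (m := fun _ => (M + t : ℕ)), tr_pow]
  convert h1 using 1
  · congr 1; funext i; simp only [Pi.add_apply, Nat.cast_add, ht]; ring
  · have e : (fun i => (((t + n i).toNat : ℕ) : ℤ)) = (fun _ => ((M + t : ℕ) : ℤ)) + n - fun _ => (M : ℤ) := by
      funext i; simp only [ht, Pi.add_apply, Pi.sub_apply, Nat.cast_add]; ring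
    rw [e, gz_sub h, gz_add h]
    field_simp [gz_ne h, gz_ne h']

end Sys

section Filt

variable {k K V : Type u} [Field k] [Field K] [Algebra k K] [CommRing V] [Algebra K V]

/-- The weight of a variable of level `l + 1`. -/
def lw (p n : ℕ) (X : Type) : Fin n × X → ℕ := fun v => (v.1 + 1) * p ^ ((v.1 : ℕ) + 1)

/-- The span over `R` of the monomials in the `W v` of weight at most `w` that only use the first
`L` levels. -/
noncomputable def Fil (p : ℕ) (R : Subalgebra k K) {n : ℕ} {X : Type} (W : Fin n × X → V)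
    (L w : ℕ) : Submodule R V :=
  Submodule.span R {s | ∃ a : Fin n × X →₀ ℕ, (∀ v ∈ a.support, (v.1 : ℕ) < L) ∧
    Finsupp.weight (lw p n X) a ≤ w ∧ s = a.prod fun v e => W v ^ e}

section

variable {p : ℕ} {R : Subalgebra k K} {n : ℕ} {X : Type} {W : Fin n × X → V} {L w : ℕ}

theorem Fil.mono {L' w' : ℕ} (h : L ≤ L') (h' : w ≤ w') : Fil p R W L w ≤ Fil p R W L' w' :=
  Submodule.span_mono fun _ ⟨a, h1, h2, h3⟩ =>
    ⟨a, fun v hv => (h1 v hv).trans_le h, h2.trans h', h3⟩

theorem Fil.one_mem : (1 : V) ∈ Fil p R W L w :=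
  Submodule.subset_span ⟨0, by simp, by simp, by simp⟩

theorem Fil.gen (v : Fin n × X) : W v ∈ Fil p R W (v.1 + 1) (lw p n X v) :=
  Submodule.subset_span ⟨Finsupp.single v 1, fun v' hv' => by
    rw [Finset.mem_singleton.1 (Finsupp.support_single_subset hv')]; omega,
    by simp [Finsupp.weight_single], by simp⟩

theorem Fil.mul_mem {w' : ℕ} {s t : V} (hs : s ∈ Fil p R W L w) (ht : t ∈ Fil p R W L w') :
    s * t ∈ Fil p R W L (w + w') := by
  classical
  have : Fil p R W L w * Fil p R W L w' ≤ Fil p R W L (w + w') := by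
    rw [Fil, Fil, Submodule.span_mul_span]
    refine Submodule.span_mono ?_
    rintro _ ⟨_, ⟨a, h1, h2, rfl⟩, _, ⟨b, h3, h4, rfl⟩, rfl⟩
    refine ⟨a + b, fun v hv => ?_, by rw [map_add]; omega, ?_⟩
    · exact (Finset.mem_union.1 (Finsupp.support_add hv)).elim (h1 v) (h3 v)
    · exact (Finsupp.prod_add_index' (by simp) fun _ _ _ => pow_add _ _ _).symm
  exact this (Submodule.mul_mem_mul hs ht)

theorem Fil.pow_mem {s : V} (hs : s ∈ Fil p R W L w) (t : ℕ) : s ^ t ∈ Fil p R W L (t * w) := by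
  induction t with
  | zero => simpa using Fil.one_mem
  | succ t ih => rw [pow_succ, Nat.succ_mul]; exact Fil.mul_mem ih hs

theorem Fil.algebraMap_mul {x : K} (hx : x ∈ R) {s : V} (hs : s ∈ Fil p R W L w) :
    algebraMap K V x * s ∈ Fil p R W L w := by
  rw [← Algebra.smul_def]
  exact Submodule.smul_mem _ (⟨x, hx⟩ : R) hs

theorem Fil.prod_mem {X' : Type} {W' : Fin n × X' → V}
    (h : ∀ v, W' v ∈ Fil p R W (v.1 + 1) (lw p n X' v)) (a : Fin n × X' →₀ ℕ)
    (ha : ∀ v ∈ a.support, (v.1 : ℕ) < L) :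
    (a.prod fun v e => W' v ^ e) ∈ Fil p R W L (Finsupp.weight (lw p n X') a) := by
  classical
  rw [Finsupp.weight_apply, Finsupp.sum, Finsupp.prod]
  generalize a.support = s at ha
  induction s using Finset.induction_on with
  | empty => simpa using Fil.one_mem
  | insert v s hv ih =>
    rw [Finset.prod_insert hv, Finset.sum_insert hv]
    exact Fil.mul_mem (Fil.pow_mem (Fil.mono (ha v (by simp)) le_rfl (h v)) _)
      (ih fun v' hv' => ha v' (by simp [hv']))

/-- Substitution of generators, with a change of the ring of coefficients. -/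
theorem Fil.subst {X' : Type} {W' : Fin n × X' → V} {R' : Subalgebra k K} (hR : R' ≤ R)
    (h : ∀ v, W' v ∈ Fil p R W (v.1 + 1) (lw p n X' v)) {s : V} (hs : s ∈ Fil p R' W' L w) :
    s ∈ Fil p R W L w := by
  induction hs using Submodule.span_induction with
  | mem s hs =>
    obtain ⟨a, h1, h2, rfl⟩ := hs
    exact Fil.mono le_rfl h2 (Fil.prod_mem h a h1)
  | zero => exact zero_mem _
  | add _ _ _ _ h1 h2 => exact add_mem h1 h2
  | smul c s _ h1 => exact Submodule.smul_mem _ (⟨c, hR c.2⟩ : R) h1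

theorem Fil.of_le {R' : Subalgebra k K} (hR : R' ≤ R) {s : V} (hs : s ∈ Fil p R' W L w) :
    s ∈ Fil p R W L w := Fil.subst hR Fil.gen hs

end

/-- The exponent vectors of weight at most `m`. -/
noncomputable def AA (p n D m : ℕ) : Finset (Fin n × Fin D →₀ ℕ) :=
  (Finset.Iic (Finsupp.equivFunOnFinite.symm fun _ => m)).filter fun a =>
    Finsupp.weight (lw p n (Fin D)) a ≤ m

/-- The total Frobenius twisted exponent of the direction `i`. -/
def Am (p : ℕ) {n D : ℕ} (a : Fin n × Fin D →₀ ℕ) (i : Fin D) : ℕ :=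
  ∑ l : Fin n, p ^ ((l : ℕ) + 1) * a (l, i)

theorem weight_lw (p : ℕ) {n : ℕ} {X : Type} [Fintype X] (a : Fin n × X →₀ ℕ) :
    Finsupp.weight (lw p n X) a = ∑ v, a v * lw p n X v := by
  rw [Finsupp.weight_apply, Finsupp.sum_fintype _ _ (by simp)]; rfl

theorem mem_AA {p n D m : ℕ} (hp : 0 < p) {a : Fin n × Fin D →₀ ℕ} :
    a ∈ AA p n D m ↔ Finsupp.weight (lw p n (Fin D)) a ≤ m := by
  refine ⟨fun h => (Finset.mem_filter.1 h).2, fun h => Finset.mem_filter.2
    ⟨Finset.mem_Iic.2 fun v => le_trans ?_ h, h⟩⟩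
  exact Finsupp.le_weight _ (by unfold lw; positivity) a

/-- The determinant of the matrix whose first `i` columns are unit vectors and whose other
columns are the columns `a s` of `J`. -/
noncomputable def minor {D : ℕ} {B : Type} (J : Fin D → B → K) (i : ℕ) (a : Fin D → B) : K :=
  (Matrix.of fun r s : Fin D => if (s : ℕ) < i then (if r = s then 1 else 0) else J r (a s)).det

/-- The minors chosen by a chart, and one at the end. -/
noncomputable def mi {D : ℕ} {B : Type} (J : Fin D → B → K) (a : Fin D → Fin D → B) (i : ℕ) : K :=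
  if h : i < D then minor J i (a ⟨i, h⟩) else 1

/-- Polynomials in the jet coordinates. -/
abbrev PV (K : Type u) [Field K] (n D : ℕ) := MvPolynomial (Fin n × Fin D) K

/-- The jet coordinates of the ambient space, normalised by `u`. -/
noncomputable def nz (p : ℕ) {n D : ℕ} {B : Type} (Z : Fin n × B → PV K n D) (u : K) :
    Fin n × B → PV K n D := fun v => C (u ^ p ^ ((v.1 : ℕ) + 1))⁻¹ * Z v

/-- The coordinate ring of a standard affine chart. -/
noncomputable def Rc (k : Type u) [Field k] [Algebra k K] {B : Type} (y : B → K) (c : B) :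
    Subalgebra k K := Algebra.adjoin k (Set.range fun b => y b / y c)

/-- The generators of the linear systems: minors, coordinates, pluricanonical forms. -/
noncomputable def gs {D : ℕ} {B : Type} (J : Fin D → B → K) (y : B → K) (h : Fin D → K) :
    Fin D ⊕ Bool → (Fin D → B) × B × Fin D → K
  | .inl i, a => minor J i a.1
  | .inr false, a => y a.2.1
  | .inr true, a => h a.2.2

/-- The data on the jet space of the cone over a smooth variety of dimension `d` with a big
pluricanonical system. -/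
structure ED (k K : Type u) [Field k] [Field K] [Algebra k K] (p n d r C₀ : ℕ) (B : Type)
    [Fintype B] [DecidableEq B] where
  y : B → K
  J : Fin (d + 1) → B → K
  Z : Fin n × B → PV K n (d + 1)
  h : Fin (d + 1) → K
  idc : ∃ a : Fin (d + 1) → B, ∀ i s, J i (a s) = if i = s then 1 else 0
  y_ne : ∃ c, y c ≠ 0
  lin : ∀ l b, Z (l, b) - ∑ i, C (J i b ^ p ^ ((l : ℕ) + 1)) * X (l, i) ∈
    supported K {v : Fin n × Fin (d + 1) | v.1 < l}
  rel : ∀ c, y c ≠ 0 → ∃ (T : ℕ) (ρ : Fin T → B → K) (lam : B → Fin T → K)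
    (Θ : Fin (d + 1) → B → K), (∀ b t, lam b t ∈ Rc k y c) ∧
    (∀ b b', (if b = b' then 1 else 0) = ∑ t, lam b t * ρ t b' + ∑ i, J i b * Θ i b') ∧
    ∀ t (l : Fin n), ∑ b, C (ρ t b ^ p ^ ((l : ℕ) + 1)) * nz p Z (y c) (l, b) ∈
      Fil p (Rc k y c) (nz p Z (y c)) l ((l + 1) * p ^ ((l : ℕ) + 1))
  h_ne : h 0 ≠ 0
  ind : AlgebraicIndependent k fun j : Fin d => h j.succ / h 0
  plu : ∀ c, y c ≠ 0 → ∀ j, h j * y c ^ (r * (d + 1)) ∈
    Submodule.span (Rc k y c) (Set.range (minor J 0)) ^ r
  dim : ∀ t : ℕ, finrank k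
    (Submodule.span k (Set.range (Function.uncurry (gs J y h))) ^ t : Submodule k K) ≤
      C₀ * (t + 1) ^ d

/-- The multidegree of the graded piece with exponent vector `a`. -/
def ddE (p r μ e : ℕ) {n d : ℕ} (a : Fin n × Fin (d + 1) →₀ ℕ) : Fin (d + 1) ⊕ Bool → ℤ
  | .inl i => Am p a i - Fin.cases (motive := fun _ => ℤ) (r * μ) (fun j => Am p a j.castSucc) i
  | .inr false => -e - ∑ i, ((Am p a i : ℤ) - r * μ)
  | .inr true => μ

/-- The size of the fluctuations of the graded piece with exponent vector `a`. -/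
def flu (p r μ e n₀ : ℕ) {n D : ℕ} (a : Fin n × Fin D →₀ ℕ) : ℕ :=
  3 * ∑ i, ((Am p a i : ℤ) - r * μ).natAbs + e + n₀

/-- Polynomials of bounded degree in `x` and `w`. -/
noncomputable def PW (k : Type u) [Field k] [Algebra k K] {d : ℕ} (x : Fin d → K) (w : K)
    (δ c : ℕ) : Submodule k K :=
  Submodule.span k {s | ∃ (a : Fin d → ℕ) (j : ℕ), ∑ i, a i ≤ c ∧ j < δ ∧
    s = (∏ i, x i ^ a i) * w ^ j}

end Filt

end Pool.Agent.P.MP_6f117a_ag.EX
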