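import Pool.Agent.P.MP_6f117a_ag.E.Defs

/-! The statements of the steps in the proof of the existence of sections. -/

namespace Pool.Agent.P.MP_6f117a_ag.EX

open Module MvPolynomial

universe u

section

variable (k K : Type u) [Field k] [Field K] [Algebra k K]

/-! ### Multigraded linear systems -/

def E_PIG : Prop := ∀ (ι κ : Type) [Fintype ι] [DecidableEq ι] [Fintype κ] (g : ι → κ → K)
  (M : ℕ) (n : ι → ℕ), 0 < M → (∀ i, Fintype.card κ * M + M ≤ n i) → ∀ b ∈ BB k g n,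
    ∃ β : (ι → κ) → K, (∀ α, β α ∈ BB k g (n - fun _ => M)) ∧ (∀ α, ¬Val g α → β α = 0) ∧
      b = ∑ α, β α * gz g α fun _ => M

def E_TORS : Prop := ∀ (ι κ : Type) [Fintype ι] [Fintype κ] (g : ι → κ → K) (nf nx : ι → ℕ)
  (f x : K), f ∈ BB k g nf → x ∈ BB k g nx → ∃ n₀ : ℕ, ∀ n : ι → ℕ, (∀ i, n₀ ≤ n i) →
    ∀ b ∈ BB k g n, (∀ α, Val g α → ∃ y ∈ LB k g α fun i => n i - nf i,
      ∃ z ∈ LB k g α fun i => n i - nx i, b = f * y + x * z) →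
    ∃ y ∈ BB k g (n - nf), ∃ z ∈ BB k g (n - nx), b = f * y + x * z

variable {K} in
/-- Nonzero elements of the linear systems. -/
def Sec {ι κ : Type} (g : ι → κ → K) (f : ι → K) : Prop :=
  ∀ i, f i ∈ Submodule.span k (Set.range (g i)) ∧ f i ≠ 0

def E_REG : Prop := Infinite k → ∀ (ι κ : Type) [Fintype ι] [DecidableEq ι] [Fintype κ]
  (g : ι → κ → K) (f : ι → K), Sec k g f → ∃ u, Sec k g u ∧ FReg k g f u

def E_SAT : Prop := ∀ (ι κ : Type) [Fintype ι] [DecidableEq ι] [Fintype κ] (g : ι → κ → K)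
  (f u : ι → K), Sec k g f → Sec k g u → FReg k g f u → ∃ n₀ : ℕ, ∀ (i : ι) (n : ι → ℕ),
    (∀ j, n₀ ≤ n j) → ∀ c : (ι → κ) → K, (∀ α, Val g α → c α ∈ LB k g α fun j => n j) →
    Compat k g (f i) ((fun j => (n j : ℤ)) - Pi.single i 1) c → ∃ b ∈ BB k g n, ∀ α, Val g α →
      (b - c α) / f i ∈ LB k g α ((fun j => (n j : ℤ)) - Pi.single i 1)

def E_SLICE : Prop := ∀ (ι κ : Type) [Fintype ι] [DecidableEq ι] [Fintype κ] (g : ι → κ → K)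
  (f u : ι → K), Sec k g f → Sec k g u → FReg k g f u → ∃ n₀ : ℕ, ∀ (i : ι) (n : ι → ℤ)
    (n' : ι → ℕ), (∀ j, n j ≤ n' j) → (∀ j, n₀ ≤ n' j) → ∀ (U : Type u) [AddCommGroup U]
    [Module k U] [FiniteDimensional k U] (c : (ι → κ) → U →ₗ[k] K) (U' : Submodule k U),
    (∀ α, Val g α → ∀ s, c α s ∈ LB k g α n) →
    (∀ s, Compat k g (f i) (n - Pi.single i 1) fun α => c α s) →
    (∀ s, (∀ α, Val g α → c α s / f i ∈ LB k g α (n - Pi.single i 1)) → s ∈ U') →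
    finrank k U + finrank k (BB k g (n' - Pi.single i 1)) ≤ finrank k U' + finrank k (BB k g n')

def E_DELTA : Prop := ∀ (ι κ : Type) [Fintype ι] [DecidableEq ι] [Fintype κ] (g : ι → κ → K)
  (f u : ι → K), Sec k g f → Sec k g u → FReg k g f u → ∀ d C₀ : ℕ, 1 ≤ d →
    (∀ n : ι → ℕ, finrank k (BB k g n) ≤ C₀ * (∑ j, n j + 1) ^ d) → ∃ n₀ : ℕ, ∀ (i : ι) (n : ι → ℕ),
    (∀ j, n₀ ≤ n j) → finrank k (BB k g n) ≤
      finrank k (BB k g (n - Pi.single i 1)) + C₀ * 2 ^ d * (∑ j, n j + 1) ^ (d - 1)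

def E_LIFT : Prop := ∀ (ι κ : Type) [Fintype ι] [DecidableEq ι] [Fintype κ] (g : ι → κ → K)
  (f : ι → K), Sec k g f → ∀ (V : Type u) [AddCommGroup V] [Module K V] [Module k V]
    [IsScalarTower k K V] (A : Type) [Fintype A] [LinearOrder A] (π : A → V →ₗ[K] K)
    (e : (ι → κ) → A → V) (dd : A → ι → ℤ), Tri k g π e dd → ∃ β₀ : ℕ, ∀ β : ℕ, β₀ ≤ β →
    ∃ U ≤ Gam k g f e fun _ _ => β, FiniteDimensional k U ∧
      ∑ a, finrank k (BB k g fun i => (dd a i + β).toNat) ≤ finrank k U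

def E_STEP : Prop := ∀ (ι κ : Type) [Fintype ι] [DecidableEq ι] [Fintype κ] (g : ι → κ → K)
  (f u : ι → K), Sec k g f → Sec k g u → FReg k g f u → ∃ n₀ : ℕ, ∀ (V : Type u) [AddCommGroup V]
    [Module K V] [Module k V] [IsScalarTower k K V] (A : Type) [Fintype A] [LinearOrder A]
    (π : A → V →ₗ[K] K) (e : (ι → κ) → A → V) (dd : A → ι → ℤ), Tri k g π e dd →
    ∀ (τ τ' : A → ι → ℤ) (a : A) (i : ι) (n' : ι → ℕ), τ' a = τ a - Pi.single i 1 →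
    (∀ a', a' ≠ a → τ' a' = τ a') → (∀ a', a < a' → τ a' ≤ τ' a) →
    (∀ j, dd a j + τ a j ≤ n' j) → (∀ j, n₀ ≤ n' j) → ∀ U ≤ Gam k g f e τ, FiniteDimensional k U →
    finrank k U + finrank k (BB k g (n' - Pi.single i 1)) ≤
      finrank k (U ⊓ Gam k g f e τ' : Submodule k V) + finrank k (BB k g n')

def E_ABS : Prop := Infinite k → ∀ (ι κ : Type) [Fintype ι] [DecidableEq ι] [Fintype κ]
  (g : ι → κ → K), (∀ i, ∃ a, g i a ≠ 0) → ∀ d C₀ : ℕ, 1 ≤ d →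
    (∀ n : ι → ℕ, finrank k (BB k g n) ≤ C₀ * (∑ j, n j + 1) ^ d) → ∃ n₀ : ℕ,
    ∀ (V : Type u) [AddCommGroup V] [Module K V] [Module k V] [IsScalarTower k K V] (A : Type)
    [Fintype A] [LinearOrder A] (π : A → V →ₗ[K] K) (e : (ι → κ) → A → V) (dd : A → ι → ℤ)
    (dp : A → ι → ℕ), Tri k g π e dd → (∀ a i, n₀ ≤ dp a i ∧ dd a i ≤ dp a i) →
    ∑ a, C₀ * 2 ^ d * (∑ i, (dp a i - dd a i).toNat) * (∑ i, dp a i + 1) ^ (d - 1) <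
      ∑ a, finrank k (BB k g (dp a)) →
    ∃ s : V, s ≠ 0 ∧ ∀ α, Val g α → ∃ c : A → K, (∀ a, c a ∈ RR k g α) ∧ s = ∑ a, c a • e α a

def E_DIML : Prop := ∀ (ι κ : Type) [Fintype ι] [Fintype κ] (g : ι → κ → K),
  (∀ i, ∃ a, g i a ≠ 0) → ∀ (d : ℕ) (h : Fin (d + 1) → K) (i : ι), (∀ j, ∃ a, h j = g i a) →
    h 0 ≠ 0 → (AlgebraicIndependent k fun j : Fin d => h j.succ / h 0) →
    ∀ n : ι → ℕ, n i ^ d ≤ d ^ d * finrank k (BB k g n)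

def E_DIMU : Prop := ∀ (d δ c c₀ : ℕ) (x : Fin d → K) (w Δ : K) (G : Submodule k K), Δ ≠ 0 →
  0 < δ → w ^ δ ∈ PW k x w δ c₀ → (∀ s ∈ G, Δ * s ∈ PW k x w δ c) →
    ∀ t : ℕ, finrank k (G ^ t : Submodule k K) ≤ δ * (c + δ * c₀ + 1) ^ d * (t + 1) ^ d

/-! ### Frames adapted to the flag -/

def E_FRAME : Prop := ∀ (R : Subalgebra k K) (D : ℕ) (B : Type) [Fintype B] (J : Fin D → B → K)
  (a : Fin D → Fin D → B), (∀ i : Fin D, minor J i (a i) ≠ 0) →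
    (∀ (i : Fin D) a', minor J i a' / minor J i (a i) ∈ R) →
    ∃ (G : Fin D → B → K) (H : B → Fin D → K), (∀ i b, G i b ∈ R) ∧ (∀ b i, H b i ∈ R) ∧
      (∀ i r, i < r → ∑ b, G i b * J r b = 0) ∧
      (∀ i, ∑ b, G i b * J i b = mi J a i / mi J a (i + 1)) ∧
      ∀ b r, J r b = ∑ i, H b i * ∑ b', G i b' * J r b'

variable {K} in
/-- A triangular family of polynomials with diagonal entries `t`. -/
def Lead {n D : ℕ} (ζ : Fin n × Fin D → PV K n D) (t : Fin n × Fin D → K) : Prop :=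
  ∀ v, ∃ c : Fin D → K, (∀ i, v.2 < i → c i = 0) ∧ c v.2 = t v ∧
    ζ v - ∑ i, C (c i) * X (v.1, i) ∈ supported K {w : Fin n × Fin D | w.1 < v.1}

def E_LEAD : Prop := ∀ n D : ℕ, ∃ mo : MonomialOrder.{0, 0} (Fin n × Fin D),
  ∀ (ζ : Fin n × Fin D → PV K n D) (t : Fin n × Fin D → K), Lead ζ t → ∀ a : Fin n × Fin D →₀ ℕ,
    (∀ a', mo.toSyn a < mo.toSyn a' → coeff a' (a.prod fun v e => ζ v ^ e) = 0) ∧
    coeff a (a.prod fun v e => ζ v ^ e) = a.prod fun v e => t v ^ e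

def E_ZETA : Prop := ∀ (p n d r C₀ : ℕ) [Fact p.Prime] [CharP K p] (B : Type) [Fintype B]
  [DecidableEq B] (E : ED k K p n d r C₀ B) (α : Fin (d + 1) ⊕ Bool → _),
    Val (gs E.J E.y E.h) α → ∃ ζ : Fin n × Fin (d + 1) → PV K n (d + 1),
    (∀ v, ζ v ∈ Fil p (RR k (gs E.J E.y E.h) α) (nz p E.Z (E.y (α (.inr false)).2.1)) (v.1 + 1)
      (lw p n _ v)) ∧
    (∀ v, nz p E.Z (E.y (α (.inr false)).2.1) v ∈ Fil p (RR k (gs E.J E.y E.h) α) ζ (v.1 + 1)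
      (lw p n _ v)) ∧
    Lead ζ fun v => (mi E.J (fun i => (α (.inl i)).1) v.2 / mi E.J (fun i => (α (.inl i)).1) (v.2 + 1) /
      E.y (α (.inr false)).2.1) ^ p ^ ((v.1 : ℕ) + 1)

def E_TRI : Prop := ∀ (p n d r C₀ : ℕ) [Fact p.Prime] [CharP K p] (B : Type) [Fintype B]
  [DecidableEq B] (E : ED k K p n d r C₀ B) (m μ e : ℕ), ∃ (_ : LinearOrder (AA p n (d + 1) m))
    (π : AA p n (d + 1) m → PV K n (d + 1) →ₗ[K] K) (ee : _ → AA p n (d + 1) m → PV K n (d + 1)),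
    Tri k (gs E.J E.y E.h) π ee (fun a => ddE p r μ e a.1) ∧
    ∀ α, Val (gs E.J E.y E.h) α → ∀ a, C (E.y (α (.inr false)).2.1 ^ e) * ee α a ∈
      Fil p (RR k (gs E.J E.y E.h) α) (nz p E.Z (E.y (α (.inr false)).2.1)) n m

end

/-! ### Numerics -/

def E_GEO : Prop := ∀ (S : Type) [Fintype S] (x : S → ℝ), (∀ s, 0 ≤ x s) → (∀ s, x s < 1) →
  HasSum (fun j : S → ℕ => ∏ s, x s ^ j s) (∏ s, (1 - x s)⁻¹)

/-- The partition function with weights `w`, at temperature `θ`, tilted by `l`. -/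
noncomputable def ZZ {S : Type} [Fintype S] (w l : S → ℝ) (θ : ℝ) : ℝ :=
  ∏ s, (1 - Real.exp (-(w s / θ * (1 - l s))))⁻¹

def E_TILT : Prop := ∀ (S : Type) [Fintype S] (w : S → ℝ), (∀ s, 0 < w s) → ∃ θ₀ : ℝ, 0 < θ₀ ∧
  ∀ θ, θ₀ ≤ θ → ∀ l : S → ℝ, (∀ s, |l s| ≤ 1 / 2) →
    ZZ w l θ ≤ 2 * (∏ s, (1 - l s)⁻¹) * ZZ w 0 θ ∧
    ∏ s, (1 - l s)⁻¹ ≤ Real.exp (∑ s, l s + 2 * ∑ s, l s ^ 2)

def E_NUM1 : Prop := ∀ (d D : ℕ) (η : ℝ), 1 ≤ d → 1 ≤ D → 0 < η → ∃ (n : ℕ) (κ : ℝ), 0 < κ ∧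
  ∀ p m₀ : ℕ, 0 < p → ∃ m, m₀ ≤ m ∧ ∑ a ∈ AA p n D m, ∑ i, |(Am p a i : ℝ) - κ * m| ^ d ≤
    η * (AA p n D m).card * (κ * m) ^ d

def E_NUM2 : Prop := ∀ d r C₁ : ℕ, 1 ≤ d → 1 ≤ r → ∃ n q : ℕ, 0 < q ∧ ∀ p n₀ : ℕ, 0 < p →
  ∃ m μ e : ℕ, 0 < m ∧ m ≤ q * e ∧ ∑ a ∈ AA p n (d + 1) m,
    d ^ d * (C₁ * flu p r μ e n₀ a * (μ + flu p r μ e n₀ a + 1) ^ (d - 1)) <
      (AA p n (d + 1) m).card * μ ^ d

/-! ### The existence theorem -/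

def E_EXIST : Prop := ∀ d r C₀ : ℕ, 1 ≤ d → 1 ≤ r → ∃ n q : ℕ, 0 < q ∧
  ∀ (k K : Type u) [Field k] [Field K] [Algebra k K] [Infinite k] (p : ℕ) [Fact p.Prime]
    [CharP K p] (B : Type) [Fintype B] [DecidableEq B] (E : ED k K p n d r C₀ B),
    ∃ (m e : ℕ) (s : PV K n (d + 1)), 0 < m ∧ m ≤ q * e ∧ s ≠ 0 ∧
      ∀ α, Val (gs E.J E.y E.h) α → C (E.y (α (.inr false)).2.1 ^ e) * s ∈
        Fil p (RR k (gs E.J E.y E.h) α) (nz p E.Z (E.y (α (.inr false)).2.1)) n m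

end Pool.Agent.P.MP_6f117a_ag.EX
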