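import Pool.Agent.P.MP_6f117a_ag.E.Iface

/-! Step LEAD of the proof of the existence of sections. -/

namespace Pool.Agent.P.MP_6f117a_ag.EX

open Module MvPolynomial

universe u

theorem lead_mo {σ τ : Type} [Finite σ] [LinearOrder τ] (f : σ → τ) (hf : Function.Injective f) :
    ∃ mo : MonomialOrder.{0, 0} σ, ∀ v (d : σ →₀ ℕ), (∀ w ∈ d.support, f w < f v) →
      mo.toSyn d < mo.toSyn (Finsupp.single v 1) := by
  let : LinearOrder σ := LinearOrder.lift' (OrderDual.toDual ∘ f) (OrderDual.toDual.injective.comp hf)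
  refine ⟨MonomialOrder.lex, fun v d h => Finsupp.Lex.lt_iff.2 ⟨v, fun j hj => ?_, ?_⟩⟩
  · change d j = Finsupp.single v 1 j
    rw [Finsupp.single_eq_of_ne hj.ne]
    exact Finsupp.notMem_support_iff.1 fun c => (h j c).asymm hj
  · change d v < Finsupp.single v 1 v
    rw [Finsupp.notMem_support_iff.1 fun c => (h v c).false, Finsupp.single_eq_same]
    exact one_pos

theorem lead_mul {σ K : Type*} [CommRing K] (mo : MonomialOrder σ) {f g : MvPolynomial σ K}
    {a b : σ →₀ ℕ} {s t : K} (h : mo.toSyn (mo.degree f) ≤ mo.toSyn a ∧ coeff a f = s)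
    (h' : mo.toSyn (mo.degree g) ≤ mo.toSyn b ∧ coeff b g = t) :
    mo.toSyn (mo.degree (f * g)) ≤ mo.toSyn (a + b) ∧ coeff (a + b) (f * g) = s * t :=
  ⟨mo.degree_mul_le.trans (by rw [map_add, map_add]; exact add_le_add h.1 h'.1), by
    rw [mo.coeff_mul_of_add_of_degree_le h.1 h'.1, h.2, h'.2]⟩

theorem pLEAD (K : Type u) [Field K] : E_LEAD K := by
  classical
  intro n D
  obtain ⟨mo, hmo⟩ := lead_mo (toLex : Fin n × Fin D → _) toLex.injective
  refine ⟨mo, fun ζ t hL => ?_⟩
  have h1 : ∀ v, mo.toSyn (mo.degree (ζ v)) ≤ mo.toSyn (Finsupp.single v 1) ∧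
      coeff (Finsupp.single v 1) (ζ v) = t v := by
    intro v
    obtain ⟨c, c1, c2, c3⟩ := hL v
    obtain ⟨r, e, hr⟩ : ∃ r, ζ v = ∑ i, C (c i) * X (v.1, i) + r ∧
        ∀ d ∈ r.support, mo.toSyn d < mo.toSyn (Finsupp.single v 1) :=
      ⟨_, (add_sub_cancel _ _).symm, fun d hd => hmo v d fun w hw => Prod.Lex.toLex_lt_toLex.2
        (Or.inl (mem_supported.1 c3 (support_subset_vars_of_mem_support hd hw)))⟩
    rw [e]
    refine ⟨mo.degree_add_le.trans (sup_le (mo.degree_sum_le.trans (Finset.sup_le fun i _ => ?_))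
      (mo.degree_le_iff.2 fun d hd => (hr d hd).le)), ?_⟩
    · rcases lt_trichotomy i v.2 with h | rfl | h
      · rw [C_mul_X_eq_monomial]
        refine (mo.degree_monomial_le _).trans (hmo v _ fun w hw => ?_).le
        rw [Finset.mem_singleton.1 (Finsupp.support_single_subset hw)]
        exact Prod.Lex.toLex_lt_toLex.2 (Or.inr ⟨rfl, h⟩)
      · rw [C_mul_X_eq_monomial]
        exact mo.degree_monomial_le _
      · simp [c1 i h]
    · rw [coeff_add, notMem_support_iff.1 fun h => (hr _ h).false, add_zero, coeff_sum,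
        Finset.sum_eq_single v.2 (fun i _ h => ?_) (by simp), ← c2]
      · simp
      · rw [C_mul_X_eq_monomial, coeff_monomial, if_neg]
        exact fun e => h (congrArg Prod.snd (Finsupp.single_left_injective one_ne_zero e))
  have h2 : ∀ a : Fin n × Fin D →₀ ℕ,
      mo.toSyn (mo.degree (a.prod fun v e => ζ v ^ e)) ≤ mo.toSyn a ∧
      coeff a (a.prod fun v e => ζ v ^ e) = a.prod fun v e => t v ^ e := by
    intro a
    induction a using Finsupp.induction_linear with
    | zero => simp
    | add a b ha hb =>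
      rw [Finsupp.prod_add_index' (by simp) fun _ _ _ => pow_add _ _ _,
        Finsupp.prod_add_index' (by simp) fun _ _ _ => pow_add _ _ _]
      exact lead_mul mo ha hb
    | single v e =>
      rw [Finsupp.prod_single_index (h := fun v e => ζ v ^ e) (pow_zero _),
        Finsupp.prod_single_index (h := fun v e => t v ^ e) (pow_zero _)]
      induction e with
      | zero => simp
      | succ e ih =>
        rw [pow_succ, pow_succ, Finsupp.single_add]
        exact lead_mul mo ih (h1 v)
  exact fun a => ⟨fun a' h => mo.coeff_eq_zero_of_lt ((h2 a).1.trans_lt h), (h2 a).2⟩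

end Pool.Agent.P.MP_6f117a_ag.EX
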