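import Pool.Agent.P.MP_6f117a_ag.E.Iface

/-! Step PIG of the proof of the existence of sections. -/

namespace Pool.Agent.P.MP_6f117a_ag.EX

open Module MvPolynomial

universe u

section

variable {k K : Type u} [Field k] [Field K] [Algebra k K]

theorem pig_prod_mem {J : Type} (S : Submodule k K) (x : J → K) (hx : ∀ j, x j ∈ S)
    (s : Finset J) : ∏ j ∈ s, x j ∈ S ^ s.card := by
  classical
  induction s using Finset.induction_on with
  | empty => simp
  | insert j s hj ih =>
    rw [Finset.prod_insert hj, Finset.card_insert_of_notMem hj, pow_succ']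
    exact Submodule.mul_mem_mul (hx j) ih

theorem pig_le_sum {A : Type} [Fintype A] (P : A → Submodule k K) (a : A) : P a ≤ ∑ a, P a := by
  classical
  rw [← Finset.add_sum_erase _ _ (Finset.mem_univ a)]
  exact le_sup_left

theorem pig_mem_sum {A : Type} (P : A → Submodule k K) (s : Finset A) :
    ∀ x ∈ ∑ a ∈ s, P a, ∃ y : A → K, (∀ a, y a ∈ P a) ∧ x = ∑ a ∈ s, y a := by
  classical
  induction s using Finset.induction_on with
  | empty =>
    intro x hx
    refine ⟨0, fun a => (P a).zero_mem, ?_⟩
    simpa using hx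
  | insert a s ha ih =>
    intro x hx
    rw [Finset.sum_insert ha, Submodule.add_eq_sup, Submodule.mem_sup] at hx
    obtain ⟨z, hz, w, hw, rfl⟩ := hx
    obtain ⟨y, hy, rfl⟩ := ih w hw
    refine ⟨Function.update y a z, fun b => ?_, ?_⟩
    · by_cases h : b = a
      · subst h; simpa using hz
      · simpa [h] using hy b
    · rw [Finset.sum_insert ha, Function.update_self]
      congr 1
      refine Finset.sum_congr rfl fun b hb => ?_
      rw [Function.update_of_ne (by rintro rfl; exact ha hb)]

theorem pig_prod_le {ι : Type} (P Q : ι → Submodule k K) (h : ∀ i, P i ≤ Q i) (s : Finset ι) :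
    ∏ i ∈ s, P i ≤ ∏ i ∈ s, Q i := by
  classical
  induction s using Finset.induction_on with
  | empty => simp
  | insert i s hi ih =>
    rw [Finset.prod_insert hi, Finset.prod_insert hi]
    exact mul_le_mul' (h i) ih

theorem pig_one {κ : Type} [Fintype κ] (f : κ → K) (M n : ℕ) (hM : 0 < M)
    (hn : Fintype.card κ * M + M ≤ n) : Submodule.span k (Set.range f) ^ n ≤
      ∑ a, Submodule.span k {f a ^ M} * Submodule.span k (Set.range f) ^ (n - M) := by
  classical
  rw [Submodule.span_pow, Submodule.span_le]
  intro x hx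
  obtain ⟨y, hy, rfl⟩ := Set.mem_pow_iff_prod.1 hx
  choose c hc using hy
  have : Nonempty κ := ⟨c ⟨0, by omega⟩⟩
  obtain ⟨a, ha⟩ := Fintype.exists_le_card_fiber_of_mul_le_card c (n := M) (by simp; omega)
  obtain ⟨T, hT, hTc⟩ := Finset.exists_subset_card_eq ha
  refine pig_le_sum _ a ?_
  rw [← Finset.prod_mul_prod_compl T]
  refine Submodule.mul_mem_mul ?_ ?_
  · rw [Finset.prod_congr rfl (g := fun _ => f a) fun j hj => by
      rw [← hc j, (Finset.mem_filter.1 (hT hj)).2], Finset.prod_const, hTc]
    exact Submodule.mem_span_singleton_self _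
  · have := pig_prod_mem (Submodule.span k (Set.range f)) y
      (fun j => Submodule.subset_span ⟨c j, hc j⟩) Tᶜ
    rwa [Finset.card_compl, hTc, Fintype.card_fin] at this

theorem pig_span_prod {ι : Type} (x : ι → K) (s : Finset ι) :
    ∏ i ∈ s, Submodule.span k {x i} = Submodule.span k {∏ i ∈ s, x i} := by
  classical
  induction s using Finset.induction_on with
  | empty => simp [Submodule.one_eq_span]
  | insert i s hi ih =>
    rw [Finset.prod_insert hi, Finset.prod_insert hi, ih, Submodule.span_mul_span,
      Set.singleton_mul_singleton]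

end

theorem pPIG (k K : Type u) [Field k] [Field K] [Algebra k K] :
    E_PIG k K := by
  classical
  intro ι κ _ _ _ g M n hM hn b hb
  have h1 := pig_prod_le _ _ (fun i => pig_one (k := k) (g i) M (n i) hM (hn i)) Finset.univ hb
  rw [Finset.prod_univ_sum, Fintype.piFinset_univ] at h1
  obtain ⟨y, hy, rfl⟩ := pig_mem_sum _ _ b h1
  have h2 : ∀ α : ι → κ, ∃ z ∈ BB k g (n - fun _ => M), gz g α (fun _ => M) * z = y α := by
    intro α
    have := hy α
    rw [Finset.prod_mul_distrib, pig_span_prod, Submodule.mem_span_singleton_mul] at this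
    obtain ⟨z, hz, h⟩ := this
    refine ⟨z, hz, ?_⟩
    rw [← h, gz, ← mz_nat (fun i => g i (α i)) fun _ => M]
  choose z hz hz' using h2
  refine ⟨fun α => if Val g α then z α else 0, fun α => ?_, fun α h => if_neg h, ?_⟩
  · beta_reduce
    split_ifs
    exacts [hz α, Submodule.zero_mem _]
  · refine Finset.sum_congr rfl fun α _ => ?_
    rw [← hz' α]
    beta_reduce
    split_ifs with h
    · exact mul_comm _ _
    · obtain ⟨i, hi⟩ := not_forall.1 h
      have : gz g α (fun _ => (M : ℤ)) = 0 := by
        rw [gz, mz_nat (fun i => g i (α i)) fun _ => M]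
        exact Finset.prod_eq_zero (Finset.mem_univ i) (by rw [not_not.1 hi, zero_pow hM.ne'])
      rw [this, zero_mul, zero_mul]

end Pool.Agent.P.MP_6f117a_ag.EX
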