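import Pool.Agent.P.MP_6f117a_ag.E.WIface
import Pool.Agent.P.MP_6f117a_ag.PJ.TW1
import Pool.Agent.P.MP_6f117a_ag.PJ.TW2
import Pool.Agent.P.MP_6f117a_ag.PJ.TW3
import Pool.Agent.P.MP_6f117a_ag.PJ.TW4b

/-! Step BOUND of the passage from the generic point to sections and norms. -/

namespace Pool.Agent.P.MP_6f117a_ag.EX

open Module MvPolynomial Sp

/-- Polynomials of weight at most `j` whose coefficients have denominators dividing `U ^ j`. -/
def wbound_F {K σ : Type} [Field K] (V : ValuationSubring K) {U : K} (hU : U ∈ V) (w : σ → ℕ) :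
    PJ.Fil (MvPolynomial σ K) where
  F j :=
    { carrier := {g | ∀ a, U ^ j * coeff a g ∈ V ∧ (coeff a g ≠ 0 → Finsupp.weight w a ≤ j)}
      add_mem' := fun {f g} h1 h2 a => ⟨by
        rw [coeff_add, mul_add]; exact add_mem (h1 a).1 (h2 a).1, fun h => by
        by_cases e : coeff a f = 0
        · exact (h2 a).2 (by rwa [coeff_add, e, zero_add] at h)
        · exact (h1 a).2 e⟩
      zero_mem' := fun a => by simp
      neg_mem' := fun {f} h a => ⟨by
        rw [coeff_neg, mul_neg]; exact neg_mem (h a).1, fun e => (h a).2 (by simpa using e)⟩ }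
  mono {i j} h f hf a := by
    obtain ⟨e, rfl⟩ := Nat.exists_eq_add_of_le h
    refine ⟨?_, fun h' => ((hf a).2 h').trans h⟩
    rw [add_comm, pow_add, mul_assoc]
    exact mul_mem (pow_mem hU e) (hf a).1
  one a := by
    classical
    rw [coeff_one]
    split_ifs with h
    · subst h; simp
    · simp
  mul {i j f g} h1 h2 a := by
    classical
    rw [coeff_mul]
    refine ⟨?_, fun h => ?_⟩
    · rw [Finset.mul_sum]
      refine sum_mem fun x _ => ?_
      rw [pow_add, mul_mul_mul_comm]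
      exact mul_mem (h1 _).1 (h2 _).1
    · obtain ⟨x, hx, h0⟩ := Finset.exists_ne_zero_of_sum_ne_zero h
      rw [← Finset.HasAntidiagonal.mem_antidiagonal.1 hx, map_add]
      exact add_le_add ((h1 _).2 (left_ne_zero_of_mul h0)) ((h2 _).2 (right_ne_zero_of_mul h0))

theorem wbound_C {K σ : Type} [Field K] {V : ValuationSubring K} {U : K} (hU : U ∈ V) (w : σ → ℕ)
    {x : K} {j : ℕ} (hx : U ^ j * x ∈ V) : (C x : MvPolynomial σ K) ∈ (wbound_F V hU w).F j := by
  classical
  intro a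
  rw [coeff_C]
  split_ifs with h
  · subst h; exact ⟨hx, fun _ => by simp⟩
  · simp

theorem wbound_X {K σ : Type} [Field K] {V : ValuationSubring K} {U : K} (hU : U ∈ V) (w : σ → ℕ)
    (v : σ) : (X v : MvPolynomial σ K) ∈ (wbound_F V hU w).F (w v) := by
  classical
  intro a
  rw [coeff_X]
  split_ifs with h
  · subst h; exact ⟨by simpa using pow_mem hU _, fun _ => by simp [Finsupp.weight_single]⟩
  · simp

theorem wbound_der {R S ι : Type} [CommRing R] [CommRing S] (φ : R →+* S) (x : ι → S)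
    (g : MvPolynomial (Option ι) R) :
    Polynomial.derivative (eval₂ (Polynomial.C.comp φ)
      (fun o : Option ι => o.elim Polynomial.X fun i => Polynomial.C (x i)) g) =
    eval₂ (Polynomial.C.comp φ)
      (fun o : Option ι => o.elim Polynomial.X fun i => Polynomial.C (x i)) (pderiv none g) := by
  classical
  induction g using MvPolynomial.induction_on with
  | C c => simp
  | add f g hf hg => simp only [eval₂_add, map_add, hf, hg]
  | mul_X f o hf =>
    rw [eval₂_mul, Polynomial.derivative_mul, hf, pderiv_mul, eval₂_add, eval₂_mul, eval₂_mul,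
      eval₂_X]
    cases o <;> simp

theorem wbound_eval {R S ι : Type} [CommRing R] [CommRing S] (φ : R →+* S) (x : ι → S) (z : S)
    (g : MvPolynomial (Option ι) R) :
    (eval₂ (Polynomial.C.comp φ)
      (fun o : Option ι => o.elim Polynomial.X fun i => Polynomial.C (x i)) g).eval z =
    eval₂ φ (fun o : Option ι => o.elim z x) g := by
  rw [← Polynomial.coe_evalRingHom, eval₂_comp_left]
  congr 1
  · ext a; simp
  · funext o; cases o <;> simp

theorem wbound_coeff {R S ι : Type} [CommRing R] [CommRing S] (φ : R →+* S) (x : ι → S)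
    (T : Subring S) (hφ : ∀ a, φ a ∈ T) (hx : ∀ i, x i ∈ T) (g : MvPolynomial (Option ι) R)
    (j : ℕ) : (eval₂ (Polynomial.C.comp φ)
      (fun o : Option ι => o.elim Polynomial.X fun i => Polynomial.C (x i)) g).coeff j ∈ T := by
  obtain ⟨Q, hQ⟩ : eval₂ (Polynomial.C.comp φ)
      (fun o : Option ι => o.elim Polynomial.X fun i => Polynomial.C (x i)) g ∈
      (Polynomial.mapRingHom T.subtype).range := by
    refine eval₂_mem (fun a _ => ?_) ?_
    · exact ⟨Polynomial.C ⟨_, hφ (coeff a g)⟩, by simp⟩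
    rintro (_ | i)
    · exact ⟨Polynomial.X, by simp⟩
    · exact ⟨Polynomial.C ⟨_, hx i⟩, by simp⟩
  rw [← hQ, Polynomial.coe_mapRingHom, Polynomial.coeff_map]
  exact (Q.coeff j).2

theorem wbound_fil {k K : Type} [Field k] [Field K] [Algebra k K] {p n D L m : ℕ} {B : Type}
    {R : Subalgebra k K} {W : Fin n × B → PV K n D} (F : PJ.Fil (PV K n D))
    (hR : ∀ x ∈ R, C x ∈ F.F 0) (hW : ∀ v, W v ∈ F.F (lw p n B v)) {s : PV K n D}
    (hs : s ∈ Fil p R W L m) : s ∈ F.F m := by
  induction hs using Submodule.span_induction with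
  | mem s hs =>
    obtain ⟨a, -, h2, rfl⟩ := hs
    exact F.mono h2 (F.prod a.support (fun v => W v ^ a v) (fun v => a v * lw p n B v)
      fun v _ => F.pow (hW v) _)
  | zero => exact zero_mem _
  | add _ _ _ _ h1 h2 => exact add_mem h1 h2
  | smul c s _ h1 =>
    have := F.mul (hR c c.2) h1
    rwa [zero_add, ← smul_eq_C_mul] at this

section

variable {p : ℕ} [Fact p.Prime] {k : Type} [Field k] {M : Sp.Mod (WittVector p k)}
  {K : Type} [Field K] [Algebra k K] {d r C₀ δ : ℕ} (G : L0 M K d r C₀ δ)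

theorem wbound_chart (V : ValuationSubring K) (hk : ∀ t, algebraMap k K t ∈ V) {c}
    (hc : G.y c ≠ 0) (hy : ∀ b, G.y b / G.y c ∈ V) : ∃ α, Val (gs G.J G.y G.h) α ∧
      (α (.inr false)).2.1 = c ∧ ∀ x ∈ RR k (gs G.J G.y G.h) α, x ∈ V := by
  have : ∀ i, ∃ a, gs G.J G.y G.h i a ≠ 0 ∧
      (∀ a', gs G.J G.y G.h i a' / gs G.J G.y G.h i a ∈ V) ∧ (i = .inr false → a.2.1 = c) := by
    intro i
    by_cases hi : i = .inr false
    · subst hi
      exact ⟨(fun _ => c, c, 0), hc, fun a' => hy _, fun _ => rfl⟩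
    obtain ⟨a, ha⟩ := Finite.exists_max fun a => V.valuation (gs G.J G.y G.h i a)
    obtain ⟨a₀, h₀⟩ := G.fam_ne i
    have h1 : 0 < V.valuation (gs G.J G.y G.h i a) :=
      ((Valuation.pos_iff _).2 h₀).trans_le (ha a₀)
    refine ⟨a, (Valuation.pos_iff _).1 h1, fun a' => ?_, fun h => (hi h).elim⟩
    rw [← V.valuation_le_one_iff, map_div₀, div_le_one₀ h1]
    exact ha a'
  choose α h1 h2 h3 using this
  refine ⟨α, h1, h3 _ rfl, fun x hx => ?_⟩
  induction hx using Algebra.adjoin_induction with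
  | mem x hx => obtain ⟨i, a, rfl⟩ := hx; exact h2 i a
  | algebraMap t => exact hk t
  | add _ _ _ _ h h' => exact add_mem h h'
  | mul _ _ _ _ h h' => exact mul_mem h h'

theorem wbound_core [CharP K p] {n : ℕ} {Zw : _ → WittVector p (PV K n (d + 1))} (hZ : G.Jet Zw)
    (V : ValuationSubring K) (hk : ∀ t, algebraMap k K t ∈ V) {c} (hc : G.y c ≠ 0)
    (hy : ∀ b, G.y b / G.y c ∈ V) {m e : ℕ} {s : PV K n (d + 1)} (hs : G.Glob Zw m e s) (a) :
    (∏ b, e0 (fun b => (G.y c)⁻¹ * G.y b) (M.der b)) ^ ((n + 1) * m) * (G.y c ^ e * coeff a s) ∈ V ∧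
      (coeff a s ≠ 0 →
        Finsupp.weight (fun v : Fin n × Fin (d + 1) => p ^ ((v.1 : ℕ) + 1)) a ≤ (n + 1) * m) := by
  classical
  have hy' : ∀ b, (G.y c)⁻¹ * G.y b ∈ V := fun b => by rw [← div_eq_inv_mul]; exact hy b
  have hi : (G.y c)⁻¹ ∈ V := by simpa [G.y0] using hy' (M.e (G.ε 0))
  set u : Fin (M.N + 1) → K := fun b => e0 (fun b => (G.y c)⁻¹ * G.y b) (M.der b) with hu
  have uV : ∀ b, u b ∈ V := fun b => by
    simp only [hu]
    rw [e0_eq, coe_eval₂Hom]
    refine eval₂_mem (fun a _ => ?_) hy'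
    exact hk (WittVector.constantCoeff (coeff a (M.der b)))
  have u0 : ∀ b, u b ≠ 0 := fun b => by
    simp only [hu]
    rw [e0_hom _ _ (g := M.der b) (M.f_hom b).pderiv.rename_isHomogeneous]
    exact mul_ne_zero (pow_ne_zero _ (inv_ne_zero hc)) (e0_ne (der_dvd M b) G.del)
  have hU : ∏ b, u b ∈ V := prod_mem fun b _ => uV b
  set F := wbound_F V hU (fun v : Fin n × Fin (d + 1) => p ^ ((v.1 : ℕ) + 1)) with hF
  have F0 : ∀ x ∈ V, C x ∈ F.F 0 := fun x hx => wbound_C hU _ (by simpa using hx)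
  set W : Fin (M.N + 1) → WittVector p (PV K n (d + 1)) :=
    fun b => WittVector.teichmuller p (C (G.y c)⁻¹) * Zw b with hW
  have W0 : ∀ b, (W b).coeff 0 = C ((G.y c)⁻¹ * G.y b) := fun b => by
    simp only [hW]
    rw [PJ.t_W3, hZ.zero, pow_zero, pow_one, map_mul]
  obtain ⟨T, hT⟩ := PJ.t_W1 PJ.t_W3 p (PV K n (d + 1)) n F
  have Tk : ∀ t, WittVector.map (p := p) (algebraMap k (PV K n (d + 1))) t ∈ T := fun t =>
    (hT _).2 fun l _ => F.mono (Nat.zero_le _) (F0 _ (hk (t.coeff l)))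
  have Tf : ∀ i, W (M.e i) ∈ T := fun i => (hT _).2 fun l hl => by
    obtain ⟨i, rfl⟩ := G.ε.surjective i
    cases l with
    | zero => rw [W0, zero_mul]; exact F0 _ (hy' _)
    | succ l =>
      simp only [hW]
      rw [PJ.t_W3, hZ.free i ⟨l, hl⟩, ← map_pow]
      refine F.mono ?_ (F.mul (F0 _ (pow_mem hi _)) (wbound_X hU _ _))
      rw [zero_add]
      exact Nat.le_mul_of_pos_left _ l.succ_pos
  have key : ∀ b, PJ.WIn p n (F.scale (n + 1)) (W b) := fun b => by
    have ee : (fun o : Option M.ι => o.elim (W b) fun i => W (M.e i)) =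
        W ∘ fun o : Option M.ι => o.elim b M.e := by funext o; cases o <;> rfl
    refine (PJ.t_W4b (PJ.t_W1 PJ.t_W3) (PJ.t_W2 PJ.t_W3) p _ n F _ (W b) (C (u b)⁻¹)
      (fun j => (hT _).1 (wbound_coeff _ _ T Tk Tf (M.f b) j)) ?_ ?_ ?_).2 ?_
    · rw [wbound_eval, ee, ← eval₂_rename]
      refine (eval₂_hom _ _ Zw (M.f_hom b).rename_isHomogeneous).trans ?_
      exact mul_eq_zero_of_right _ (hZ.eqn b)
    · rw [W0]; exact F0 _ (hy' _)
    · rw [wbound_der, wbound_eval, ee, ← eval₂_rename, coeff_zero_eval₂]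
      simp only [W0]
      have := e0_map (IsScalarTower.toAlgHom k K (PV K n (d + 1)))
        (fun b => (G.y c)⁻¹ * G.y b) (M.der b)
      simp only [IsScalarTower.coe_toAlgHom', algebraMap_eq] at this
      rw [← Mod.der, ← this, ← map_mul, inv_mul_cancel₀ (u0 b), map_one]
    · refine wbound_C hU _ ?_
      rw [pow_one, ← Finset.mul_prod_erase _ _ (Finset.mem_univ b), mul_right_comm,
        mul_inv_cancel₀ (u0 b), one_mul]
      exact prod_mem fun b _ => uV b
  obtain ⟨α, h1, h2, h3⟩ := wbound_chart G V hk hc hy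
  have h4 := hs α h1
  rw [h2] at h4
  have h5 := wbound_fil (F.scale (n + 1)) (fun x hx => F0 x (h3 x hx)) (fun v => by
    have := key v.2 (v.1 + 1) v.1.2
    simp only [hW] at this
    rwa [PJ.t_W3, ← map_pow, inv_pow] at this) h4 a
  rw [coeff_C_mul] at h5
  exact ⟨h5.1, fun h => h5.2 (mul_ne_zero (pow_ne_zero _ hc) h)⟩

end

theorem wBOUND {p : ℕ} [Fact p.Prime] {k : Type} [Field k] [CharP k p] {M : Sp.Mod (WittVector p k)}
    {K : Type} [Field K] [Algebra k K] [CharP K p] {d r C₀ δ : ℕ} (G : L0 M K d r C₀ δ) (n : ℕ) :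
    W_BOUND G n := by
  intro Zw m e s hZ hs a ha
  refine ⟨(wbound_core G hZ ⊤ (fun _ => trivial) (c := M.e (G.ε 0)) (by simp [G.y0])
    (fun _ => trivial) hs a).2 (mem_support_iff.1 ha), fun V hk c hc hy => ?_⟩
  have h := (wbound_core G hZ V hk hc hy hs a).1
  have hi : (G.y c)⁻¹ ∈ V := by simpa [G.y0] using hy (M.e (G.ε 0))
  have e1 : ∀ b, e0 (fun b => (G.y c)⁻¹ * G.y b) (M.der b) =
      (G.y c)⁻¹ ^ (M.df b - 1) * e0 G.y (M.der b) := fun b =>
    e0_hom _ _ (M.f_hom b).pderiv.rename_isHomogeneous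
  obtain ⟨t, ht⟩ := Nat.exists_eq_add_of_le
    (Finset.sum_le_sum (s := Finset.univ) fun b _ => Nat.sub_le (M.df b) 1)
  simp only [e1, Finset.prod_mul_distrib, Finset.prod_pow_eq_pow_sum] at h
  have := mul_mem h (pow_mem hi (e + t * ((n + 1) * m)))
  refine (congrArg (· ∈ V) ?_).mp this
  rw [sdf, ht]
  generalize (n + 1) * m = N
  simp only [mul_pow, ← pow_mul, add_mul, pow_add, inv_pow]
  field_simp

end Pool.Agent.P.MP_6f117a_ag.EX
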