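import Pool.Agent.P.MP_6f117a_ag.E.Iface
import Pool.Agent.P.MP_6f117a_ag.C.VIface

/-! From the generic point of a model in characteristic `p` to sections on jet spaces. -/

namespace Pool.Agent.P.MP_6f117a_ag.EX

open Module MvPolynomial Sp

section

variable {p : ℕ} [Fact p.Prime] {k : Type} [Field k]

/-- Evaluation of the reduction of a polynomial with Witt vector coefficients. -/
noncomputable def e0 {σ A : Type} [CommRing A] [Algebra k A] (y : σ → A)
    (g : MvPolynomial σ (WittVector p k)) : A :=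
  aeval y (MvPolynomial.map WittVector.constantCoeff g)

/-- The generic point of the reduction of a model, with certificates for smoothness and for a big
pluricanonical system. -/
structure L0 (M : Sp.Mod (WittVector p k)) (K : Type) [Field K] [Algebra k K] (d r C₀ δ : ℕ) where
  ε : Fin (d + 1) ≃ M.ι
  y : Fin (M.N + 1) → K
  J : Fin (d + 1) → Fin (M.N + 1) → K
  h : Fin (d + 1) → K
  y0 : y (M.e (ε 0)) = 1
  eqn : ∀ a, e0 y (M.eqn a) = 0
  del : e0 y M.Del ≠ 0
  jac : ∀ i b, J i b * e0 y (M.der b) +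
    e0 (fun o : Option M.ι => y (o.elim b M.e)) (pderiv (some (ε i)) (M.f b)) = 0
  univ : ∀ (Ω : Type) [Field Ω] [Algebra k Ω] (y' : Fin (M.N + 1) → Ω), y' (M.e (ε 0)) = 1 →
    (∀ a, e0 y' (M.eqn a) = 0) → e0 y' M.Del ≠ 0 →
    ∀ T : MvPolynomial (Fin (M.N + 1)) k, aeval y T = 0 → aeval y' T = 0
  x0 : ∃ g j, M.h g j = X (M.e (ε 0))
  fam : ∀ i, ∃ (g : M.G) (w : K), w ≠ 0 ∧ (∀ j, ∃ a, e0 y (M.h g j) = w * gs J y h i a) ∧
    ∀ a, gs J y h i a ≠ 0 → ∃ j, e0 y (M.h g j) = w * gs J y h i a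
  rel : ∀ c, y c ≠ 0 → ∃ (T : ℕ) (R : Fin T → MvPolynomial (Fin (M.N + 1)) (WittVector p k))
    (lam : Fin (M.N + 1) → Fin T → K) (Θ : Fin (d + 1) → Fin (M.N + 1) → K),
    (∀ t, ∃ e, (R t).IsHomogeneous e) ∧
    (∀ t (Ω : Type) [Field Ω] [Algebra k Ω] (z : Fin (M.N + 1) → WittVector p Ω), M.Pt z →
      eval₂ (WittVector.map (algebraMap k Ω)) z (R t) = 0) ∧
    (∀ b t, lam b t ∈ Rc k y c) ∧
    ∀ b b', (if b = b' then 1 else 0) =
      ∑ t, lam b t * e0 (fun a => y a / y c) (pderiv b' (R t)) + ∑ i, J i b * Θ i b'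
  h_ne : h 0 ≠ 0
  ind : AlgebraicIndependent k fun j : Fin d => h j.succ / h 0
  plu : ∀ c, y c ≠ 0 → ∀ j, h j * y c ^ (r * (d + 1)) ∈
    Submodule.span (Rc k y c) (Set.range (minor J 0)) ^ r
  dim : ∀ t : ℕ, finrank k
    (Submodule.span k (Set.range (Function.uncurry (gs J y h))) ^ t : Submodule k K) ≤
      C₀ * (t + 1) ^ d
  indx : AlgebraicIndependent k fun i : Fin d => y (M.e (ε i.succ))
  fd : FiniteDimensional (IntermediateField.adjoin k (Set.range fun i => y (M.e (ε i)))) K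
  fin : finrank (IntermediateField.adjoin k (Set.range fun i => y (M.e (ε i)))) K ≤ δ

variable {M : Sp.Mod (WittVector p k)} {K : Type} [Field K] [Algebra k K] {d r C₀ δ : ℕ}
  (G : L0 M K d r C₀ δ) {n : ℕ}

/-- The generic jet of order `n`. -/
structure L0.Jet (Zw : Fin (M.N + 1) → WittVector p (PV K n (d + 1))) : Prop where
  zero : ∀ b, (Zw b).coeff 0 = C (G.y b)
  free : ∀ i (l : Fin n), (Zw (M.e (G.ε i))).coeff (l + 1) = X (l, i)
  eqn : ∀ a, eval₂ (WittVector.map (algebraMap k _)) Zw (M.eqn a) = 0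

/-- The components of positive level. -/
def lev {A B : Type} (n : ℕ) (z : B → WittVector p A) : Fin n × B → A :=
  fun v => (z v.2).coeff (v.1 + 1)

/-- The regular functions on the jets of the locus where `Del` does not vanish. -/
noncomputable def L0.Reg (Zw : Fin (M.N + 1) → WittVector p (PV K n (d + 1))) :
    Subalgebra k (PV K n (d + 1)) :=
  Algebra.adjoin k (insert (C (e0 G.y M.Del)⁻¹)
    (Set.range (fun b => C (G.y b)) ∪ Set.range (lev n Zw)))

/-- The graph of the evaluation of regular functions at the normalisation of the point `z`. -/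
noncomputable def L0.Gr (Zw : Fin (M.N + 1) → WittVector p (PV K n (d + 1))) {Ω : Type} [Field Ω]
    [Algebra k Ω] (z : Fin (M.N + 1) → WittVector p Ω) : Subalgebra k (PV K n (d + 1) × Ω) :=
  Algebra.adjoin k (insert
    (C (e0 G.y M.Del)⁻¹, (M.ev0 z M.Del / (z (M.e (G.ε 0))).coeff 0 ^ M.dDel)⁻¹)
    (Set.range (fun b => (C (G.y b), (z b).coeff 0 / (z (M.e (G.ε 0))).coeff 0)) ∪
      Set.range fun v => (lev n Zw v,
        lev n z v / (z (M.e (G.ε 0))).coeff 0 ^ p ^ ((v.1 : ℕ) + 1))))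

/-- Every point is a specialisation of the generic jet. -/
def L0.Univ (Zw : Fin (M.N + 1) → WittVector p (PV K n (d + 1))) : Prop :=
  ∀ (Ω : Type) [Field Ω] [Algebra k Ω] (z : Fin (M.N + 1) → WittVector p Ω), M.Pt z →
    ∀ σ : Ω, (0, σ) ∈ G.Gr Zw z → σ = 0

/-- `S / Del ^ ρ` is the homogeneous function of degree `-e` that extends `s`. -/
def L0.Rep (Zw : Fin (M.N + 1) → WittVector p (PV K n (d + 1))) (s : PV K n (d + 1)) (e : ℤ) (ρ : ℕ)
    (S : MvPolynomial (Fin (M.N + 1) × ℕ) k) : Prop :=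
  ∀ (Ω : Type) [Field Ω] [Algebra k Ω] (z : Fin (M.N + 1) → WittVector p Ω), M.Pt z →
    (s, (z (M.e (G.ε 0))).coeff 0 ^ e * Sp.Mod.ev z S / M.ev0 z M.Del ^ ρ) ∈ G.Gr Zw z

/-- The conclusion of the existence theorem. -/
def L0.Glob (Zw : Fin (M.N + 1) → WittVector p (PV K n (d + 1))) (m e : ℕ) (s : PV K n (d + 1)) :
    Prop :=
  ∀ α, Val (gs G.J G.y G.h) α → C (G.y (α (.inr false)).2.1 ^ e) * s ∈
    Fil p (RR k (gs G.J G.y G.h) α) (nz p (lev n Zw) (G.y (α (.inr false)).2.1)) n m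

end

/-- The sum of the degrees of the equations. -/
def sdf {R : Type} [CommRing R] (M : Sp.Mod R) : ℕ := ∑ a, M.df a

end Pool.Agent.P.MP_6f117a_ag.EX
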