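import Pool.Agent.P.MP_6f117a_ag.E.WIface

/-! Step DOM of the passage from the generic point to sections and norms. -/

namespace Pool.Agent.P.MP_6f117a_ag.EX

open Module MvPolynomial Sp

section

variable {k ι : Type} [Field k]

theorem wdom_eval {A B : Type} [CommRing A] [CommRing B] [Algebra k A] [Algebra k B] [Algebra A B]
    [IsScalarTower k A B] (u : ι → A) (t : B) (F : MvPolynomial (Option ι) k) :
    Polynomial.aeval t ((optionEquivLeft k ι F).map
      (aeval u : MvPolynomial ι k →ₐ[k] A).toRingHom) =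
      aeval (fun o : Option ι => o.elim t fun i => algebraMap A B (u i)) F := by
  induction F using MvPolynomial.induction_on with
  | C a => simp [← IsScalarTower.algebraMap_apply]
  | add f g hf hg => simp only [map_add, Polynomial.map_add, hf, hg]
  | mul_X f o hf =>
    simp only [map_mul, Polynomial.map_mul, hf]
    cases o <;> simp

theorem wdom_der (F : MvPolynomial (Option ι) k) :
    optionEquivLeft k ι (pderiv none F) = Polynomial.derivative (optionEquivLeft k ι F) := by
  classical
  induction F using MvPolynomial.induction_on with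
  | C a => simp
  | add f g hf hg => simp only [map_add, hf, hg]
  | mul_X f o hf =>
    simp only [Derivation.leibniz, smul_eq_mul, map_add, map_mul, hf, Polynomial.derivative_mul]
    cases o <;> simp [pderiv_X, mul_comm]
    ring

theorem wdom_one [Finite ι] {K : Type} [Field K] [Algebra k K] {F : MvPolynomial (Option ι) k}
    {n : ℕ} (hF : F.IsHomogeneous n) (x : ι → K) (t : K)
    (h0 : aeval (fun o : Option ι => o.elim t x) F = 0)
    (h1 : aeval (fun o : Option ι => o.elim t x) (pderiv none F) ≠ 0) :
    ∃ (a : MvPolynomial ι k) (e : ℕ), e ≤ n ∧ aeval x a ≠ 0 ∧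
      ∀ V : ValuationSubring K, (∀ s, algebraMap k K s ∈ V) → ∀ c : K, c ≠ 0 →
        (∀ j, x j / c ∈ V) → aeval x a / c ^ e ∈ V ∧ aeval x a / c ^ e * (t / c) ∈ V := by
  set q := optionEquivLeft k ι F with hq
  have hdeg : q.natDegree ≤ n := by
    rw [hq, natDegree_optionEquivLeft]
    exact (degreeOf_le_totalDegree F none).trans hF.totalDegree_le
  have hhom : ∀ j, (q.coeff j).IsHomogeneous (n - j) := fun j => by
    rcases le_or_gt j n with hj | hj
    · refine IsHomogeneous.coeff_isHomogeneous_of_optionEquivLeft_symm (n := n) ?_ j _ (by omega)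
      rwa [hq, AlgEquiv.symm_apply_apply]
    · rw [Polynomial.coeff_eq_zero_of_natDegree_lt (hdeg.trans_lt hj)]
      exact isHomogeneous_zero _ _ _
  set P := q.map (aeval x : MvPolynomial ι k →ₐ[k] K).toRingHom with hP
  have hP0 : P ≠ 0 := fun h => by
    have e := wdom_eval x t (pderiv none F)
    rw [wdom_der, ← Polynomial.derivative_map, ← hq, ← hP, h, map_zero, map_zero] at e
    exact h1 e.symm
  have hPc : ∀ j, P.coeff j = aeval x (q.coeff j) := fun j => Polynomial.coeff_map _ _
  refine ⟨q.coeff P.natDegree, n - P.natDegree, Nat.sub_le _ _, ?_, fun V hV c hc hx => ?_⟩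
  · rw [← hPc]
    exact Polynomial.leadingCoeff_ne_zero.2 hP0
  let _ : Algebra k V := ((algebraMap k K).codRestrict V.toSubring hV).toAlgebra
  have _ : IsScalarTower k V K := IsScalarTower.of_algebraMap_eq fun _ => rfl
  let u : ι → V := fun j => ⟨x j / c, hx j⟩
  have hsc : ∀ {g : MvPolynomial ι k} {e : ℕ}, g.IsHomogeneous e →
      ((aeval u g : V) : K) = aeval x g / c ^ e := fun {g e} hg => by
    have e1 : ((aeval u g : V) : K) = aeval (fun j => x j / c) g := by
      have := (IsScalarTower.toAlgHom k V K).comp_apply (aeval u) g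
      rw [comp_aeval] at this
      exact this.symm
    have e2 := eval₂_hom (algebraMap k K) c (fun j => x j / c) hg
    simp only [mul_div_cancel₀ _ hc, ← aeval_def] at e2
    rw [e1, e2, mul_div_cancel_left₀ _ (pow_ne_zero _ hc)]
  set Q := q.map (aeval u : MvPolynomial ι k →ₐ[k] V).toRingHom with hQ
  have hQc : ∀ j, ((Q.coeff j : V) : K) = P.coeff j / c ^ (n - j) := fun j => by
    rw [hPc, ← hsc (hhom j), hQ, Polynomial.coeff_map]
    rfl
  have hQd : Q.natDegree = P.natDegree := by
    refine Polynomial.natDegree_eq_of_le_of_coeff_ne_zero ?_ fun h => ?_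
    · refine Polynomial.natDegree_le_iff_coeff_eq_zero.2 fun j hj => Subtype.ext ?_
      rw [hQc, Polynomial.coeff_eq_zero_of_natDegree_lt hj, zero_div]
      rfl
    · have e := hQc P.natDegree
      rw [h] at e
      exact div_ne_zero (Polynomial.leadingCoeff_ne_zero.2 hP0) (pow_ne_zero _ hc) e.symm
  have hroot : Polynomial.aeval (t / c) Q = 0 := by
    rw [hQ, hq, wdom_eval]
    have e2 := eval₂_hom (algebraMap k K) c
      (fun o : Option ι => o.elim (t / c) fun i => algebraMap V K (u i)) hF
    have e3 : (fun o : Option ι => c * o.elim (t / c) fun i => algebraMap V K (u i)) =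
        fun o : Option ι => o.elim t x := by
      funext o
      cases o
      · exact mul_div_cancel₀ _ hc
      · exact mul_div_cancel₀ _ hc
    rw [e3, ← aeval_def, ← aeval_def, h0] at e2
    exact (mul_eq_zero.1 e2.symm).resolve_left (pow_ne_zero _ hc)
  obtain ⟨v, hv⟩ := IsIntegrallyClosed.isIntegral_iff.1 (isIntegral_leadingCoeff_smul Q _ hroot)
  rw [← hPc, ← hQc, ← hQd]
  refine ⟨(Q.coeff _).2, ?_⟩
  have e4 : ((Q.coeff Q.natDegree : V) : K) * (t / c) = v := hv.symm
  rw [e4]
  exact v.2

end

theorem wDOM {p : ℕ} [Fact p.Prime] {k : Type} [Field k] [CharP k p] {M : Sp.Mod (WittVector p k)}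
    {K : Type} [Field K] [Algebra k K] [CharP K p] {d r C₀ δ : ℕ} (G : L0 M K d r C₀ δ) :
    W_DOM G := by
  classical
  have hel : ∀ b, (fun o : Option M.ι => G.y (o.elim b M.e)) =
      fun o : Option M.ι => o.elim (G.y b) fun i => G.y (M.e i) := fun b => by
    funext o
    cases o <;> rfl
  have key := fun b => wdom_one ((M.f_hom b).map WittVector.constantCoeff)
    (fun i => G.y (M.e i)) (G.y b) (by
      have := G.eqn b
      rwa [Sp.Mod.eqn, e0_rename, hel] at this) (by
      have := e0_ne (der_dvd M b) G.del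
      rwa [Sp.Mod.der, e0_rename, hel, e0, ← pderiv_map] at this)
  choose a e he ha hV using key
  have hT : aeval G.x (∏ b, rename G.ε.symm (a b)) = ∏ b, aeval (fun i => G.y (M.e i)) (a b) := by
    rw [map_prod]
    refine Finset.prod_congr rfl fun b _ => ?_
    rw [aeval_rename]
    congr 2
    funext i
    simp [L0.x]
  refine ⟨∏ b, rename G.ε.symm (a b), ?_, fun V hk i hi hx b => ?_⟩
  · rw [hT]
    exact Finset.prod_ne_zero_iff.2 fun b _ => ha b
  have hx' : ∀ j, G.y (M.e j) / G.x i ∈ V := fun j => by simpa [L0.x] using hx (G.ε.symm j)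
  have h1 : 1 / G.x i ∈ V := G.y0 ▸ hx 0
  obtain ⟨m, hm⟩ := Nat.exists_eq_add_of_le
    (Finset.sum_le_sum (s := Finset.univ) fun b _ => he b)
  have e1 : (∏ b, aeval (fun i => G.y (M.e i)) (a b)) * G.y b / G.x i ^ (sdf M + 1) =
      aeval (fun i => G.y (M.e i)) (a b) / G.x i ^ e b * (G.y b / G.x i) *
        (∏ b' ∈ Finset.univ.erase b, aeval (fun i => G.y (M.e i)) (a b') / G.x i ^ e b') *
          (1 / G.x i) ^ m := by
    rw [mul_right_comm (_ / _), Finset.mul_prod_erase _
      (fun b' => aeval (fun i => G.y (M.e i)) (a b') / G.x i ^ e b') (Finset.mem_univ b),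
      Finset.prod_div_distrib, Finset.prod_pow_eq_pow_sum, sdf, hm, div_pow, one_pow, pow_succ,
      pow_add]
    field_simp
  rw [hT, e1]
  exact mul_mem (mul_mem (hV b V hk _ hi hx').2
    (prod_mem fun b' _ => (hV b' V hk _ hi hx').1)) (pow_mem h1 m)

end Pool.Agent.P.MP_6f117a_ag.EX
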