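import Pool.Agent.P.MP_6f117a_ag.E.WIface

/-! Step ED of the passage from the generic point to sections and norms. -/

namespace Pool.Agent.P.MP_6f117a_ag.EX

open Module MvPolynomial Sp

theorem wed_map {p : ℕ} [Fact p.Prime] {k A Ω σ : Type} [Field k] [CommRing A] [CommRing Ω]
    [Algebra k A] [Algebra k Ω] (φ : A →ₐ[k] Ω) (z : σ → WittVector p A)
    (g : MvPolynomial σ (WittVector p k)) :
    WittVector.map (φ : A →+* Ω) (eval₂ (WittVector.map (algebraMap k A)) z g) =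
      eval₂ (WittVector.map (algebraMap k Ω)) (fun b => WittVector.map (φ : A →+* Ω) (z b)) g := by
  rw [eval₂_comp_left]
  congr 1
  ext x i
  simp

theorem wed_van {p : ℕ} [Fact p.Prime] {k : Type} [Field k] {M : Sp.Mod (WittVector p k)}
    {K : Type} [Field K] [Algebra k K] {d r C₀ δ : ℕ} (G : L0 M K d r C₀ δ) {n : ℕ}
    {Zw : _ → WittVector p (PV K n (d + 1))} (hZ : G.Jet Zw)
    (R : MvPolynomial (Fin (M.N + 1)) (WittVector p k))
    (h : ∀ (Ω : Type) [Field Ω] [Algebra k Ω] (z : Fin (M.N + 1) → WittVector p Ω), M.Pt z →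
      eval₂ (WittVector.map (algebraMap k Ω)) z R = 0) :
    eval₂ (WittVector.map (algebraMap k _)) Zw R = 0 := by
  let φ : PV K n (d + 1) →ₐ[k] FractionRing (PV K n (d + 1)) := IsScalarTower.toAlgHom _ _ _
  have hφ : Function.Injective (φ : PV K n (d + 1) →+* FractionRing (PV K n (d + 1))) :=
    IsFractionRing.injective _ _
  apply WittVector.map_injective _ hφ
  rw [wed_map, map_zero]
  refine h _ _ ⟨fun a => by rw [← wed_map, hZ.eqn, map_zero], ?_⟩
  let ψ : K →ₐ[k] FractionRing (PV K n (d + 1)) := φ.comp (IsScalarTower.toAlgHom _ _ _)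
  have e : (fun b => (WittVector.map (φ : PV K n (d + 1) →+* FractionRing (PV K n (d + 1)))
      (Zw b)).coeff 0) = fun b => ψ (G.y b) := by
    funext b
    rw [WittVector.map_coeff, hZ.zero]
    rfl
  rw [ev0_eq, e, ← e0_map]
  exact (map_ne_zero ψ).2 G.del

theorem wED {p : ℕ} [Fact p.Prime] {k : Type} [Field k] [CharP k p] {M : Sp.Mod (WittVector p k)}
    {K : Type} [Field K] [Algebra k K] [CharP K p] {d r C₀ δ : ℕ} (G : L0 M K d r C₀ δ) (n : ℕ)
    (hLIN : W_LIN G n) (hREL : W_REL G n) :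
    W_ED G n := by
  classical
  intro Zw hZ
  refine ⟨⟨G.y, G.J, lev n Zw, G.h, ⟨fun i => M.e (G.ε i), fun i s => ?_⟩,
    ⟨_, G.y0 ▸ one_ne_zero⟩, hLIN Zw hZ, fun c hc => ?_, G.h_ne, G.ind, G.plu, G.dim⟩,
    rfl, rfl, rfl, rfl⟩
  · have h := G.jac i (M.e (G.ε s))
    rw [Sp.Mod.der, M.f_e] at h
    by_cases e : i = s
    · subst e
      simpa [e0, add_neg_eq_zero] using h
    · have e' : G.ε s ≠ G.ε i := fun h => e (G.ε.injective h).symm
      simpa [e0, e, pderiv_X, Pi.single_apply, e'] using h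
  · obtain ⟨T, R, lam, Θ, h1, h2, h3, h4⟩ := G.rel c hc
    refine ⟨T, fun t b => e0 (fun a => G.y a / G.y c) (pderiv b (R t)), lam, Θ, h3, h4,
      fun t l => ?_⟩
    obtain ⟨e, he⟩ := h1 t
    exact hREL Zw hZ c hc (R t) e he (wed_van G hZ (R t) (h2 t)) l

end Pool.Agent.P.MP_6f117a_ag.EX
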