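import Pool.Agent.P.MP_6f117a_ag.E.WDefs

/-! The statements of the steps from the generic point of a model to sections and their norms. -/

namespace Pool.Agent.P.MP_6f117a_ag.EX

open Module MvPolynomial Sp

section

variable {p : ℕ} [Fact p.Prime] {k : Type} [Field k] {σ A : Type} [CommRing A] [Algebra k A]

theorem e0_eq (y : σ → A) (g : MvPolynomial σ (WittVector p k)) :
    e0 y g = eval₂Hom ((algebraMap k A).comp WittVector.constantCoeff) y g := by
  rw [e0, aeval_def, eval₂_map, coe_eval₂Hom]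

theorem e0_mul (y : σ → A) (f g : MvPolynomial σ (WittVector p k)) :
    e0 y (f * g) = e0 y f * e0 y g := by simp only [e0, map_mul]

theorem e0_prod {τ : Type} (y : σ → A) (s : Finset τ) (f : τ → MvPolynomial σ (WittVector p k)) :
    e0 y (∏ i ∈ s, f i) = ∏ i ∈ s, e0 y (f i) := by simp only [e0, map_prod]

theorem e0_X (y : σ → A) (i : σ) : e0 y (X i : MvPolynomial σ (WittVector p k)) = y i := by
  simp [e0]

theorem e0_rename {τ : Type} (y : τ → A) (f : σ → τ) (g : MvPolynomial σ (WittVector p k)) :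
    e0 y (rename f g) = e0 (fun i => y (f i)) g := by
  rw [e0, map_rename, aeval_rename]; rfl

theorem e0_map {A' : Type} [CommRing A'] [Algebra k A'] (φ : A →ₐ[k] A') (y : σ → A)
    (g : MvPolynomial σ (WittVector p k)) : φ (e0 y g) = e0 (fun i => φ (y i)) g := by
  rw [e0, e0, ← AlgHom.comp_apply, comp_aeval]

theorem e0_mem (S : Subalgebra k A) {y : σ → A} (hy : ∀ i, y i ∈ S)
    (g : MvPolynomial σ (WittVector p k)) : e0 y g ∈ S :=
  (e0_map S.val (fun i => ⟨y i, hy i⟩) g) ▸ (e0 (A := S) (fun i => ⟨y i, hy i⟩) g).2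

theorem eval₂_hom {R S : Type} [CommRing R] [CommRing S] (φ : R →+* S) (c : S) (y : σ → S)
    {g : MvPolynomial σ R} {e : ℕ} (h : g.IsHomogeneous e) :
    eval₂ φ (fun i => c * y i) g = c ^ e * eval₂ φ y g := by
  rw [eval₂_eq, eval₂_eq, Finset.mul_sum]
  refine Finset.sum_congr rfl fun m hm => ?_
  have : ∑ i ∈ m.support, m i = e := by
    simpa [Finsupp.weight_apply, Finsupp.sum] using h (mem_support_iff.1 hm)
  simp only [mul_pow, Finset.prod_mul_distrib, Finset.prod_pow_eq_pow_sum, this]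
  ring

theorem e0_hom (c : A) (y : σ → A) {g : MvPolynomial σ (WittVector p k)} {e : ℕ}
    (h : g.IsHomogeneous e) : e0 (fun i => c * y i) g = c ^ e * e0 y g := by
  rw [e0_eq, e0_eq]; exact eval₂_hom _ c y h

theorem coeff_zero_eval₂ (z : σ → WittVector p A) (g : MvPolynomial σ (WittVector p k)) :
    (eval₂ (WittVector.map (algebraMap k A)) z g).coeff 0 = e0 (fun i => (z i).coeff 0) g := by
  rw [e0_eq, coe_eval₂Hom]
  exact eval₂_comp_left WittVector.constantCoeff _ z g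

variable (M : Sp.Mod (WittVector p k))

theorem ev0_eq (z : Fin (M.N + 1) → WittVector p A) (g) :
    M.ev0 z g = e0 (fun b => (z b).coeff 0) g := rfl

theorem der_dvd (a) : M.der a ∣ M.Del :=
  (Finset.dvd_prod_of_mem _ (Finset.mem_univ a)).mul_right _

theorem h_dvd (g j) : M.h g j ∣ M.Del :=
  ((Finset.dvd_prod_of_mem _ (Finset.mem_univ j)).trans
    (Finset.dvd_prod_of_mem (fun g => ∏ j, M.h g j) (Finset.mem_univ g))).mul_left _

theorem e0_ne {y : σ → A} {f g : MvPolynomial σ (WittVector p k)} (h : f ∣ g) (hg : e0 y g ≠ 0) :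
    e0 y f ≠ 0 := by
  obtain ⟨c, rfl⟩ := h
  exact left_ne_zero_of_mul (e0_mul y f c ▸ hg)

variable {M} {K : Type} [Field K] [Algebra k K] {d r C₀ δ : ℕ} (G : L0 M K d r C₀ δ)

theorem L0.lam_ne {z : Fin (M.N + 1) → WittVector p A} (hz : M.Pt z) :
    (z (M.e (G.ε 0))).coeff 0 ≠ 0 := by
  obtain ⟨g, j, h⟩ := G.x0
  have := e0_ne (h_dvd M g j) hz.2
  rwa [h, e0_X] at this

theorem L0.fam_ne (i) : ∃ a, gs G.J G.y G.h i a ≠ 0 := by
  obtain ⟨g, w, -, h, -⟩ := G.fam i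
  obtain ⟨a, ha⟩ := h (Classical.arbitrary _)
  exact ⟨a, right_ne_zero_of_mul (ha ▸ e0_ne (h_dvd M g _) G.del)⟩

/-- The free coordinates. -/
abbrev L0.x (i : Fin (d + 1)) : K := G.y (M.e (G.ε i))

/-- The jet variables as Witt coordinates of the free coordinates. -/
def L0.emb (n : ℕ) : Fin (d + 1) ⊕ Fin n × Fin (d + 1) → M.ι × ℕ :=
  Sum.elim (fun i => (G.ε i, 0)) fun v => (G.ε v.2, v.1 + 1)

variable (n : ℕ)

def W_UNIV : Prop := ∃ Zw : _ → WittVector p (PV K n (d + 1)), G.Jet Zw ∧ G.Univ Zw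

def W_LIN : Prop := ∀ Zw : _ → WittVector p (PV K n (d + 1)), G.Jet Zw → ∀ (l : Fin n) b,
  lev n Zw (l, b) - ∑ i, C (G.J i b ^ p ^ ((l : ℕ) + 1)) * X (l, i) ∈
    supported K {v : Fin n × Fin (d + 1) | v.1 < l}

def W_REL : Prop := ∀ Zw : _ → WittVector p (PV K n (d + 1)), G.Jet Zw → ∀ c, G.y c ≠ 0 →
  ∀ (R : MvPolynomial (Fin (M.N + 1)) (WittVector p k)) (e : ℕ), R.IsHomogeneous e →
    eval₂ (WittVector.map (algebraMap k _)) Zw R = 0 → ∀ l : Fin n,
    ∑ b, C (e0 (fun a => G.y a / G.y c) (pderiv b R) ^ p ^ ((l : ℕ) + 1)) *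
      nz p (lev n Zw) (G.y c) (l, b) ∈
      Fil p (Rc k G.y c) (nz p (lev n Zw) (G.y c)) l ((l + 1) * p ^ ((l : ℕ) + 1))

def W_ED : Prop := ∀ Zw : _ → WittVector p (PV K n (d + 1)), G.Jet Zw →
  ∃ E : ED k K p n d r C₀ (Fin (M.N + 1)), E.y = G.y ∧ E.J = G.J ∧ E.h = G.h ∧ E.Z = lev n Zw

def W_REP : Prop := ∀ (Zw : _ → WittVector p (PV K n (d + 1))), ∀ s ∈ G.Reg Zw, ∀ e : ℤ,
  ∃ ρ S, G.Rep Zw s e ρ S

def W_SEC : Prop := ∀ (Zw : _ → WittVector p (PV K n (d + 1))) (m e : ℕ) (s : PV K n (d + 1)),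
  G.Univ Zw → G.Glob Zw m e s → s ∈ G.Reg Zw ∧ ∀ ρ S, G.Rep Zw s e ρ S → M.Sec n m e ρ S

def W_BOUND : Prop := ∀ (Zw : _ → WittVector p (PV K n (d + 1))) (m e : ℕ) (s : PV K n (d + 1)),
  G.Jet Zw → G.Glob Zw m e s → ∀ a ∈ s.support,
    Finsupp.weight (fun v : Fin n × Fin (d + 1) => p ^ ((v.1 : ℕ) + 1)) a ≤ (n + 1) * m ∧
    ∀ V : ValuationSubring K, (∀ t, algebraMap k K t ∈ V) → ∀ c, G.y c ≠ 0 →
      (∀ b, G.y b / G.y c ∈ V) → (∏ b, e0 G.y (M.der b)) ^ ((n + 1) * m) * coeff a s /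
        G.y c ^ (sdf M * ((n + 1) * m)) ∈ V

def W_DOM : Prop := ∃ T : MvPolynomial (Fin (d + 1)) k, aeval G.x T ≠ 0 ∧
  ∀ V : ValuationSubring K, (∀ t, algebraMap k K t ∈ V) → ∀ i, G.x i ≠ 0 →
    (∀ j, G.x j / G.x i ∈ V) → ∀ b, aeval G.x T * G.y b / G.x i ^ (sdf M + 1) ∈ V

def W_NRM : Prop := ∀ (Zw : _ → WittVector p (PV K n (d + 1))) (s Q : PV K n (d + 1)) (e : ℤ)
  (ρ N : ℕ) S (P : MvPolynomial (Fin (d + 1) ⊕ Fin n × Fin (d + 1)) k), G.Jet Zw → G.Univ Zw →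
    G.Rep Zw s e ρ S → Q ∈ G.Reg Zw →
    P.IsWeightedHomogeneous (Sum.elim (fun _ => 1) fun v => p ^ ((v.1 : ℕ) + 1)) N →
    aeval (Sum.elim (fun i => C (G.x i)) X) P = s * Q → M.Nrm S (rename (G.emb n) P)

end

section

variable (k K : Type) [Field k] [Field K] [Algebra k K]

variable {K} in
/-- The variable of the outer polynomial ring records the weighted degree. -/
noncomputable def psi {d : ℕ} (x : Fin (d + 1) → K) {σ : Type} (w : σ → ℕ) :
    MvPolynomial (Fin (d + 1) ⊕ σ) k →ₐ[k] Polynomial (MvPolynomial σ K) :=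
  aeval (Sum.elim (fun i => Polynomial.monomial 1 (C (x i))) fun v => Polynomial.monomial (w v) (X v))

variable {k K} in
theorem psi_hom {d j : ℕ} (x : Fin (d + 1) → K) {σ : Type} {w : σ → ℕ}
    {P : MvPolynomial (Fin (d + 1) ⊕ σ) k}
    (h : P.IsWeightedHomogeneous (Sum.elim (fun _ => 1) w) j) :
    psi k x w P = Polynomial.monomial j (aeval (Sum.elim (fun i => C (x i)) X) P) := by
  have e : ∀ v, psi k x w (X v) = Polynomial.monomial (Sum.elim (fun _ => 1) w v)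
      (Sum.elim (fun i => C (x i)) X v) := by rintro (i | v) <;> simp [psi]
  conv_lhs => rw [P.as_sum]
  conv_rhs => rw [P.as_sum]
  simp only [map_sum]
  refine Finset.sum_congr rfl fun a ha => ?_
  rw [← h (mem_support_iff.1 ha), monomial_eq, Finsupp.weight_apply, Finsupp.sum, Finsupp.prod,
    map_mul, map_mul, map_prod, map_prod, ← Polynomial.C_mul_monomial, ← algebraMap_eq,
    AlgHom.commutes, AlgHom.commutes]
  congr 1
  simp only [map_pow, e, Polynomial.monomial_pow, aeval_X, smul_eq_mul, mul_comm (a _)]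
  induction a.support using Finset.cons_induction with
  | empty => simp
  | cons v s hv ih => rw [Finset.prod_cons, Finset.prod_cons, Finset.sum_cons, ih,
      Polynomial.monomial_mul_monomial]

variable {k K} in
theorem coeff_psi {d : ℕ} (x : Fin (d + 1) → K) {σ : Type} (w : σ → ℕ)
    (P : MvPolynomial (Fin (d + 1) ⊕ σ) k) (j : ℕ) :
    (psi k x w P).coeff j = aeval (Sum.elim (fun i => C (x i)) X)
      (weightedHomogeneousComponent (Sum.elim (fun _ => 1) w) j P) := by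
  classical
  induction P using MvPolynomial.induction_on' with
  | monomial a c =>
    have h := isWeightedHomogeneous_monomial (Sum.elim (fun _ => 1) w) a c rfl
    rw [psi_hom x h, weightedHomogeneousComponent_of_mem h, Polynomial.coeff_monomial]
    by_cases e : j = Finsupp.weight (Sum.elim (fun _ => 1) w) a <;> simp [e, eq_comm]
  | add f g hf hg => simp only [map_add, Polynomial.coeff_add, hf, hg]

variable {K} in
/-- The coefficients of `s` have poles of order at most `N` at infinity and no other poles. -/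
def Bnd {d : ℕ} (x : Fin (d + 1) → K) {σ : Type} (w : σ → ℕ) (N N' : ℕ) (s : MvPolynomial σ K) :
    Prop :=
  ∀ a ∈ s.support, Finsupp.weight w a ≤ N' ∧ ∀ V : ValuationSubring K,
    (∀ t, algebraMap k K t ∈ V) → ∀ i, x i ≠ 0 → (∀ j, x j / x i ∈ V) → coeff a s / x i ^ N ∈ V

def W_NORMA : Prop := ∀ (d N N' : ℕ) (x : Fin (d + 1) → K) (σ : Type) (w : σ → ℕ)
  (s : MvPolynomial σ K), x 0 = 1 → Bnd k x w N N' s →
    ∃ ν : Polynomial (MvPolynomial (Fin (d + 1) ⊕ σ) k), ν.Monic ∧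
      ν.eval₂ (psi k x w).toRingHom (Polynomial.monomial (N + N') s) = 0

def W_NORMB : Prop := ∀ (d δ N : ℕ) (x : Fin (d + 1) → K) (σ : Type) (w : σ → ℕ)
  (s : MvPolynomial σ K), x 0 = 1 → (AlgebraicIndependent k fun i : Fin d => x i.succ) →
    FiniteDimensional (IntermediateField.adjoin k (Set.range x)) K →
    finrank (IntermediateField.adjoin k (Set.range x)) K ≤ δ →
    Function.Injective (psi k x w) ∧
    ∃ μ : Polynomial (MvPolynomial (Fin (d + 1) ⊕ σ) k), μ ≠ 0 ∧ μ.natDegree ≤ δ ∧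
      μ.eval₂ (psi k x w).toRingHom (Polynomial.monomial N s) = 0

def W_NORM : Prop := ∀ (d δ N N' : ℕ) (x : Fin (d + 1) → K) (σ : Type) [Finite σ] (w : σ → ℕ)
  (s : MvPolynomial σ K), x 0 = 1 → (AlgebraicIndependent k fun i : Fin d => x i.succ) →
    FiniteDimensional (IntermediateField.adjoin k (Set.range x)) K →
    finrank (IntermediateField.adjoin k (Set.range x)) K ≤ δ → s ≠ 0 → Bnd k x w N N' s →
    ∃ (P : MvPolynomial (Fin (d + 1) ⊕ σ) k) (j : ℕ) (Q : MvPolynomial σ K), P ≠ 0 ∧ j ≤ δ ∧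
      P.IsWeightedHomogeneous (Sum.elim (fun _ => 1) w) (j * (N + N')) ∧
      aeval (Sum.elim (fun i => C (x i)) X) P = s * Q ∧
      Q ∈ Algebra.adjoin k (insert s (Set.range (fun i => C (x i)) ∪ Set.range X))

end

/-- Sections with small twist and their norms. -/
def W_TOP : Prop := ∀ d r C₀ : ℕ, 1 ≤ d → 1 ≤ r → ∃ n q : ℕ, 0 < q ∧ ∀ δ D : ℕ, ∃ C₁ : ℕ,
  ∀ (p : ℕ) [Fact p.Prime] (k : Type) [Field k] [Infinite k] [CharP k p]
    (M : Sp.Mod (WittVector p k)) (K : Type) [Field K] [Algebra k K], L0 M K d r C₀ δ →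
    sdf M ≤ D → ∀ e₀ : ℕ, ∃ (m e ρ : ℕ) (S : MvPolynomial (Fin (M.N + 1) × ℕ) k)
      (P : MvPolynomial (M.ι × ℕ) k), e₀ ≤ e ∧ m ≤ q * e ∧ M.Sec n m e ρ S ∧ M.Nrm S P ∧ P ≠ 0 ∧
      (∀ v ∈ P.vars, v.2 ≤ n) ∧ ∀ u ∈ P.support, (u.sum fun v t => t * p ^ v.2) ≤ C₁ * e

end Pool.Agent.P.MP_6f117a_ag.EX
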