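import Pool.Agent.P.MP_6f117a_ag.E.WIface
import Pool.Agent.P.MP_6f117a_ag.PJ.TW2
import Pool.Agent.P.MP_6f117a_ag.C.Tch
import Pool.Agent.P.MP_6f117a_ag.C.Gg
import Pool.Agent.P.MP_6f117a_ag.C.Gen

/-! Step LIN of the passage from the generic point to sections and norms. -/

namespace Pool.Agent.P.MP_6f117a_ag.EX

open Module MvPolynomial Sp

theorem wlin_X {K : Type} [Field K] {n D l : ℕ} {v : Fin n × Fin D} (h : (v.1 : ℕ) < l) :
    (X v : PV K n D) ∈ supported K {v : Fin n × Fin D | (v.1 : ℕ) < l} :=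
  X_mem_supported.2 h

theorem wlin_C {K : Type} [Field K] {n D : ℕ} (s : Set (Fin n × Fin D)) (c : K) :
    (C c : PV K n D) ∈ supported K s := Subalgebra.algebraMap_mem _ c

theorem wlin_mono {K : Type} [Field K] {n D j l : ℕ} (h : j < l) {s : PV K n D}
    (hs : s ∈ supported K {v : Fin n × Fin D | (v.1 : ℕ) < j}) :
    s ∈ supported K {v : Fin n × Fin D | (v.1 : ℕ) < l} :=
  supported_mono (fun _ hv => lt_trans hv h) hs

theorem wLIN {p : ℕ} [Fact p.Prime] {k : Type} [Field k] [CharP k p] {M : Sp.Mod (WittVector p k)}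
    {K : Type} [Field K] [Algebra k K] [CharP K p] {d r C₀ δ : ℕ} (G : L0 M K d r C₀ δ) (n : ℕ) :
    W_LIN G n := by
  intro Zw hZ l b
  have e : {v : Fin n × Fin (d + 1) | v.1 < l} = {v | (v.1 : ℕ) < (l : ℕ)} := rfl
  rw [e, lev]
  clear e
  obtain ⟨l, hl⟩ := l
  dsimp only
  set y : Option M.ι → WittVector p (PV K n (d + 1)) := fun o => Zw (o.elim b M.e) with hy
  set g := MvPolynomial.map (WittVector.map (algebraMap k (PV K n (d + 1)))) (M.f b) with hg
  have h0 : eval y g = 0 := by
    rw [hg, ← eval₂_eq_eval_map]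
    have := hZ.eqn b
    rwa [Mod.eqn, eval₂_rename] at this
  have hd : ∀ o, (eval y (pderiv o g)).coeff 0 =
      C (e0 (fun o : Option M.ι => G.y (o.elim b M.e)) (pderiv o (M.f b))) := fun o => by
    rw [hg, pderiv_map, ← eval₂_eq_eval_map, coeff_zero_eval₂]
    simp only [hy, hZ.zero]
    exact (e0_map (IsScalarTower.toAlgHom k K (PV K n (d + 1))) _ _).symm
  have hD : e0 G.y (M.der b) ≠ 0 := e0_ne (der_dvd M b) G.del
  have hn : e0 (fun o : Option M.ι => G.y (o.elim b M.e)) (pderiv none (M.f b)) =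
      e0 G.y (M.der b) := by rw [Mod.der, e0_rename]
  have hs : ∀ i, e0 (fun o : Option M.ι => G.y (o.elim b M.e)) (pderiv (some (G.ε i)) (M.f b)) =
      -(G.J i b * e0 G.y (M.der b)) := fun i => eq_neg_of_add_eq_zero_right (G.jac i b)
  induction l using Nat.strong_induction_on with
  | _ l ih =>
    set R := supported K {v : Fin n × Fin (d + 1) | (v.1 : ℕ) < l} with hR
    have low : ∀ o, ∀ j < l + 1, (y o).coeff j ∈ R := by
      intro o j hj
      cases j with
      | zero => simp only [hy, hZ.zero]; exact wlin_C _ _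
      | succ j =>
        have hj' : j < l := by omega
        cases o with
        | none =>
          have h1 := wlin_mono hj' (ih j hj' (hj'.trans hl))
          have h2 : ∑ i, C (G.J i b ^ p ^ (j + 1)) * X (⟨j, hj'.trans hl⟩, i) ∈ R :=
            sum_mem fun i _ => mul_mem (wlin_C _ _) (wlin_X hj')
          have h3 := add_mem h1 h2
          rwa [sub_add_cancel] at h3
        | some i =>
          obtain ⟨i, rfl⟩ := G.ε.surjective i
          have := hZ.free i ⟨j, hj'.trans hl⟩
          simp only [hy, Option.elim] at this ⊢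
          rw [this]
          exact wlin_X hj'
    obtain ⟨O, hO⟩ := pGG pTCH p (PV K n (d + 1)) (Sp.Filt.const R.toSubring) (l + 1)
    have hE : (eval (fun o => WittVector.init (l + 1) (y o)) g).coeff (l + 1) ∈ R := by
      refine (hO _).1 (GenAux.eval_mem O g _ (fun m => (hO _).2 fun j _ => ?_)
        fun o => (hO _).2 fun j _ => ?_) (l + 1) le_rfl
      · rw [hg, coeff_map, WittVector.map_coeff]
        exact wlin_C _ _
      · show (WittVector.init (l + 1) (y o)).coeff j ∈ R
        rw [GenAux.coeff_init]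
        split_ifs with h
        exacts [low o j h, zero_mem _]
    have hT := PJ.t_W2 pTCH p (PV K n (d + 1)) (Option M.ι) g y l
    rw [h0, WittVector.zero_coeff, Fintype.sum_option, ← G.ε.sum_comp] at hT
    simp only [hd, hn, hs] at hT
    have hf : ∀ i, (y (some (G.ε i))).coeff (l + 1) = X (⟨l, hl⟩, i) := fun i => hZ.free i ⟨l, hl⟩
    have hb : y none = Zw b := rfl
    have fr : ∀ a : K, (C (-a) : PV K n (d + 1)) ^ p ^ (l + 1) = -C (a ^ p ^ (l + 1)) := fun a => by
      rw [← map_pow, ← map_neg]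
      exact congrArg _ (map_neg (iterateFrobenius K p (l + 1)) a)
    simp only [hf, hb, fr, mul_pow, map_mul, ← map_pow] at hT
    have key : (Zw b).coeff (l + 1) - ∑ i, C (G.J i b ^ p ^ (l + 1)) * X (⟨l, hl⟩, i) =
        -C (e0 G.y (M.der b) ^ p ^ (l + 1))⁻¹ *
          (eval (fun o => WittVector.init (l + 1) (y o)) g).coeff (l + 1) := by
      have h1 : (C (e0 G.y (M.der b) ^ p ^ (l + 1))⁻¹ : PV K n (d + 1)) *
          C (e0 G.y (M.der b) ^ p ^ (l + 1)) = 1 := by
        rw [← C_mul, inv_mul_cancel₀ (pow_ne_zero _ hD), C_1]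
      have h2 : ∑ i, -(C (G.J i b ^ p ^ (l + 1)) * C (e0 G.y (M.der b) ^ p ^ (l + 1))) *
          (X (⟨l, hl⟩, i) : PV K n (d + 1)) = -C (e0 G.y (M.der b) ^ p ^ (l + 1)) *
            ∑ i, C (G.J i b ^ p ^ (l + 1)) * X (⟨l, hl⟩, i) := by
        rw [Finset.mul_sum]
        exact Finset.sum_congr rfl fun i _ => by ring
      rw [h2] at hT
      linear_combination (-C (e0 G.y (M.der b) ^ p ^ (l + 1))⁻¹) * hT -
        ((Zw b).coeff (l + 1) - ∑ i, C (G.J i b ^ p ^ (l + 1)) * X (⟨l, hl⟩, i)) * h1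
    rw [key]
    exact mul_mem (neg_mem (wlin_C _ _)) hE

end Pool.Agent.P.MP_6f117a_ag.EX
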