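import Pool.Agent.P.MP_6f117a_ag.E.WIface

/-! Step NORM of the passage from the generic point to sections and norms. -/

namespace Pool.Agent.P.MP_6f117a_ag.EX

open Module MvPolynomial Sp

theorem wnorm_low {k R : Type} [CommRing k] [CommRing R] [IsDomain R] [Algebra k R]
    (S : Subalgebra k R) (s : R) (c : ℕ → R) (j : ℕ) (hs : s ≠ 0) (h1 : s ∈ S) (h2 : ∀ i, c i ∈ S)
    (hj : c j ≠ 0) (h : ∑ i ∈ Finset.range (j + 1), c i * s ^ i = 0) :
    ∃ i, c i ≠ 0 ∧ ∃ Q ∈ S, c i = s * Q := by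
  classical
  have ex : ∃ i, c i ≠ 0 := ⟨j, hj⟩
  have le : Nat.find ex ≤ j := Nat.find_min' ex hj
  refine ⟨Nat.find ex, Nat.find_spec ex,
    -∑ i ∈ Finset.Ico (Nat.find ex + 1) (j + 1), c i * s ^ (i - (Nat.find ex + 1)),
    neg_mem (sum_mem fun i _ => mul_mem (h2 i) (pow_mem h1 _)), ?_⟩
  rw [← Finset.sum_range_add_sum_Ico _ (le.trans j.le_succ), Finset.sum_eq_zero fun i hi => by
    rw [not_not.1 (Nat.find_min ex (Finset.mem_range.1 hi)), zero_mul], zero_add,
    Finset.sum_eq_sum_Ico_succ_bot (Nat.lt_succ_of_le le)] at h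
  refine mul_right_cancel₀ (pow_ne_zero (Nat.find ex) hs) ?_
  rw [eq_neg_of_add_eq_zero_left h, mul_neg, neg_mul, neg_inj, Finset.mul_sum, Finset.sum_mul]
  refine Finset.sum_congr rfl fun i hi => ?_
  obtain ⟨t, rfl⟩ := Nat.exists_eq_add_of_le (Finset.mem_Ico.1 hi).1
  rw [Nat.add_sub_cancel_left]
  ring

theorem wnorm_min {B A : Type} [CommRing B] [IsDomain B] [IsIntegrallyClosed B] [CommRing A]
    [IsDomain A] (ψ : B →+* A) (hψ : Function.Injective ψ) (u : A) (ν μ : Polynomial B)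
    (h1 : ν.Monic) (h2 : ν.eval₂ ψ u = 0) (h3 : μ ≠ 0) (h4 : μ.eval₂ ψ u = 0) :
    ∃ f : Polynomial B, f.Monic ∧ f.natDegree ≤ μ.natDegree ∧ f.eval₂ ψ u = 0 := by
  let _ := ψ.toAlgebra
  have : FaithfulSMul B A := (faithfulSMul_iff_algebraMap_injective B A).2 hψ
  have hi : IsIntegral B u := ⟨ν, h1, h2⟩
  exact ⟨minpoly B u, minpoly.monic hi,
    Polynomial.natDegree_le_of_dvd (minpoly.isIntegrallyClosed_dvd hi h4) h3, minpoly.aeval B u⟩

theorem wNORM (k K : Type) [Field k] [Field K] [Algebra k K]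
    (hNORMA : W_NORMA k K) (hNORMB : W_NORMB k K) :
    W_NORM k K := by
  classical
  intro d δ N N' x σ _ w s x0 ind fd fin hs hb
  obtain ⟨ν, n1, n2⟩ := hNORMA d N N' x σ w s x0 hb
  obtain ⟨inj, μ, m1, m2, m3⟩ := hNORMB d δ (N + N') x σ w s x0 ind fd fin
  obtain ⟨f, f1, f2, f3⟩ := wnorm_min (psi k x w).toRingHom inj _ ν μ n1 n2 m1 m3
  let b : ℕ → MvPolynomial (Fin (d + 1) ⊕ σ) k := fun i => weightedHomogeneousComponent
    (Sum.elim (fun _ => 1) w) ((f.natDegree - i) * (N + N')) (f.coeff i)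
  have hm : ∀ g : MvPolynomial (Fin (d + 1) ⊕ σ) k,
      aeval (Sum.elim (fun i => C (x i)) X : _ → MvPolynomial σ K) g ∈
        Algebra.adjoin k (insert s (Set.range (fun i => C (x i)) ∪ Set.range X)) := by
    intro g
    induction g using MvPolynomial.induction_on with
    | C c => rw [aeval_C]; exact Subalgebra.algebraMap_mem _ c
    | add f g hf hg => rw [map_add]; exact add_mem hf hg
    | mul_X f v hf =>
      rw [map_mul, aeval_X]
      refine mul_mem hf (Algebra.subset_adjoin (Set.mem_insert_of_mem _ ?_))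
      rcases v with i | v
      · exact Or.inl ⟨i, rfl⟩
      · exact Or.inr ⟨v, rfl⟩
  have hj : aeval (Sum.elim (fun i => C (x i)) X : _ → MvPolynomial σ K) (b f.natDegree) ≠ 0 := by
    simp only [b]
    rw [Nat.sub_self, zero_mul, f1.coeff_natDegree,
      weightedHomogeneousComponent_of_mem (isWeightedHomogeneous_one k _), if_pos rfl, map_one]
    exact one_ne_zero
  have hsum : ∑ i ∈ Finset.range (f.natDegree + 1),
      aeval (Sum.elim (fun i => C (x i)) X : _ → MvPolynomial σ K) (b i) * s ^ i = 0 := by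
    have := congrArg (fun g => Polynomial.coeff g (f.natDegree * (N + N'))) f3
    simp only [Polynomial.eval₂_eq_sum_range, Polynomial.finsetSum_coeff,
      Polynomial.coeff_zero] at this
    rw [← this]
    refine Finset.sum_congr rfl fun i hi => ?_
    have e : f.natDegree * (N + N') = (f.natDegree - i) * (N + N') + (N + N') * i := by
      rw [mul_comm (N + N'), ← add_mul,
        Nat.sub_add_cancel (Nat.le_of_lt_succ (Finset.mem_range.1 hi))]
    rw [Polynomial.monomial_pow, e, Polynomial.coeff_mul_monomial]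
    exact congrArg (· * s ^ i) (coeff_psi x w _ _).symm
  obtain ⟨i, h1, Q, h2, h3⟩ := wnorm_low _ s _ f.natDegree hs
    (Algebra.subset_adjoin (Set.mem_insert _ _)) (fun i => hm (b i)) hj hsum
  exact ⟨b i, f.natDegree - i, Q, fun e => h1 (by rw [e, map_zero]),
    (Nat.sub_le _ _).trans (f2.trans m2), weightedHomogeneousComponent_isWeightedHomogeneous _ _,
    h3, h2⟩

end Pool.Agent.P.MP_6f117a_ag.EX
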