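import Pool.Agent.P.MP_6f117a_ag.E.WIface

/-! Step NORMA of the passage from the generic point to sections and norms. -/

namespace Pool.Agent.P.MP_6f117a_ag.EX

open Module MvPolynomial Sp

theorem wnorma_val {R L : Type} [CommRing R] [Field L] (g : R →+* L) (z : L)
    (h : ∀ V : ValuationSubring L, (∀ r, g r ∈ V) → z ∈ V) : g.IsIntegralElem z := by
  let := g.toAlgebra
  have h1 : z ∈ (integralClosure (Subring.closure (Set.range g)) L).toSubring := by
    rw [← iInf_valuationSubring_superset, Subring.mem_iInf]
    exact fun V => h V.1 fun r => V.2 ⟨r, rfl⟩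
  have h2 : ∀ a ∈ Subring.closure (Set.range g), a ∈ integralClosure R L :=
    fun a ha => (Subring.closure_le (t := (integralClosure R L).toSubring)).2
      (by rintro _ ⟨c, rfl⟩; exact g.isIntegralElem_map) ha
  have h3 : IsIntegral (integralClosure R L) z :=
    IsIntegral.map_of_comp_eq (Subring.inclusion (T := (integralClosure R L).toSubring) h2)
      (RingHom.id L) (RingHom.ext fun _ => rfl) h1
  exact isIntegral_trans (R := R) z h3

theorem wnorma_key {k K : Type} [Field k] [Field K] [Algebra k K] {d N : ℕ} (M : ℕ)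
    {x : Fin (d + 1) → K} (h0 : x 0 = 1) {γ : K}
    (h : ∀ V : ValuationSubring K, (∀ t, algebraMap k K t ∈ V) → ∀ i, x i ≠ 0 →
      (∀ j, x j / x i ∈ V) → γ / x i ^ N ∈ V) :
    (eval₂Hom (Polynomial.C.comp (algebraMap k K))
      fun i => Polynomial.monomial 1 (x i)).IsIntegralElem (Polynomial.monomial (N + M) γ) := by
  refine RingHom.IsIntegralElem.of_map
    (IsFractionRing.injective (Polynomial K) (RatFunc K)) (wnorma_val _ _ fun V' hV => ?_)
  set φ := algebraMap (Polynomial K) (RatFunc K)
  let V := V'.comap (φ.comp Polynomial.C)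
  obtain ⟨i, -, hi⟩ := Finset.univ.exists_max_image (fun i => V.valuation (x i))
    Finset.univ_nonempty
  have h1 : x i ≠ 0 := fun e => by
    have := hi 0 (Finset.mem_univ _)
    simp [e, h0] at this
  have h2 := h V (fun t => by simpa [V] using hV (C t)) i h1 fun j => by
    rw [← V.valuation_le_one_iff, map_div₀]
    exact div_le_one_of_le₀ (hi j (Finset.mem_univ _)) zero_le
  have h3 : ∀ j, φ (Polynomial.monomial 1 (x j)) ∈ V' := fun j => by simpa using hV (X j)
  have e : Polynomial.monomial (N + M) γ = Polynomial.C (γ / x i ^ N) *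
      (Polynomial.monomial 1 (x i) ^ N * Polynomial.monomial 1 (x 0) ^ M) := by
    simp only [Polynomial.monomial_pow, Polynomial.monomial_mul_monomial, h0, one_mul, one_pow,
      mul_one, Polynomial.C_mul_monomial, div_mul_cancel₀ _ (pow_ne_zero N h1)]
  rw [e, map_mul, map_mul, map_pow, map_pow]
  exact mul_mem h2 (mul_mem (pow_mem (h3 i) _) (pow_mem (h3 0) _))

theorem wNORMA (k K : Type) [Field k] [Field K] [Algebra k K] :
    W_NORMA k K := by
  intro d N N' x σ w s h0 hB
  change (psi k x w).toRingHom.IsIntegralElem _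
  rw [s.as_sum, map_sum]
  refine Finset.sum_induction _ _ (fun a b ha hb => ha.add _ hb) (RingHom.isIntegralElem_zero _)
    fun a ha => ?_
  obtain ⟨h1, h2⟩ := hB a ha
  obtain ⟨M, rfl⟩ := Nat.exists_eq_add_of_le h1
  have h3 := (wnorma_key M h0 h2).map (Polynomial.mapRingHom (C : K →+* MvPolynomial σ K))
  have e : (Polynomial.mapRingHom (C : K →+* MvPolynomial σ K)).comp
      (eval₂Hom (Polynomial.C.comp (algebraMap k K)) fun i => Polynomial.monomial 1 (x i)) =
      (psi k x w).toRingHom.comp (rename Sum.inl).toRingHom := by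
    refine ringHom_ext (fun t => ?_) fun i => by simp [psi]
    simp [Polynomial.algebraMap_apply]
  rw [e] at h3
  have h4 := h3.of_comp.mul _ ((psi k x w).toRingHom.isIntegralElem_map
    (x := monomial (a.mapDomain Sum.inr) 1))
  have h5 : psi k x w (monomial (a.mapDomain Sum.inr) 1) =
      Polynomial.monomial (Finsupp.weight w a) (monomial a 1) := by
    rw [psi_hom x (j := Finsupp.weight w a) (isWeightedHomogeneous_monomial _ _ _ (by
      rw [Finsupp.weight_apply, Finsupp.weight_apply, Finsupp.sum_mapDomain_index (by simp)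
        (fun _ _ _ => add_smul _ _ _)]
      rfl)), ← rename_monomial, aeval_rename, aeval_monomial, monomial_eq]
    simp
  rw [AlgHom.toRingHom_eq_coe, RingHom.coe_coe, h5, Polynomial.coe_mapRingHom,
    Polynomial.map_monomial, Polynomial.monomial_mul_monomial, C_mul_monomial, mul_one] at h4
  rwa [add_comm _ M, ← add_assoc]

end Pool.Agent.P.MP_6f117a_ag.EX
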