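import Pool.Agent.P.MP_6f117a_ag.E.WIface

/-! Step NORMB of the passage from the generic point to sections and norms. -/

namespace Pool.Agent.P.MP_6f117a_ag.EX

open Module MvPolynomial Sp

section

variable {k K : Type} [Field k] [Field K] [Algebra k K]

theorem wnormb_scale {τ A : Type} [CommRing A] [Algebra k A] {W : τ → ℕ} {P : MvPolynomial τ k}
    {j : ℕ} (h : P.IsWeightedHomogeneous W j) (t : A) (y : τ → A) :
    aeval (fun v => t ^ W v * y v) P = t ^ j * aeval y P := by
  rw [aeval_def, aeval_def, eval₂_eq, eval₂_eq, Finset.mul_sum]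
  refine Finset.sum_congr rfl fun m hm => ?_
  rw [← h (mem_support_iff.1 hm), Finsupp.weight_apply, Finsupp.sum]
  simp only [mul_pow, Finset.prod_mul_distrib, ← pow_mul, Finset.prod_pow_eq_pow_sum, smul_eq_mul,
    mul_comm (W _)]
  ring

theorem wnormb_hom {d j : ℕ} {x : Fin (d + 1) → K} {σ : Type} {w : σ → ℕ} (h0 : x 0 = 1)
    (hx : AlgebraicIndependent k fun i : Fin d => x i.succ)
    {P : MvPolynomial (Fin (d + 1) ⊕ σ) k} (h : P.IsWeightedHomogeneous (Sum.elim (fun _ => 1) w) j)
    (e : aeval (Sum.elim (fun i => C (x i)) X : _ → MvPolynomial σ K) P = 0) : P = 0 := by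
  let dh : MvPolynomial (Fin (d + 1) ⊕ σ) k →ₐ[k] MvPolynomial σ (MvPolynomial (Fin d) k) :=
    aeval (Sum.elim (fun i => C (Fin.cons (α := fun _ => MvPolynomial (Fin d) k) 1 X i)) X)
  have e1 : (aeval (Sum.elim (fun i => C (x i)) X : _ → MvPolynomial σ K)) =
      (mapAlgHom (aeval fun i : Fin d => x i.succ)).comp dh := by
    refine algHom_ext ?_
    rintro (i | v)
    · refine Fin.cases ?_ (fun i => ?_) i <;> simp [dh, h0]
    · simp [dh]
  have e2 : dh P = 0 := by
    rw [e1] at e
    exact map_injective _ hx (e.trans (map_zero _).symm)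
  let F := FractionRing (MvPolynomial (Fin (d + 1) ⊕ σ) k)
  let ι := IsScalarTower.toAlgHom k (MvPolynomial (Fin (d + 1) ⊕ σ) k) F
  have hι : Function.Injective ι := IsFractionRing.injective _ F
  have t0 : ι (X (.inl 0)) ≠ 0 := (map_ne_zero_iff ι hι).2 (X_ne_zero _)
  let y : Fin (d + 1) ⊕ σ → F := fun v =>
    ι (X v) / ι (X (.inl 0)) ^ Sum.elim (fun _ => 1) w v
  have e3 : aeval y = (aevalTower (aeval fun i : Fin d => y (.inl i.succ))
      fun v => y (.inr v)).comp dh := by
    refine algHom_ext ?_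
    rintro (i | v)
    · refine Fin.cases ?_ (fun i => ?_) i
      · simp only [dh, aeval_X, AlgHom.comp_apply, Sum.elim_inl, Fin.cons_zero, map_one, y, pow_one]
        exact div_self t0
      · simp [dh]
    · simp [dh]
  have e4 := wnormb_scale h (ι (X (.inl 0))) y
  have e5 : (fun v => ι (X (.inl 0)) ^ Sum.elim (fun _ => 1) w v * y v) = fun v => ι (X v) :=
    funext fun v => mul_div_cancel₀ _ (pow_ne_zero _ t0)
  rw [e5, e3, AlgHom.comp_apply, e2, map_zero, mul_zero, ← comp_aeval, aeval_X_left] at e4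
  exact hι (e4.trans (map_zero _).symm)

theorem wnormb_inl {d : ℕ} (x : Fin (d + 1) → K) {σ : Type} (c : MvPolynomial (Fin (d + 1)) k) :
    aeval (Sum.elim (fun i => C (x i)) X : _ → MvPolynomial σ K) (rename Sum.inl c) =
      C (aeval x c) := by
  rw [aeval_rename, ← algebraMap_eq, ← IsScalarTower.coe_toAlgHom' k K, ← AlgHom.comp_apply,
    comp_aeval]
  rfl

theorem wnormb_den {d : ℕ} (x : Fin (d + 1) → K) {σ : Type}
    (q : MvPolynomial σ (IntermediateField.adjoin k (Set.range x))) :
    ∃ (c : MvPolynomial (Fin (d + 1)) k) (P : MvPolynomial (Fin (d + 1) ⊕ σ) k), aeval x c ≠ 0 ∧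
      C (aeval x c) * MvPolynomial.map (algebraMap _ K) q =
        aeval (Sum.elim (fun i => C (x i)) X : _ → MvPolynomial σ K) P := by
  have r := wnormb_inl (k := k) x (σ := σ)
  induction q using MvPolynomial.induction_on with
  | C a =>
    obtain ⟨u, v, h⟩ := (IntermediateField.mem_adjoin_range_iff k x _).1 a.2
    by_cases hv : aeval x v = 0
    · refine ⟨1, 0, by simp, ?_⟩
      rw [hv, div_zero] at h
      rw [map_C, show algebraMap _ K a = 0 from h]; simp
    · refine ⟨v, rename Sum.inl u, hv, ?_⟩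
      rw [map_C, show algebraMap _ K a = _ from h, r, ← map_mul, mul_div_cancel₀ _ hv]
  | add f g hf hg =>
    obtain ⟨c, P, h1, h2⟩ := hf
    obtain ⟨c', P', h3, h4⟩ := hg
    refine ⟨c * c', rename Sum.inl c' * P + rename Sum.inl c * P', by simp [h1, h3], ?_⟩
    simp only [map_add, map_mul, r, ← h2, ← h4]; ring
  | mul_X f v hf =>
    obtain ⟨c, P, h1, h2⟩ := hf
    refine ⟨c, P * X (.inr v), h1, ?_⟩
    simp only [map_mul, ← h2, map_X, aeval_X, Sum.elim_inr, mul_assoc]

theorem wnormb_up {d : ℕ} {x : Fin (d + 1) → K} {σ : Type} (w : σ → ℕ) (h0 : x 0 = 1)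
    (P : MvPolynomial (Fin (d + 1) ⊕ σ) k) : ∃ E₀ : ℕ, ∀ E, E₀ ≤ E →
      ∃ P' : MvPolynomial (Fin (d + 1) ⊕ σ) k,
        P'.IsWeightedHomogeneous (Sum.elim (fun _ => 1) w) E ∧
        aeval (Sum.elim (fun i => C (x i)) X : _ → MvPolynomial σ K) P' =
          aeval (Sum.elim (fun i => C (x i)) X : _ → MvPolynomial σ K) P := by
  induction P using MvPolynomial.induction_on' with
  | monomial a c =>
    refine ⟨Finsupp.weight (Sum.elim (fun _ => 1) w) a, fun E hE => ?_⟩
    obtain ⟨t, rfl⟩ := Nat.exists_eq_add_of_le hE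
    refine ⟨monomial a c * X (.inl 0) ^ t, (isWeightedHomogeneous_monomial _ a c rfl).mul ?_, ?_⟩
    · simpa using (isWeightedHomogeneous_X k (Sum.elim (fun _ => 1) w)
        (.inl 0 : Fin (d + 1) ⊕ σ)).pow t
    · rw [map_mul, map_pow, aeval_X, Sum.elim_inl, h0, map_one, one_pow, mul_one]
  | add f g hf hg =>
    obtain ⟨a, ha⟩ := hf
    obtain ⟨b, hb⟩ := hg
    refine ⟨max a b, fun E hE => ?_⟩
    obtain ⟨P, h1, h2⟩ := ha E (le_of_max_le_left hE)
    obtain ⟨Q, h3, h4⟩ := hb E (le_of_max_le_right hE)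
    exact ⟨P + Q, h1.add h3, by rw [map_add, map_add, h2, h4]⟩

attribute [local instance] algebraMvPolynomial in
theorem wnormb_dep (F : IntermediateField k K) [FiniteDimensional F K] {δ : ℕ}
    (hδ : finrank F K ≤ δ) {σ : Type} (s : MvPolynomial σ K) :
    ∃ g : Fin (δ + 1) → MvPolynomial σ F,
      ∑ j, MvPolynomial.map (algebraMap F K) (g j) * s ^ (j : ℕ) = 0 ∧ ∃ j, g j ≠ 0 := by
  classical
  let b := finBasis F K
  have sp : ∀ f : MvPolynomial σ K, f ∈ Submodule.span (MvPolynomial σ F)
      (Set.range fun i => (C (b i) : MvPolynomial σ K)) := fun f => by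
    induction f using MvPolynomial.induction_on with
    | C a =>
      rw [← b.sum_repr a, map_sum]
      refine sum_mem fun i _ => ?_
      have : (C (b.repr a i • b i) : MvPolynomial σ K) =
          (C (b.repr a i) : MvPolynomial σ F) • C (b i) := by
        rw [Algebra.smul_def, Algebra.smul_def, map_mul]
        congr 1
        exact (map_C _ _).symm
      exact this ▸ Submodule.smul_mem _ _ (Submodule.subset_span ⟨i, rfl⟩)
    | add f g hf hg => exact add_mem hf hg
    | mul_X f v hf =>
      have : f * X v = (X v : MvPolynomial σ F) • f := by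
        rw [Algebra.smul_def, mul_comm]
        congr 1
        exact (map_X _ _).symm
      exact this ▸ Submodule.smul_mem _ _ hf
  have : ¬LinearIndependent (MvPolynomial σ F) fun j : Fin (δ + 1) => s ^ (j : ℕ) := fun h => by
    have h1 := linearIndependent_le_span_aux' _ h
      (Set.range fun i => (C (b i) : MvPolynomial σ K)) (by rintro _ -; exact sp _)
    have h2 := Fintype.card_range_le fun i => (C (b i) : MvPolynomial σ K)
    simp only [Fintype.card_fin] at h1 h2
    omega
  obtain ⟨g, h1, h2⟩ := Fintype.not_linearIndependent_iff.1 this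
  simp only [Algebra.smul_def] at h1
  exact ⟨g, h1, h2⟩

end

theorem wNORMB (k K : Type) [Field k] [Field K] [Algebra k K] :
    W_NORMB k K := by
  classical
  intro d δ N x σ w s h0 hx hfd hδ
  refine ⟨(injective_iff_map_eq_zero _).2 fun P hP => ?_, ?_⟩
  · rw [← sum_weightedHomogeneousComponent (Sum.elim (fun _ => 1) w) P]
    refine finsum_eq_zero_of_forall_eq_zero fun j => wnormb_hom h0 hx
      (weightedHomogeneousComponent_isWeightedHomogeneous j P) ?_
    rw [← coeff_psi, hP, Polynomial.coeff_zero]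
  obtain ⟨g, h1, j₀, h2⟩ := wnormb_dep _ hδ s
  choose c P hc hP using fun j => wnormb_den x (g j)
  have key : ∀ j, ∃ Q : MvPolynomial (Fin (d + 1) ⊕ σ) k,
      aeval (Sum.elim (fun i => C (x i)) X : _ → MvPolynomial σ K) Q =
        C (∏ i, aeval x (c i)) * MvPolynomial.map (algebraMap _ K) (g j) := fun j => by
    refine ⟨rename Sum.inl (∏ i ∈ Finset.univ.erase j, c i) * P j, ?_⟩
    rw [map_mul, ← hP, ← Finset.prod_erase_mul _ _ (Finset.mem_univ j), map_mul, mul_assoc,
      wnormb_inl, map_prod (aeval (R := k) x)]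
  choose Q hQ using key
  choose E₀ hE using fun j => wnormb_up (k := k) w h0 (Q j)
  let E := ∑ j, E₀ j + δ * N
  have hj : ∀ j : Fin (δ + 1), j * N ≤ δ * N := fun j =>
    Nat.mul_le_mul_right _ (Nat.le_of_lt_succ j.2)
  choose Q' q1 q2 using fun j : Fin (δ + 1) => hE j (E - j * N) (by
    have := Finset.single_le_sum (f := E₀) (fun _ _ => Nat.zero_le _) (Finset.mem_univ j)
    have := hj j
    omega)
  refine ⟨∑ j : Fin (δ + 1), Polynomial.monomial j (Q' j), fun e => ?_, ?_, ?_⟩
  · have := congrArg (Polynomial.coeff · j₀) e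
    simp only [Polynomial.finsetSum_coeff, Polynomial.coeff_monomial, Fin.val_inj,
      Finset.sum_ite_eq', Finset.mem_univ, if_true, Polynomial.coeff_zero] at this
    have h3 := (q2 j₀).trans (hQ j₀)
    rw [this, map_zero] at h3
    rcases mul_eq_zero.1 h3.symm with h | h
    · exact Finset.prod_ne_zero_iff.2 (fun i _ => hc i) (C_eq_zero.1 h)
    · exact h2 (map_injective _ Subtype.val_injective (h.trans (map_zero _).symm))
  · exact Polynomial.natDegree_sum_le_of_forall_le _ _ fun j _ =>
      (Polynomial.natDegree_monomial_le _).trans (Nat.le_of_lt_succ j.2)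
  · rw [Polynomial.eval₂_finsetSum]
    have : ∀ j : Fin (δ + 1), Polynomial.eval₂ (psi k x w).toRingHom (Polynomial.monomial N s)
        (Polynomial.monomial j (Q' j)) = Polynomial.monomial E (C (∏ i, aeval x (c i)) *
          (MvPolynomial.map (algebraMap _ K) (g j) * s ^ (j : ℕ))) := fun j => by
      rw [Polynomial.eval₂_monomial, Polynomial.monomial_pow]
      change psi k x w (Q' j) * _ = _
      rw [psi_hom x (q1 j), Polynomial.monomial_mul_monomial, q2, hQ, mul_assoc, mul_comm N,
        Nat.sub_add_cancel ((hj j).trans (Nat.le_add_left _ _))]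
    simp only [this, ← map_sum, ← Finset.mul_sum, h1, mul_zero, map_zero]

end Pool.Agent.P.MP_6f117a_ag.EX
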