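import Pool.Agent.P.MP_6f117a_ag.E.WIface

/-! Step NRM of the passage from the generic point to sections and norms. -/

namespace Pool.Agent.P.MP_6f117a_ag.EX

open Module MvPolynomial Sp

theorem wnrm_hom {k Ω σ : Type} [Field k] [Field Ω] [Algebra k Ω] (w : σ → ℕ) (c : Ω) (y : σ → Ω)
    {P : MvPolynomial σ k} {N : ℕ} (h : P.IsWeightedHomogeneous w N) :
    aeval (fun i => y i / c ^ w i) P = aeval y P / c ^ N := by
  rw [aeval_def, aeval_def, eval₂_eq, eval₂_eq, Finset.sum_div]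
  refine Finset.sum_congr rfl fun m hm => ?_
  have : ∑ i ∈ m.support, w i * m i = N := by
    simpa [Finsupp.weight_apply, Finsupp.sum, mul_comm] using h (mem_support_iff.1 hm)
  simp only [div_pow, Finset.prod_div_distrib, ← pow_mul, Finset.prod_pow_eq_pow_sum, this]
  ring

theorem wnrm_prod {k σ A B : Type} [Field k] [CommRing A] [CommRing B] [Algebra k A] [Algebra k B]
    (T : Subalgebra k (A × B)) (u : σ → A) (v : σ → B) (h : ∀ i, (u i, v i) ∈ T)
    (P : MvPolynomial σ k) : (aeval u P, aeval v P) ∈ T := by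
  induction P using MvPolynomial.induction_on with
  | C a => simpa using T.algebraMap_mem a
  | add f g hf hg => simpa using T.add_mem hf hg
  | mul_X f i hf => simpa using T.mul_mem hf (h i)

theorem wNRM {p : ℕ} [Fact p.Prime] {k : Type} [Field k] [CharP k p] {M : Sp.Mod (WittVector p k)}
    {K : Type} [Field K] [Algebra k K] [CharP K p] {d r C₀ δ : ℕ} (G : L0 M K d r C₀ δ) (n : ℕ)
    (hREP : W_REP G n) :
    W_NRM G n := by
  intro Zw s Q e ρ N S P hJ hU hS hQ hP hPQ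
  obtain ⟨ρ', S', hS'⟩ := hREP Zw Q hQ (-e - N)
  refine ⟨ρ + ρ', S', fun Ω _ _ z hz => ?_⟩
  have hl := G.lam_ne hz
  have hD := hz.2
  set lam := (z (M.e (G.ε 0))).coeff 0 with hlam
  let y : Fin (d + 1) ⊕ Fin n × Fin (d + 1) → Ω :=
    fun v => (z (M.e (G.emb n v).1)).coeff (G.emb n v).2
  let w : Fin (d + 1) ⊕ Fin n × Fin (d + 1) → ℕ :=
    Sum.elim (fun _ => 1) fun v => p ^ ((v.1 : ℕ) + 1)
  have h1 := wnrm_prod (G.Gr Zw z) (Sum.elim (fun i => C (G.x i)) X) (fun i => y i / lam ^ w i)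
    (by
      rintro (i | ⟨l, i⟩)
      · refine Algebra.subset_adjoin (Or.inr (Or.inl ⟨M.e (G.ε i), ?_⟩))
        simp [y, w, L0.emb, hlam]
      · refine Algebra.subset_adjoin (Or.inr (Or.inr ⟨(l, M.e (G.ε i)), ?_⟩))
        simp [y, w, L0.emb, hlam, lev, hJ.free]) P
  rw [wnrm_hom w lam y hP, hPQ] at h1
  have h2 := (G.Gr Zw z).sub_mem h1 ((G.Gr Zw z).mul_mem (hS Ω z hz) (hS' Ω z hz))
  rw [Prod.mk_mul_mk, Prod.mk_sub_mk, sub_self] at h2
  have h3 := sub_eq_zero.1 (hU Ω z hz _ h2)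
  have h4 : Sp.Mod.ev (fun i => z (M.e i)) (rename (G.emb n) P) = aeval y P := by
    rw [Sp.Mod.ev, aeval_rename]; rfl
  rw [← hlam, zpow_sub₀ hl, zpow_neg, zpow_natCast] at h3
  have h5 : lam ^ e ≠ 0 := zpow_ne_zero _ hl
  rw [h4, pow_add]
  field_simp at h3
  linear_combination h3

end Pool.Agent.P.MP_6f117a_ag.EX
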