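import Pool.Agent.P.MP_6f117a_ag.E.WIface
import Pool.Agent.P.MP_6f117a_ag.PJ.TW1
import Pool.Agent.P.MP_6f117a_ag.PJ.TW2
import Pool.Agent.P.MP_6f117a_ag.PJ.TW3

/-! Step REL of the passage from the generic point to sections and norms. -/

namespace Pool.Agent.P.MP_6f117a_ag.EX

open Module MvPolynomial Sp

/-- The filtration by weight on the first `L` levels. -/
noncomputable def wrel_fil (p : ℕ) {k K : Type} [Field k] [Field K] [Algebra k K]
    (R : Subalgebra k K) {n D : ℕ} {X : Type} (W : Fin n × X → PV K n D) (L : ℕ) :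
    PJ.Fil (PV K n D) where
  F j := (Fil p R W L j).toAddSubgroup
  mono h := Fil.mono le_rfl h
  one := Fil.one_mem
  mul := Fil.mul_mem

theorem wrel_const {p : ℕ} {k K : Type} [Field k] [Field K] [Algebra k K] {R : Subalgebra k K}
    {n D : ℕ} {X : Type} {W : Fin n × X → PV K n D} {L w : ℕ} {x : K} (hx : x ∈ R) :
    C x ∈ Fil p R W L w := by
  simpa using Fil.algebraMap_mul (V := PV K n D) hx (Fil.one_mem (p := p) (W := W) (L := L) (w := w))

theorem wREL {p : ℕ} [Fact p.Prime] {k : Type} [Field k] [CharP k p] {M : Sp.Mod (WittVector p k)}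
    {K : Type} [Field K] [Algebra k K] [CharP K p] {d r C₀ δ : ℕ} (G : L0 M K d r C₀ δ) (n : ℕ) :
    W_REL G n := by
  intro Zw hZ c hc R e hR h0 l
  set W : Fin (M.N + 1) → WittVector p (PV K n (d + 1)) :=
    fun b => WittVector.teichmuller p (C (G.y c)⁻¹) * Zw b with hW
  have w0 : ∀ b, (W b).coeff 0 = C (G.y b / G.y c) := fun b => by
    rw [hW, PJ.t_W3, pow_zero, pow_one, hZ.zero, ← C_mul, div_eq_inv_mul]
  have w1 : ∀ b (j : Fin n), (W b).coeff (j + 1) = nz p (lev n Zw) (G.y c) (j, b) := fun b j => by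
    rw [hW, PJ.t_W3, ← C_pow, inv_pow]
    rfl
  have e1 : eval₂ (WittVector.map (algebraMap k _)) W R = 0 := by
    rw [hW, eval₂_hom _ _ _ hR, h0, mul_zero]
  have e2 := PJ.t_W2 PJ.t_W3 p _ _ (map (WittVector.map (algebraMap k _)) R) W l
  simp only [pderiv_map, eval_map, e1, coeff_zero_eval₂, w0, w1, WittVector.zero_coeff] at e2
  have e3 : ∀ g : MvPolynomial (Fin (M.N + 1)) (WittVector p k),
      e0 (fun b => (C (G.y b / G.y c) : PV K n (d + 1))) g = C (e0 (fun b => G.y b / G.y c) g) :=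
    fun g => (e0_map (IsScalarTower.toAlgHom k K (PV K n (d + 1))) _ g).symm
  simp only [e3, ← C_pow] at e2
  rw [eq_neg_of_add_eq_zero_right e2.symm]
  obtain ⟨S, hS⟩ := PJ.t_W1 PJ.t_W3 p _ (l + 1)
    (wrel_fil p (Rc k G.y c) (nz p (lev n Zw) (G.y c)) l)
  refine neg_mem ((hS _).1 ?_ _ le_rfl)
  rw [eval₂_eq]
  refine S.sum_mem fun m _ => S.mul_mem ((hS _).2 fun j _ => ?_)
    (S.prod_mem fun b _ => S.pow_mem ((hS _).2 fun j _ => ?_) _)
  · exact wrel_const ((Rc k G.y c).algebraMap_mem _)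
  · simp only [WittVector.init, WittVector.select, WittVector.coeff_mk]
    split_ifs with hj
    · rcases j with _ | j
      · rw [w0]
        exact wrel_const (Algebra.subset_adjoin ⟨b, rfl⟩)
      · have hj' : j < n := by omega
        have h1 := w1 b ⟨j, hj'⟩
        have h2 := Fil.gen (p := p) (R := Rc k G.y c) (W := nz p (lev n Zw) (G.y c)) (⟨j, hj'⟩, b)
        rw [← h1] at h2
        exact Fil.mono (L := j + 1) (w := (j + 1) * p ^ (j + 1)) (by omega) le_rfl h2
    · exact zero_mem _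

end Pool.Agent.P.MP_6f117a_ag.EX
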