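import Pool.Agent.P.MP_6f117a_ag.E.WIface

/-! Step REP of the passage from the generic point to sections and norms. -/

namespace Pool.Agent.P.MP_6f117a_ag.EX

open Module MvPolynomial Sp

section

variable {p : ℕ} [Fact p.Prime] {k : Type} [Field k] {M : Sp.Mod (WittVector p k)}
  {K : Type} [Field K] [Algebra k K] {d r C₀ δ : ℕ} (G : L0 M K d r C₀ δ) {n : ℕ}
  (Zw : Fin (M.N + 1) → WittVector p (PV K n (d + 1)))

/-- A form as a polynomial in the components number zero. -/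
noncomputable def wrep_lv (g : MvPolynomial (Fin (M.N + 1)) (WittVector p k)) :
    MvPolynomial (Fin (M.N + 1) × ℕ) k :=
  rename (fun b => (b, 0)) (MvPolynomial.map WittVector.constantCoeff g)

theorem wrep_ev_lv {Ω : Type} [Field Ω] [Algebra k Ω] (z : Fin (M.N + 1) → WittVector p Ω) (g) :
    Sp.Mod.ev z (wrep_lv g) = M.ev0 z g := by
  rw [wrep_lv, Sp.Mod.ev, aeval_rename]; rfl

theorem wrep_mul {s s' : PV K n (d + 1)} {e e' : ℤ} (h : ∃ ρ S, G.Rep Zw s e ρ S)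
    (h' : ∃ ρ S, G.Rep Zw s' e' ρ S) : ∃ ρ S, G.Rep Zw (s * s') (e + e') ρ S := by
  obtain ⟨ρ, S, h⟩ := h
  obtain ⟨ρ', S', h'⟩ := h'
  refine ⟨ρ + ρ', S * S', fun Ω _ _ z hz => ?_⟩
  have := mul_mem (h Ω z hz) (h' Ω z hz)
  rwa [Prod.mk_mul_mk, div_mul_div_comm, ← pow_add, mul_mul_mul_comm, ← map_mul,
    ← zpow_add₀ (G.lam_ne hz)] at this

theorem wrep_add {s s' : PV K n (d + 1)} {e : ℤ} (h : ∃ ρ S, G.Rep Zw s e ρ S)
    (h' : ∃ ρ S, G.Rep Zw s' e ρ S) : ∃ ρ S, G.Rep Zw (s + s') e ρ S := by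
  obtain ⟨ρ, S, h⟩ := h
  obtain ⟨ρ', S', h'⟩ := h'
  refine ⟨ρ + ρ', S * wrep_lv M.Del ^ ρ' + S' * wrep_lv M.Del ^ ρ, fun Ω _ _ z hz => ?_⟩
  have := add_mem (h Ω z hz) (h' Ω z hz)
  rw [Prod.mk_add_mk] at this
  have h0 := hz.2
  simp only [map_add, map_mul, map_pow, wrep_ev_lv]
  rwa [show (z (M.e (G.ε 0))).coeff 0 ^ e * (Sp.Mod.ev z S * M.ev0 z M.Del ^ ρ' +
      Sp.Mod.ev z S' * M.ev0 z M.Del ^ ρ) / M.ev0 z M.Del ^ (ρ + ρ') =
      (z (M.e (G.ε 0))).coeff 0 ^ e * Sp.Mod.ev z S / M.ev0 z M.Del ^ ρ +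
      (z (M.e (G.ε 0))).coeff 0 ^ e * Sp.Mod.ev z S' / M.ev0 z M.Del ^ ρ' by
        field_simp; ring]

theorem wrep_one (e : ℤ) : ∃ ρ S, G.Rep Zw 1 e ρ S := by
  obtain ⟨g, j, hg⟩ := G.x0
  obtain ⟨D, hD⟩ := h_dvd M g j
  rw [hg] at hD
  obtain ⟨m, rfl | rfl⟩ := e.eq_nat_or_neg
  · refine ⟨m, wrep_lv D ^ m, fun Ω _ _ z hz => ?_⟩
    have h0 := hz.2
    have h1 : M.ev0 z M.Del = (z (M.e (G.ε 0))).coeff 0 * M.ev0 z D := by
      rw [hD, ev0_eq, e0_mul, e0_X, ev0_eq]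
    rw [map_pow, wrep_ev_lv, zpow_natCast, ← mul_pow, ← h1, div_self (pow_ne_zero _ h0)]
    exact one_mem _
  · refine ⟨0, X (M.e (G.ε 0), 0) ^ m, fun Ω _ _ z hz => ?_⟩
    rw [map_pow, Sp.Mod.ev, aeval_X, zpow_neg, zpow_natCast,
      inv_mul_cancel₀ (pow_ne_zero _ (G.lam_ne hz)), pow_zero, div_one]
    exact one_mem _

theorem wrep_shift {s : PV K n (d + 1)} {e : ℤ} (h : ∃ ρ S, G.Rep Zw s e ρ S) (e' : ℤ) :
    ∃ ρ S, G.Rep Zw s e' ρ S := by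
  simpa using wrep_mul G Zw h (wrep_one G Zw (e' - e))

end

theorem wREP {p : ℕ} [Fact p.Prime] {k : Type} [Field k] [CharP k p] {M : Sp.Mod (WittVector p k)}
    {K : Type} [Field K] [Algebra k K] [CharP K p] {d r C₀ δ : ℕ} (G : L0 M K d r C₀ δ) (n : ℕ) :
    W_REP G n := by
  intro Zw s hs
  induction hs using Algebra.adjoin_induction with
  | add s s' _ _ h h' => exact fun e => wrep_add G Zw (h e) (h' e)
  | mul s s' _ _ h h' => exact fun e => by simpa using wrep_mul G Zw (h e) (h' 0)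
  | algebraMap c =>
    refine wrep_shift G Zw (e := 0) ⟨0, C c, fun Ω _ _ z hz => ?_⟩
    rw [zpow_zero, one_mul, pow_zero, div_one, Sp.Mod.ev, aeval_C]
    exact Subalgebra.algebraMap_mem _ c
  | mem s hs =>
    rcases hs with rfl | ⟨b, rfl⟩ | ⟨v, rfl⟩
    · refine wrep_shift G Zw (e := M.dDel) ⟨1, 1, fun Ω _ _ z hz => Algebra.subset_adjoin ?_⟩
      rw [map_one, mul_one, pow_one, zpow_natCast, inv_div]
      exact Set.mem_insert _ _
    · refine wrep_shift G Zw (e := -1) ⟨0, X (b, 0), fun Ω _ _ z hz => Algebra.subset_adjoin ?_⟩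
      rw [pow_zero, div_one, Sp.Mod.ev, aeval_X, zpow_neg_one, mul_comm, ← div_eq_mul_inv]
      exact Or.inr (Or.inl ⟨b, rfl⟩)
    · refine wrep_shift G Zw (e := -(p ^ ((v.1 : ℕ) + 1) : ℕ)) ⟨0, X (v.2, v.1 + 1),
        fun Ω _ _ z hz => Algebra.subset_adjoin ?_⟩
      rw [pow_zero, div_one, Sp.Mod.ev, aeval_X, zpow_neg, zpow_natCast, mul_comm,
        ← div_eq_mul_inv]
      exact Or.inr (Or.inr ⟨v, rfl⟩)

end Pool.Agent.P.MP_6f117a_ag.EX
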