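import Pool.Agent.P.MP_6f117a_ag.E.WIface

/-! Step SEC of the passage from the generic point to sections and norms. -/

namespace Pool.Agent.P.MP_6f117a_ag.EX

open Module MvPolynomial Sp

section

variable {p : ℕ} [Fact p.Prime] {k : Type} [Field k] {M : Sp.Mod (WittVector p k)}
  {K : Type} [Field K] [Algebra k K] {d r C₀ δ : ℕ} (G : L0 M K d r C₀ δ) {n : ℕ}
  (Zw : Fin (M.N + 1) → WittVector p (PV K n (d + 1)))

theorem wsec_pair {σ A B : Type} [CommRing A] [CommRing B] [Algebra k A] [Algebra k B] (y : σ → A)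
    (y' : σ → B) (g : MvPolynomial σ (WittVector p k)) :
    e0 (fun b => (y b, y' b)) g = (e0 y g, e0 y' g) :=
  Prod.ext (e0_map (AlgHom.fst k A B) _ g) (e0_map (AlgHom.snd k A B) _ g)

omit [Fact p.Prime] in
theorem wsec_add {A B : Type} [CommRing A] [CommRing B] [Algebra k A] [Algebra k B]
    {S : Subalgebra k (A × B)} {a a' : A} {b b' : B} (h : (a, b) ∈ S) (h' : (a', b') ∈ S) :
    (a + a', b + b') ∈ S := add_mem h h'

omit [Fact p.Prime] in
theorem wsec_mul {A B : Type} [CommRing A] [CommRing B] [Algebra k A] [Algebra k B]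
    {S : Subalgebra k (A × B)} {a a' : A} {b b' : B} (h : (a, b) ∈ S) (h' : (a', b') ∈ S) :
    (a * a', b * b') ∈ S := mul_mem h h'

omit [Fact p.Prime] in
theorem wsec_pow {A B : Type} [CommRing A] [CommRing B] [Algebra k A] [Algebra k B]
    {S : Subalgebra k (A × B)} {a : A} {b : B} (h : (a, b) ∈ S) (t : ℕ) :
    (a ^ t, b ^ t) ∈ S := pow_mem h t

theorem wsec_C (g : MvPolynomial (Fin (M.N + 1)) (WittVector p k)) :
    e0 (fun b => (C (G.y b) : PV K n (d + 1))) g = C (e0 G.y g) :=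
  (e0_map (IsScalarTower.toAlgHom k K (PV K n (d + 1))) G.y g).symm

theorem wsec_inv {A : Type} [Field A] [Algebra k A] {y : Fin (M.N + 1) → A}
    {f c : MvPolynomial (Fin (M.N + 1)) (WittVector p k)} (h : M.Del = f * c)
    (hy : e0 y M.Del ≠ 0) : (e0 y f)⁻¹ = e0 y c * (e0 y M.Del)⁻¹ := by
  rw [h, e0_mul] at hy ⊢
  field_simp [left_ne_zero_of_mul hy, right_ne_zero_of_mul hy]

theorem wsec_fam (i) {a'} (h : gs G.J G.y G.h i a' ≠ 0) (a) :
    gs G.J G.y G.h i a / gs G.J G.y G.h i a' = 0 ∨ ∃ g j j',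
      gs G.J G.y G.h i a / gs G.J G.y G.h i a' = e0 G.y (M.h g j) / e0 G.y (M.h g j') := by
  obtain ⟨g, w, hw, -, h2⟩ := G.fam i
  by_cases ha : gs G.J G.y G.h i a = 0
  · exact .inl (by rw [ha, zero_div])
  obtain ⟨j, hj⟩ := h2 a ha
  obtain ⟨j', hj'⟩ := h2 a' h
  exact .inr ⟨g, j, j', by rw [hj, hj', mul_div_mul_left _ _ hw]⟩

theorem wsec_fam' (j : ∀ g, M.J g) (i) : ∃ a', gs G.J G.y G.h i a' ≠ 0 ∧ ∀ a,
    gs G.J G.y G.h i a / gs G.J G.y G.h i a' = 0 ∨ ∃ g j',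
      gs G.J G.y G.h i a / gs G.J G.y G.h i a' = e0 G.y (M.h g j') / e0 G.y (M.h g (j g)) := by
  obtain ⟨g, w, hw, h1, h2⟩ := G.fam i
  obtain ⟨a', ha'⟩ := h1 (j g)
  refine ⟨a', right_ne_zero_of_mul (ha' ▸ e0_ne (h_dvd M g _) G.del), fun a => ?_⟩
  by_cases ha : gs G.J G.y G.h i a = 0
  · exact .inl (by rw [ha, zero_div])
  obtain ⟨j', hj'⟩ := h2 a ha
  exact .inr ⟨g, j', by rw [hj', ha', mul_div_mul_left _ _ hw]⟩

theorem wsec_reg_e0 (g : MvPolynomial (Fin (M.N + 1)) (WittVector p k)) :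
    C (e0 G.y g) ∈ G.Reg Zw :=
  wsec_C G g ▸ e0_mem (G.Reg Zw) (fun b => Algebra.subset_adjoin (.inr (.inl ⟨b, rfl⟩))) g

theorem wsec_reg_RR {α} (hα : Val (gs G.J G.y G.h) α) {x : K} (hx : x ∈ RR k (gs G.J G.y G.h) α) :
    C x ∈ G.Reg Zw := by
  refine (Algebra.adjoin_le ?_ :
    _ ≤ (G.Reg Zw).comap (IsScalarTower.toAlgHom k K (PV K n (d + 1)))) hx
  rintro _ ⟨i, a, rfl⟩
  change C _ ∈ G.Reg Zw
  rcases wsec_fam G i (hα i) a with h | ⟨g, j, j', h⟩
  · rw [h, map_zero]; exact zero_mem _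
  · obtain ⟨c, hc⟩ := h_dvd M g j'
    rw [h, div_eq_mul_inv, wsec_inv hc G.del, map_mul, map_mul]
    exact mul_mem (wsec_reg_e0 G Zw _)
      (mul_mem (wsec_reg_e0 G Zw _) (Algebra.subset_adjoin (.inl rfl)))

theorem wsec_reg {m e : ℕ} {s : PV K n (d + 1)} (hs : G.Glob Zw m e s) : s ∈ G.Reg Zw := by
  choose α hα using G.fam_ne
  have hc : G.y (α (.inr false)).2.1 ≠ 0 := hα (.inr false)
  have h1 : C (G.y (α (.inr false)).2.1)⁻¹ ∈ G.Reg Zw := by
    have := wsec_reg_RR G Zw hα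
      (div_mem_RR α (.inr false) ((α (.inr false)).1, M.e (G.ε 0), (α (.inr false)).2.2))
    simpa only [gs, G.y0, one_div] using this
  have h2 : ∀ t ∈ Fil p (RR k (gs G.J G.y G.h) α) (nz p (lev n Zw) (G.y (α (.inr false)).2.1)) n m,
      t ∈ G.Reg Zw := fun t ht => by
    induction ht using Submodule.span_induction with
    | mem t ht =>
      obtain ⟨a, -, -, rfl⟩ := ht
      refine prod_mem fun v _ => pow_mem ?_ _
      rw [nz, ← inv_pow, map_pow]
      exact mul_mem (pow_mem h1 _) (Algebra.subset_adjoin (.inr (.inr ⟨v, rfl⟩)))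
    | zero => exact zero_mem _
    | add _ _ _ _ h h' => exact add_mem h h'
    | smul c t _ h =>
      rw [Subalgebra.smul_def, smul_eq_C_mul]
      exact mul_mem (wsec_reg_RR G Zw hα c.2) h
  have := mul_mem (pow_mem h1 e) (h2 _ (hs α hα))
  rwa [← map_pow, ← mul_assoc, ← map_mul, ← mul_pow, inv_mul_cancel₀ hc, one_pow, map_one,
    one_mul] at this

variable {Ω : Type} [Field Ω] [Algebra k Ω] {z : Fin (M.N + 1) → WittVector p Ω}

theorem wsec_hom {g : MvPolynomial (Fin (M.N + 1)) (WittVector p k)} {e : ℕ}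
    (h : g.IsHomogeneous e) :
    e0 (fun b => (z b).coeff 0 / (z (M.e (G.ε 0))).coeff 0) g =
      M.ev0 z g / (z (M.e (G.ε 0))).coeff 0 ^ e := by
  simp only [div_eq_inv_mul]
  rw [e0_hom _ _ h, inv_pow, ev0_eq]

theorem wsec_gr_y (b) :
    (C (G.y b), (z b).coeff 0 / (z (M.e (G.ε 0))).coeff 0) ∈ G.Gr Zw z :=
  Algebra.subset_adjoin (.inr (.inl ⟨b, rfl⟩))

theorem wsec_gr_e0 (g : MvPolynomial (Fin (M.N + 1)) (WittVector p k)) :
    (C (e0 G.y g), e0 (fun b => (z b).coeff 0 / (z (M.e (G.ε 0))).coeff 0) g) ∈ G.Gr Zw z := by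
  rw [← wsec_C, ← wsec_pair]
  exact e0_mem (G.Gr Zw z) (wsec_gr_y G Zw) g

theorem wsec_gr_h (hz : M.Pt z) (g j j') :
    (C (e0 G.y (M.h g j) / e0 G.y (M.h g j')), M.ev0 z (M.h g j) / M.ev0 z (M.h g j')) ∈
      G.Gr Zw z := by
  have hl := G.lam_ne hz
  obtain ⟨c, hc⟩ := h_dvd M g j'
  have h0 : e0 (fun b => (z b).coeff 0 / (z (M.e (G.ε 0))).coeff 0) M.Del ≠ 0 := by
    rw [wsec_hom G M.Del_hom]; exact div_ne_zero hz.2 (pow_ne_zero _ hl)
  have h1 : (C (e0 G.y M.Del)⁻¹,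
      (e0 (fun b => (z b).coeff 0 / (z (M.e (G.ε 0))).coeff 0) M.Del)⁻¹) ∈ G.Gr Zw z := by
    rw [wsec_hom G M.Del_hom]; exact Algebra.subset_adjoin (.inl rfl)
  have := mul_mem (wsec_gr_e0 G Zw (M.h g j)) (mul_mem (wsec_gr_e0 G Zw c) h1)
  rw [Prod.mk_mul_mk, Prod.mk_mul_mk, ← wsec_inv hc h0, ← map_mul, ← wsec_inv hc G.del, ← map_mul,
    wsec_hom G (M.h_hom g j), wsec_hom G (M.h_hom g j'), ← div_eq_mul_inv, ← div_eq_mul_inv,
    div_div_div_cancel_right₀ (pow_ne_zero _ hl)] at this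
  exact this

variable {G Zw}

theorem wsec_fun (hu : G.Univ Zw) (hz : M.Pt z) {s : PV K n (d + 1)} {a b : Ω}
    (ha : (s, a) ∈ G.Gr Zw z) (hb : (s, b) ∈ G.Gr Zw z) : a = b := by
  have := sub_mem ha hb
  rw [Prod.mk_sub_mk, sub_self] at this
  exact sub_eq_zero.1 (hu Ω z hz _ this)

theorem wsec_gr_inv (hu : G.Univ Zw) (hz : M.Pt z) {c} (hc : G.y c ≠ 0) :
    (C (G.y c)⁻¹, ((z c).coeff 0 / (z (M.e (G.ε 0))).coeff 0)⁻¹) ∈ G.Gr Zw z := by
  have h1 : G.y (M.e (G.ε 0)) / G.y c = 0 ∨ _ :=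
    wsec_fam G (.inr false) (a' := (fun _ => c, c, 0)) hc (fun _ => c, M.e (G.ε 0), 0)
  rcases h1 with h | ⟨g, j, j', h⟩
  · rw [G.y0] at h; exact absurd h (div_ne_zero one_ne_zero hc)
  · have h2 := wsec_gr_h G Zw hz g j j'
    rw [← h] at h2
    simp only [gs, G.y0, one_div] at h2
    have h3 := mul_mem h2 (wsec_gr_y G Zw c)
    rw [Prod.mk_mul_mk, ← map_mul, inv_mul_cancel₀ hc, map_one] at h3
    rwa [eq_inv_of_mul_eq_one_left (wsec_fun hu hz h3 (one_mem _))] at h2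

theorem wsec_sec (hu : G.Univ Zw) {m e ρ : ℕ} {s : PV K n (d + 1)} (hs : G.Glob Zw m e s) {S}
    (hS : G.Rep Zw s e ρ S) : M.Sec n m e ρ S := by
  classical
  intro Ω _ _ z hz c j Φ hk hc h1 h2
  have hl := G.lam_ne hz
  have hy : G.y c ≠ 0 := fun h => by
    have := wsec_gr_y G Zw (z := z) c
    rw [h, map_zero] at this
    exact div_ne_zero hc hl (hu Ω z hz _ this)
  have hi := wsec_gr_inv hu hz hy
  choose a ha ha' using wsec_fam' G j
  set α := Function.update a (.inr false) (fun _ => c, c, 0) with hα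
  have e1 : (α (.inr false)).2.1 = c := by simp [hα]
  have hv : Val (gs G.J G.y G.h) α := fun i => by
    rcases eq_or_ne i (.inr false) with rfl | h
    · simpa only [gs, e1] using hy
    · simpa only [hα, Function.update_of_ne h] using ha i
  have h3 : ∀ x ∈ RR k (gs G.J G.y G.h) α, ∃ t ∈ Φ.F 0, (C x, t) ∈ G.Gr Zw z := fun x hx => by
    induction hx using Algebra.adjoin_induction with
    | mem x hx =>
      obtain ⟨i, b, rfl⟩ := hx
      rcases eq_or_ne i (.inr false) with rfl | h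
      · refine ⟨(z b.2.1).coeff 0 / (z c).coeff 0, by simpa using h1 b.2.1 0 n.zero_le, ?_⟩
        have := mul_mem (wsec_gr_y G Zw b.2.1) hi
        rw [Prod.mk_mul_mk, ← map_mul, ← div_eq_mul_inv, ← div_eq_mul_inv,
          div_div_div_cancel_right₀ hl] at this
        simpa only [gs, e1] using this
      · rw [hα, Function.update_of_ne h]
        rcases ha' i b with h | ⟨g, j', h⟩
        · rw [h, map_zero]; exact ⟨0, zero_mem _, zero_mem _⟩
        · rw [h]; exact ⟨_, h2 g j', wsec_gr_h G Zw hz g j' (j g)⟩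
    | algebraMap t => exact ⟨_, hk t, (G.Gr Zw z).algebraMap_mem t⟩
    | add x y _ _ hx hy =>
      obtain ⟨t, ht, hx⟩ := hx
      obtain ⟨t', ht', hy⟩ := hy
      rw [map_add]
      exact ⟨_, add_mem ht ht', wsec_add hx hy⟩
    | mul x y _ _ hx hy =>
      obtain ⟨t, ht, hx⟩ := hx
      obtain ⟨t', ht', hy⟩ := hy
      rw [map_mul]
      exact ⟨_, Φ.mul_mem0 ht ht', wsec_mul hx hy⟩
  have h4 : ∀ v, ∃ t ∈ Φ.F (lw p n _ v), (nz p (lev n Zw) (G.y c) v, t) ∈ G.Gr Zw z := fun v => by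
    refine ⟨_, h1 v.2 (v.1 + 1) v.1.2, ?_⟩
    have := mul_mem (pow_mem hi (p ^ ((v.1 : ℕ) + 1))) (Algebra.subset_adjoin (.inr (.inr ⟨v, rfl⟩)))
    rw [Prod.pow_mk, Prod.mk_mul_mk, ← map_pow, inv_pow] at this
    convert this using 2
    · rfl
    · rw [inv_div, div_pow, lev]
      field_simp
  have h5 : ∀ f ∈ Fil p (RR k (gs G.J G.y G.h) α) (nz p (lev n Zw) (G.y c)) n m,
      ∃ t ∈ Φ.F m, (f, t) ∈ G.Gr Zw z := fun f hf => by
    induction hf using Submodule.span_induction with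
    | mem f hf =>
      obtain ⟨b, -, hb, rfl⟩ := hf
      suffices ∃ t ∈ Φ.F (Finsupp.weight (lw p n _) b),
          (b.prod fun v e => nz p (lev n Zw) (G.y c) v ^ e, t) ∈ G.Gr Zw z from
        this.imp fun t ht => ⟨Φ.mono hb ht.1, ht.2⟩
      rw [Finsupp.weight_apply, Finsupp.sum, Finsupp.prod]
      induction b.support using Finset.induction_on with
      | empty => exact ⟨1, Φ.one_mem, one_mem _⟩
      | insert v s hv ih =>
        obtain ⟨t, ht, h⟩ := h4 v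
        obtain ⟨t', ht', h'⟩ := ih
        rw [Finset.prod_insert hv, Finset.sum_insert hv]
        exact ⟨_, Φ.mul_mem (Φ.pow_mem ht _) ht', wsec_mul (wsec_pow h _) h'⟩
    | zero => exact ⟨0, zero_mem _, zero_mem _⟩
    | add x y _ _ hx hy =>
      obtain ⟨t, ht, hx⟩ := hx
      obtain ⟨t', ht', hy⟩ := hy
      exact ⟨_, add_mem ht ht', wsec_add hx hy⟩
    | smul x f _ h =>
      obtain ⟨t, ht, h⟩ := h
      obtain ⟨t', ht', h'⟩ := h3 x x.2
      rw [Subalgebra.smul_def, smul_eq_C_mul]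
      exact ⟨_, Φ.mul_mem0 ht' ht, wsec_mul h' h⟩
  have h6 := hs α hv
  rw [e1] at h6
  obtain ⟨t, ht, h7⟩ := h5 _ h6
  have h8 := mul_mem (pow_mem (wsec_gr_y G Zw c) e) (hS Ω z hz)
  rw [Prod.pow_mk, Prod.mk_mul_mk, ← map_pow] at h8
  rw [wsec_fun hu hz h7 h8] at ht
  convert ht using 1
  rw [zpow_natCast, div_pow]
  field_simp

end

theorem wSEC {p : ℕ} [Fact p.Prime] {k : Type} [Field k] [CharP k p] {M : Sp.Mod (WittVector p k)}
    {K : Type} [Field K] [Algebra k K] [CharP K p] {d r C₀ δ : ℕ} (G : L0 M K d r C₀ δ) (n : ℕ) :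
    W_SEC G n := fun Zw _ _ _ hu hs => ⟨wsec_reg G Zw hs, fun _ _ hS => wsec_sec hu hs hS⟩

end Pool.Agent.P.MP_6f117a_ag.EX
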