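import Pool.Agent.P.MP_6f117a_ag.E.WIface

/-! Assembly of the passage from the generic point to sections and norms. -/

namespace Pool.Agent.P.MP_6f117a_ag.EX

open Module MvPolynomial Sp

variable {p : ℕ} [Fact p.Prime] {k : Type} [Field k] {M : Sp.Mod (WittVector p k)}
  {K : Type} [Field K] [Algebra k K] {d r C₀ δ n : ℕ} (G : L0 M K d r C₀ δ)

theorem L0.Glob.pow {Zw : _ → WittVector p (PV K n (d + 1))} {m e : ℕ} {s : PV K n (d + 1)}
    (h : G.Glob Zw m e s) (t : ℕ) : G.Glob Zw (t * m) (t * e) (s ^ t) := fun α hα => by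
  have := Fil.pow_mem (h α hα) t
  rwa [mul_pow, ← map_pow, ← pow_mul, mul_comm e] at this

theorem L0.emb_inj (n : ℕ) : Function.Injective (G.emb n) := by
  rintro (i | ⟨l, i⟩) (j | ⟨l', j⟩) h <;>
    simp only [L0.emb, Sum.elim_inl, Sum.elim_inr, Prod.mk.injEq, G.ε.apply_eq_iff_eq] at h
  · rw [h.1]
  · omega
  · omega
  · rw [h.1, Fin.ext (Nat.succ_injective h.2)]

theorem exists_dom {ι : Type} [Finite ι] (y : ι → K) (b₀ : ι) (h : y b₀ ≠ 0)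
    (V : ValuationSubring K) : ∃ c, y c ≠ 0 ∧ ∀ b, y b / y c ∈ V := by
  haveI : Nonempty ι := ⟨b₀⟩
  obtain ⟨c, hc⟩ := Finite.exists_max fun b => V.valuation (y b)
  have h0 : V.valuation (y c) ≠ 0 := fun e => h (by simpa [e] using hc b₀)
  refine ⟨c, by simpa using h0, fun b => V.valuation_le_one_iff _ |>.1 ?_⟩
  rw [map_div₀, div_le_one₀ (zero_lt_iff.2 h0)]
  exact hc b

theorem top_core {Zw : _ → WittVector p (PV K n (d + 1))} (hJ : G.Jet Zw) (hU : G.Univ Zw)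
    (hREP : W_REP G n) (hSEC : W_SEC G n) (hBOUND : W_BOUND G n) (hDOM : W_DOM G)
    (hNRM : W_NRM G n) (hNORM : W_NORM k K) {m e : ℕ} {s : PV K n (d + 1)} (hs : s ≠ 0)
    (h : G.Glob Zw m e s) : ∃ (ρ : ℕ) (S : MvPolynomial (Fin (M.N + 1) × ℕ) k)
      (P : MvPolynomial (M.ι × ℕ) k), M.Sec n m e ρ S ∧ M.Nrm S P ∧ P ≠ 0 ∧
      (∀ v ∈ P.vars, v.2 ≤ n) ∧ ∀ u ∈ P.support, (u.sum fun v t => t * p ^ v.2) ≤
        δ * ((sdf M + 1) * (sdf M * ((n + 1) * m)) + (n + 1) * m) := by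
  classical
  obtain ⟨h1, h2⟩ := hSEC Zw m e s hU h
  obtain ⟨ρ, S, hS⟩ := hREP Zw s h1 e
  obtain ⟨T, hT, hT'⟩ := hDOM
  set t := (n + 1) * m
  set u := aeval G.x T ^ (sdf M * t) * (∏ b, e0 G.y (M.der b)) ^ t with hu
  have hu0 : u ≠ 0 := mul_ne_zero (pow_ne_zero _ hT) (pow_ne_zero _
    (Finset.prod_ne_zero_iff.2 fun b _ => e0_ne (der_dvd M b) G.del))
  have hy : ∀ b, C (G.y b) ∈ G.Reg Zw := fun b =>
    Algebra.subset_adjoin (Or.inr (Or.inl ⟨b, rfl⟩))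
  have hC : ∀ x ∈ Algebra.adjoin k (Set.range G.y), C x ∈ G.Reg Zw := fun x hx =>
    (Algebra.adjoin_le (S := (G.Reg Zw).comap (IsScalarTower.toAlgHom k K _))
      (by rintro _ ⟨b, rfl⟩; exact hy b)) hx
  have hyy : ∀ b, G.y b ∈ Algebra.adjoin k (Set.range G.y) := fun b =>
    Algebra.subset_adjoin ⟨b, rfl⟩
  have huR : C u ∈ G.Reg Zw := hC _ (mul_mem (pow_mem (Algebra.adjoin_le
    (by rintro _ ⟨i, rfl⟩; exact hyy _) (Algebra.adjoin_range_eq_range_aeval k G.x ▸ ⟨T, rfl⟩ :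
      aeval G.x T ∈ Algebra.adjoin k (Set.range G.x))) _)
    (pow_mem (prod_mem fun b _ => e0_mem _ hyy _) _))
  obtain ⟨P, j, Q, hP, hj, hP1, hP2, hQ⟩ := hNORM d δ ((sdf M + 1) * (sdf M * t)) t G.x _
    (fun v : Fin n × Fin (d + 1) => p ^ ((v.1 : ℕ) + 1)) (C u * s) G.y0 G.indx G.fd G.fin
    (mul_ne_zero (C_ne_zero.2 hu0) hs) fun a ha => by
      have ha' : a ∈ s.support := mem_support_iff.2 fun e =>
        mem_support_iff.1 ha (by rw [coeff_C_mul, e, mul_zero])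
      obtain ⟨h3, h4⟩ := hBOUND Zw m e s hJ h a ha'
      refine ⟨h3, fun V hV i hi hd => ?_⟩
      obtain ⟨c, hc, hc'⟩ := exists_dom G.y _ (G.y0 ▸ one_ne_zero) V
      have := mul_mem (pow_mem (hT' V hV i hi hd c) (sdf M * t)) (h4 V hV c hc hc')
      convert this using 1
      rw [coeff_C_mul, hu, pow_mul (G.x i), div_pow, mul_pow]
      field_simp
      ring
  have hQR : C u * Q ∈ G.Reg Zw := mul_mem huR (Algebra.adjoin_le (by
    rintro _ (rfl | ⟨i, rfl⟩ | ⟨v, rfl⟩)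
    · exact mul_mem huR h1
    · exact hy _
    · exact Algebra.subset_adjoin (Or.inr (Or.inr ⟨(v.1, M.e (G.ε v.2)), hJ.free _ _⟩))) hQ)
  refine ⟨ρ, S, rename (G.emb n) P, h2 ρ S hS,
    hNRM Zw s (C u * Q) e ρ _ S P hJ hU hS hQR hP1 (by rw [hP2]; ring),
    fun e => hP (rename_injective _ (G.emb_inj n) (by simpa using e)), fun v hv => ?_,
    fun a ha => ?_⟩
  · obtain ⟨i | i, -, rfl⟩ := mem_vars_rename _ _ hv
    · exact Nat.zero_le _
    · exact i.1.2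
  · rw [support_rename_of_injective (G.emb_inj n), Finset.mem_image] at ha
    obtain ⟨a, ha, rfl⟩ := ha
    refine le_trans (le_of_eq ?_) (Nat.mul_le_mul_right _ hj)
    rw [← hP1 (mem_support_iff.1 ha), Finsupp.sum_mapDomain_index (by simp) (by simp [add_mul]),
      Finsupp.weight_apply]
    exact Finsupp.sum_congr (by rintro (i | v) - <;> simp [L0.emb])

theorem top_of (hE : E_EXIST.{0}) (h : ∀ (p : ℕ) [Fact p.Prime] (k : Type) [Field k] [CharP k p]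
    (M : Sp.Mod (WittVector p k)) (K : Type) [Field K] [Algebra k K] [CharP K p] (d r C₀ δ : ℕ)
    (G : L0 M K d r C₀ δ) (n : ℕ), W_UNIV G n ∧ W_ED G n ∧ W_REP G n ∧ W_SEC G n ∧ W_BOUND G n ∧
      W_DOM G ∧ W_NRM G n ∧ W_NORM k K) : W_TOP := by
  intro d r C₀ hd hr
  obtain ⟨n, q, hq, hE⟩ := hE d r C₀ hd hr
  refine ⟨n, q, hq, fun δ D => ⟨δ * ((D + 1) * (D * ((n + 1) * q)) + (n + 1) * q), ?_⟩⟩
  intro p _ k _ _ _ M K _ _ G hD e₀
  haveI : CharP K p := charP_of_injective_algebraMap (algebraMap k K).injective p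
  obtain ⟨⟨Zw, hJ, hU⟩, h2, h3, h4, h5, h6, h7, h8⟩ := h p k M K d r C₀ δ G n
  obtain ⟨E, e1, e2, e3, e4⟩ := h2 Zw hJ
  obtain ⟨m, e, s, hm, hme, hs, hG⟩ := hE k K p _ E
  rw [e1, e2, e3, e4] at hG
  have he : 0 < e := Nat.pos_of_mul_pos_left (hm.trans_le hme)
  have hme' : e₀ * m ≤ q * (e₀ * e) := by
    rw [mul_left_comm]; exact Nat.mul_le_mul_left _ hme
  obtain ⟨ρ, S, P, a1, a2, a3, a4, a5⟩ := top_core G hJ hU h3 h4 h5 h6 h7 h8 (pow_ne_zero e₀ hs)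
    (L0.Glob.pow G hG e₀)
  refine ⟨_, _, ρ, S, P, Nat.le_mul_of_pos_right _ he, hme', a1, a2, a3, a4, fun u hu =>
    (a5 u hu).trans ?_⟩
  calc _ ≤ δ * ((D + 1) * (D * ((n + 1) * (q * (e₀ * e)))) + (n + 1) * (q * (e₀ * e))) := by gcongr
    _ = _ := by ring

end Pool.Agent.P.MP_6f117a_ag.EX
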