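import Pool.Agent.P.MP_6f117a_ag.E.WIface
import Pool.Agent.P.MP_6f117a_ag.C.Exz
import Pool.Agent.P.MP_6f117a_ag.C.Locl
import Pool.Agent.P.MP_6f117a_ag.C.Tay
import Pool.Agent.P.MP_6f117a_ag.C.Tch
import Pool.Agent.P.MP_6f117a_ag.PJ.TW2
import Pool.Agent.P.MP_6f117a_ag.PJ.TW3
import Pool.Agent.P.MP_6f117a_ag.PJ.TW4a

/-! Step UNIV of the passage from the generic point to sections and norms. -/

namespace Pool.Agent.P.MP_6f117a_ag.EX

open Module MvPolynomial Sp

theorem wuniv_uniq {p : ℕ} [Fact p.Prime] {R Ω ι : Type} [CommRing R] [Field Ω] [CharP Ω p]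
    [Fintype ι] (ψ : R →+* WittVector p Ω) (f : MvPolynomial (Option ι) R)
    (z z' : Option ι → WittVector p Ω) (n : ℕ) (h : eval₂ ψ z f = 0) (h' : eval₂ ψ z' f = 0)
    (hx : ∀ i, ∀ l ≤ n, (z (some i)).coeff l = (z' (some i)).coeff l)
    (h0 : (z none).coeff 0 = (z' none).coeff 0)
    (hd : (eval₂ ψ z (pderiv none f)).coeff 0 ≠ 0) :
    ∀ l ≤ n, (z none).coeff l = (z' none).coeff l := by
  intro l
  induction l using Nat.strong_induction_on with
  | _ l ih =>
    intro hl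
    rcases Nat.eq_zero_or_pos l with rfl | h1
    · exact h0
    have := (pTAY p Ω (Option ι) (MvPolynomial.map ψ f) z z' l (by
      rintro (_ | i) j hj
      exacts [ih j hj (hj.le.trans hl), hx i j (hj.le.trans hl)])).2 h1
    rw [eval_map, eval_map, h, h', sub_self, Fintype.sum_option,
      Finset.sum_eq_zero fun i _ => by rw [hx i l hl, sub_self, mul_zero], add_zero, pderiv_map,
      eval_map] at this
    exact sub_eq_zero.1 ((mul_eq_zero.1 this.symm).resolve_left (pow_ne_zero _ hd))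

theorem wuniv_comp {p : ℕ} [Fact p.Prime] {k A A' σ : Type} [CommRing k] [CommRing A] [CommRing A']
    (c : k →+* A) (φ : A →+* A') (c' : k →+* A') (h : ∀ a, φ (c a) = c' a)
    (z : σ → WittVector p A) (f : MvPolynomial σ (WittVector p k)) :
    eval₂ (WittVector.map c') (fun i => WittVector.map φ (z i)) f =
      WittVector.map φ (eval₂ (WittVector.map c) z f) := by
  rw [eval₂_comp_left]
  congr 1
  ext a l
  simp [h]

open ExzAux in
theorem wuniv_ex {p : ℕ} [Fact p.Prime] {k : Type} [Field k] (M : Sp.Mod (WittVector p k))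
    {A : Type} [CommRing A] [CharP A p] (I : MvPolynomial (Fin (M.N + 1)) k →+* A)
    (x : M.ι → WittVector p A) (hx : ∀ i, (x i).coeff 0 = I (X (M.e i)))
    (h1 : ∀ a, I (MvPolynomial.map WittVector.constantCoeff (M.eqn a)) = 0)
    (h2 : IsUnit (I (MvPolynomial.map WittVector.constantCoeff M.Del))) :
    ∃ z : Fin (M.N + 1) → WittVector p A, (∀ b, (z b).coeff 0 = I (X b)) ∧ (∀ i, z (M.e i) = x i) ∧
      ∀ a, eval₂ (WittVector.map (I.comp C)) z (M.eqn a) = 0 := by
  have key : ∀ a (f : MvPolynomial (Option M.ι) (WittVector p k)),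
      (uni (WittVector.map (I.comp C)) x f).eval₂ WittVector.constantCoeff (I (X a)) =
        I (MvPolynomial.map WittVector.constantCoeff (rename (fun o => o.elim a M.e) f)) := by
    intro a f
    rw [uni_eval]
    induction f using MvPolynomial.induction_on with
    | C t => simp
    | add f g hf hg => simp only [eval₂_add, map_add, hf, hg]
    | mul_X f o hf =>
      simp only [eval₂_mul, map_mul, hf, eval₂_X, rename_X, map_X]
      cases o
      exacts [rfl, congrArg _ (hx _)]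
  have ex : ∀ a, ∃ y, (uni (WittVector.map (I.comp C)) x (M.f a)).eval y = 0 ∧
      y.coeff 0 = I (X a) := fun a =>
    (PJ.t_W4a (PJ.t_W2 PJ.t_W3) p A).1 _ _ ((key a _).trans (h1 a)) (by
      rw [uni_der, key]
      exact isUnit_of_dvd_unit (map_dvd _ (map_dvd _ (der_dvd M a))) h2)
  choose z hz hz' using ex
  simp only [← Polynomial.eval₂_id, uni_eval, RingHom.id_comp, RingHom.id_apply] at hz
  have hf : ∀ i, z (M.e i) = x i := fun i => by
    have e := hz (M.e i)
    rw [M.f_e, eval₂_sub, eval₂_X, eval₂_X, sub_eq_zero] at e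
    exact e
  refine ⟨z, hz', hf, fun a => ?_⟩
  rw [Mod.eqn, eval₂_rename, ← hz a]
  congr 1
  funext o
  cases o
  exacts [rfl, hf _]

theorem wUNIV {p : ℕ} [Fact p.Prime] {k : Type} [Field k] [CharP k p] {M : Sp.Mod (WittVector p k)}
    {K : Type} [Field K] [Algebra k K] [CharP K p] {d r C₀ δ : ℕ} (G : L0 M K d r C₀ δ) (n : ℕ) :
    W_UNIV G n := by
  obtain ⟨B, hB, hi, -, hθ⟩ := pLOCL (MvPolynomial (Fin (M.N + 1)) k) K
    (aeval G.y : _ →ₐ[k] K).toRingHom (MvPolynomial.map WittVector.constantCoeff M.Del) G.del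
  obtain ⟨I, hI⟩ : ∃ I : MvPolynomial (Fin (M.N + 1)) k →+* B, ∀ r, I r = ⟨aeval G.y r, hB r⟩ :=
    ⟨(aeval G.y : _ →ₐ[k] K).toRingHom.codRestrict B hB, fun _ => rfl⟩
  have hu : I (MvPolynomial.map WittVector.constantCoeff M.Del) * ⟨_, hi⟩ = 1 := by
    rw [hI]
    exact Subtype.ext (mul_inv_cancel₀ G.del)
  obtain ⟨x, hx0, hx1⟩ : ∃ x : M.ι → WittVector p (MvPolynomial (Fin n × Fin (d + 1)) B),
      (∀ i, (x i).coeff 0 = C (I (X (M.e i)))) ∧
      ∀ i (l : Fin n), (x (G.ε i)).coeff (l + 1) = X (l, i) :=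
    ⟨fun i => WittVector.mk p fun l => Nat.casesOn l (C (I (X (M.e i))))
      fun l => if h : l < n then X (⟨l, h⟩, G.ε.symm i) else 0, fun i => rfl, fun i l => by
        simp [WittVector.coeff_mk]⟩
  obtain ⟨Z, hZ0, hZ1, hZ2⟩ := wuniv_ex M (A := MvPolynomial (Fin n × Fin (d + 1)) B)
    (RingHom.comp C I) x hx0
    (fun a => by
      rw [RingHom.comp_apply, hI, ← C_0]
      exact congrArg _ (Subtype.ext (G.eqn a)))
    ((IsUnit.of_mul_eq_one _ hu).map C)
  have hj : ∀ r, MvPolynomial.map (σ := Fin n × Fin (d + 1)) B.subtype (C (I r)) =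
      C (aeval G.y r) := fun r => by rw [map_C, hI]; rfl
  have hc : ∀ a, MvPolynomial.map (σ := Fin n × Fin (d + 1)) B.subtype
      (((RingHom.comp C I).comp C) a) = algebraMap k (PV K n (d + 1)) a := fun a => by
    rw [RingHom.comp_apply, RingHom.comp_apply, hj, aeval_C]; rfl
  refine ⟨fun b => WittVector.map (MvPolynomial.map B.subtype) (Z b),
    ⟨fun b => ?_, fun i l => ?_, fun a => ?_⟩, fun Ω _ _ z hz σ hσ => ?_⟩
  · rw [WittVector.map_coeff, hZ0, RingHom.comp_apply, hj, aeval_X]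
  · rw [WittVector.map_coeff, hZ1, hx1, map_X]
  · rw [wuniv_comp _ _ _ hc, hZ2, map_zero]
  have := charP_of_injective_algebraMap (algebraMap k Ω).injective p
  have hl := G.lam_ne hz
  generalize hlam : (z (M.e (G.ε 0))).coeff 0 = lam at hl
  obtain ⟨z', hz'⟩ : ∃ z' : _ → WittVector p Ω, ∀ b, z' b = WittVector.teichmuller p lam⁻¹ * z b :=
    ⟨_, fun _ => rfl⟩
  have c1 : ∀ b l, (z' b).coeff l = (z b).coeff l / lam ^ p ^ l := fun b l => by
    rw [hz', pTCH, inv_pow, div_eq_inv_mul]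
  have c0 : ∀ b, (z' b).coeff 0 = (z b).coeff 0 / lam := fun b => by rw [c1, pow_zero, pow_one]
  have e1 : ∀ a, eval₂ (WittVector.map (algebraMap k Ω)) z' (M.eqn a) = 0 := fun a => by
    rw [funext hz', eval₂_hom _ _ _ (g := M.eqn a) (M.f_hom a).rename_isHomogeneous, hz.1, mul_zero]
  have e2 : e0 (fun b => (z' b).coeff 0) M.Del = M.ev0 z M.Del / lam ^ M.dDel := by
    simp only [c0, div_eq_inv_mul]
    rw [e0_hom _ _ M.Del_hom, inv_pow, ev0_eq]
  have e3 : e0 (fun b => (z' b).coeff 0) M.Del ≠ 0 := e2 ▸ div_ne_zero hz.2 (pow_ne_zero _ hl)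
  obtain ⟨θ, ht⟩ := (hθ Ω).2 (aeval fun b => (z' b).coeff 0 : _ →ₐ[k] Ω).toRingHom
    (G.univ Ω _ (by rw [c0, hlam, div_self hl])
      (fun a => by rw [← coeff_zero_eval₂, e1, WittVector.zero_coeff]) e3) e3.isUnit
  obtain ⟨φ, f1, f2⟩ : ∃ φ : MvPolynomial (Fin n × Fin (d + 1)) B →+* Ω, (∀ b, φ (C b) = θ b) ∧
      ∀ v, φ (X v) = (z' (M.e (G.ε v.2))).coeff (v.1 + 1) :=
    ⟨eval₂Hom θ fun v => (z' (M.e (G.ε v.2))).coeff (v.1 + 1), fun _ => by simp, fun _ => by simp⟩
  have f3 : ∀ r, φ (C (I r)) = aeval (fun b => (z' b).coeff 0) r := fun r => by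
    rw [f1, hI]; exact ht r
  have f4 : ∀ a, φ (((RingHom.comp C I).comp C) a) = algebraMap k Ω a := fun a => by
    rw [RingHom.comp_apply, RingHom.comp_apply, f3, aeval_C]
  have f5 : ∀ b, (z' b).coeff 0 = φ ((Z b).coeff 0) := fun b => by
    rw [hZ0, RingHom.comp_apply, f3, aeval_X]
  have un : ∀ b, ∀ l ≤ n, (z' b).coeff l = φ ((Z b).coeff l) := fun b =>
    wuniv_uniq (WittVector.map (algebraMap k Ω)) (M.f b) (z' ∘ fun o => o.elim b M.e)
      ((fun b => WittVector.map φ (Z b)) ∘ fun o => o.elim b M.e) n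
      ((eval₂_rename _ _ _ _).symm.trans (e1 b))
      ((eval₂_rename _ _ _ _).symm.trans ((wuniv_comp _ _ _ f4 Z (M.eqn b)).trans
        (by rw [hZ2, map_zero])))
      (fun i l h => by
        cases l with
        | zero => exact f5 _
        | succ l =>
          obtain ⟨i, rfl⟩ := G.ε.surjective i
          exact (f2 (⟨l, h⟩, i)).symm.trans
            (congrArg φ ((hx1 i ⟨l, h⟩).symm.trans (by rw [← hZ1]; rfl))))
      (f5 b)
      (by
        rw [← eval₂_rename, coeff_zero_eval₂]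
        exact e0_ne (der_dvd M b) e3)
  have key : ∀ t ∈ G.Gr (fun b => WittVector.map (MvPolynomial.map B.subtype) (Z b)) z,
      t ∈ ((MvPolynomial.map B.subtype).prod φ).range := fun t ht' => by
    induction ht' using Algebra.adjoin_induction with
    | mem t h =>
      rcases h with rfl | ⟨b, rfl⟩ | ⟨v, rfl⟩
      · refine ⟨C ⟨_, hi⟩, Prod.ext (map_C _ _) ?_⟩
        refine eq_inv_of_mul_eq_one_right ?_
        rw [hlam, ← e2, e0, ← f3]
        exact (map_mul φ _ _).symm.trans (by rw [← map_mul, hu, map_one, map_one])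
      · refine ⟨C (I (X b)), Prod.ext ((hj _).trans (by rw [aeval_X])) ((f3 _).trans ?_)⟩
        rw [aeval_X, c0, hlam]
      · refine ⟨(Z v.2).coeff (v.1 + 1), Prod.ext rfl ((un _ _ v.1.2).symm.trans ?_)⟩
        rw [c1, hlam]; rfl
    | algebraMap a => exact ⟨_, Prod.ext (hc a) (f4 a)⟩
    | add _ _ _ _ h1 h2 => exact add_mem h1 h2
    | mul _ _ _ _ h1 h2 => exact mul_mem h1 h2
  obtain ⟨a, ha⟩ := key _ hσ
  have h1 : a = 0 := map_injective B.subtype B.subtype_injective
    ((congrArg Prod.fst ha).trans (map_zero _).symm)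
  rw [h1, map_zero] at ha
  exact (congrArg Prod.snd ha).symm

end Pool.Agent.P.MP_6f117a_ag.EX
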