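import Pool.Agent.P.MP_6f117a_ag.E.All
import Pool.Agent.P.MP_6f117a_ag.E.WTop0
import Pool.Agent.P.MP_6f117a_ag.E.WUniv
import Pool.Agent.P.MP_6f117a_ag.E.WLin
import Pool.Agent.P.MP_6f117a_ag.E.WRel
import Pool.Agent.P.MP_6f117a_ag.E.WEd
import Pool.Agent.P.MP_6f117a_ag.E.WRep
import Pool.Agent.P.MP_6f117a_ag.E.WSec
import Pool.Agent.P.MP_6f117a_ag.E.WBound
import Pool.Agent.P.MP_6f117a_ag.E.WDom
import Pool.Agent.P.MP_6f117a_ag.E.WNrm
import Pool.Agent.P.MP_6f117a_ag.E.WNorma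
import Pool.Agent.P.MP_6f117a_ag.E.WNormb
import Pool.Agent.P.MP_6f117a_ag.E.WNorm

/-! Sections with small twist and their norms. -/

namespace Pool.Agent.P.MP_6f117a_ag.EX

theorem wTOP : W_TOP := top_of allEXIST fun _ _ k _ _ _ K _ _ _ _ _ _ _ G n =>
  ⟨wUNIV G n, wED G n (wLIN G n) (wREL G n), wREP G n, wSEC G n, wBOUND G n, wDOM G,
    wNRM G n (wREP G n), wNORM k K (wNORMA k K) (wNORMB k K)⟩

end Pool.Agent.P.MP_6f117a_ag.EX
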